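import Pool.Agent.MP_6194a9_an.Defs

/-!
Algebra of the order: closure properties.
-/

open Matrix
open scoped Matrix.Norms.Elementwise

namespace MP6194

lemma th_mul_th : th * th = -7 := by
  have h : ((Real.sqrt 7 : ℝ) : ℂ) * ((Real.sqrt 7 : ℝ) : ℂ) = 7 := by
    rw [← Complex.ofReal_mul, Real.mul_self_sqrt (by norm_num)]
    norm_num
  unfold th
  calc Complex.I * ((Real.sqrt 7 : ℝ) : ℂ) * (Complex.I * ((Real.sqrt 7 : ℝ) : ℂ))
      = (Complex.I * Complex.I) * (((Real.sqrt 7 : ℝ) : ℂ) * ((Real.sqrt 7 : ℝ) : ℂ)) := by ring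
    _ = -7 := by rw [h, Complex.I_mul_I]; ring

lemma star_th : star th = -th := by
  unfold th
  simp [Complex.conj_ofReal]

lemma th_re : th.re = 0 := by simp [th]

lemma th_im : th.im = Real.sqrt 7 := by simp [th]

/-- the ring `ℤ[√-7]` -/
noncomputable def Rr : Subring ℂ where
  carrier := {z | InR z}
  mul_mem' := by
    rintro x y ⟨a, b, rfl⟩ ⟨c, d, rfl⟩
    refine ⟨a * c - 7 * (b * d), a * d + b * c, ?_⟩
    push_cast
    linear_combination (b * d : ℂ) * th_mul_th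
  one_mem' := ⟨1, 0, by simp⟩
  add_mem' := by
    rintro x y ⟨a, b, rfl⟩ ⟨c, d, rfl⟩
    exact ⟨a + c, b + d, by push_cast; ring⟩
  zero_mem' := ⟨0, 0, by simp⟩
  neg_mem' := by
    rintro x ⟨a, b, rfl⟩
    exact ⟨-a, -b, by push_cast; ring⟩

lemma mem_Rr {z : ℂ} : z ∈ Rr ↔ InR z := Iff.rfl

lemma th_mem : th ∈ Rr := ⟨0, 1, by simp⟩

lemma star_mem_Rr {z : ℂ} (h : z ∈ Rr) : star z ∈ Rr := by
  obtain ⟨a, b, rfl⟩ := h
  refine ⟨a, -b, ?_⟩
  simp only [star_add, star_mul', star_th]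
  simp

lemma quat_mul (a b c d a' b' c' d' : ℂ) :
    quat a b c d * quat a' b' c' d' =
      quat (a * a' - b * b' - c * c' - d * d') (a * b' + b * a' + c * d' - d * c')
        (a * c' - b * d' + c * a' + d * b') (a * d' + b * c' - c * b' + d * a') := by
  have hI := Complex.I_mul_I
  ext i j
  fin_cases i <;> fin_cases j <;>
    simp [quat, Matrix.mul_apply, Fin.sum_univ_two] <;> ring_nf <;>
    simp only [Complex.I_sq] <;> ring

lemma quat_add (a b c d a' b' c' d' : ℂ) :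
    quat a b c d + quat a' b' c' d' = quat (a + a') (b + b') (c + c') (d + d') := by
  ext i j
  fin_cases i <;> fin_cases j <;> simp [quat] <;> ring

lemma quat_neg (a b c d : ℂ) : -quat a b c d = quat (-a) (-b) (-c) (-d) := by
  ext i j
  fin_cases i <;> fin_cases j <;> simp [quat] <;> ring

lemma quat_smul (t a b c d : ℂ) : t • quat a b c d = quat (t * a) (t * b) (t * c) (t * d) := by
  ext i j
  fin_cases i <;> fin_cases j <;> simp [quat] <;> ring

lemma quat_adj (a b c d : ℂ) : (quat a b c d).adjugate = quat a (-b) (-c) (-d) := by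
  rw [Matrix.adjugate_fin_two]
  ext i j
  fin_cases i <;> fin_cases j <;> simp [quat] <;> ring

lemma quat_conjTranspose (a b c d : ℂ) :
    (quat a b c d)ᴴ = quat (star a) (-star b) (-star c) (-star d) := by
  ext i j
  fin_cases i <;> fin_cases j <;> simp [quat, Matrix.conjTranspose_apply] <;> ring

lemma quat_det (a b c d : ℂ) : (quat a b c d).det = a ^ 2 + b ^ 2 + c ^ 2 + d ^ 2 := by
  rw [Matrix.det_fin_two]
  simp [quat]
  ring_nf
  simp only [Complex.I_sq]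
  ring

lemma quat_trace (a b c d : ℂ) : (quat a b c d).trace = 2 * a := by
  rw [Matrix.trace_fin_two]
  simp [quat]
  ring

/-- coordinates of a quaternion matrix -/
lemma quat_inj {a b c d a' b' c' d' : ℂ} (h : quat a b c d = quat a' b' c' d') :
    a = a' ∧ b = b' ∧ c = c' ∧ d = d' := by
  have h00 := congrFun (congrFun h 0) 0
  have h01 := congrFun (congrFun h 0) 1
  have h10 := congrFun (congrFun h 1) 0
  have h11 := congrFun (congrFun h 1) 1
  simp [quat] at h00 h01 h10 h11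
  have hI := Complex.I_ne_zero
  have e1 : a = a' := by linear_combination (h00 + h11) / 2
  have e2 : Complex.I * b = Complex.I * b' := by linear_combination (h00 - h11) / 2
  have e3 : c = c' := by linear_combination (h01 - h10) / 2
  have e4 : Complex.I * d = Complex.I * d' := by linear_combination (h01 + h10) / 2
  exact ⟨e1, mul_left_cancel₀ hI e2, e3, mul_left_cancel₀ hI e4⟩

/-- every matrix is a quaternion matrix -/
lemma eq_quat (M : Mat) : M = quat ((M 0 0 + M 1 1) / 2) ((M 0 0 - M 1 1) / (2 * Complex.I))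
    ((M 0 1 - M 1 0) / 2) ((M 0 1 + M 1 0) / (2 * Complex.I)) := by
  have hI := Complex.I_ne_zero
  ext i j
  fin_cases i <;> fin_cases j <;> simp [quat] <;> field_simp <;> ring

/-- the order as a subring -/
noncomputable def Or : Subring Mat where
  carrier := {M | InO M}
  mul_mem' := by
    rintro x y ⟨a, b, c, d, ha, hb, hc, hd, rfl⟩ ⟨a', b', c', d', ha', hb', hc', hd', rfl⟩
    change _ ∈ Rr at ha hb hc hd ha' hb' hc' hd'
    refine ⟨_, _, _, _, ?_, ?_, ?_, ?_, quat_mul ..⟩ <;> rw [← mem_Rr]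
    · exact sub_mem (sub_mem (sub_mem (mul_mem ha ha') (mul_mem hb hb')) (mul_mem hc hc'))
        (mul_mem hd hd')
    · exact sub_mem (add_mem (add_mem (mul_mem ha hb') (mul_mem hb ha')) (mul_mem hc hd'))
        (mul_mem hd hc')
    · exact add_mem (add_mem (sub_mem (mul_mem ha hc') (mul_mem hb hd')) (mul_mem hc ha'))
        (mul_mem hd hb')
    · exact add_mem (sub_mem (add_mem (mul_mem ha hd') (mul_mem hb hc')) (mul_mem hc hb'))
        (mul_mem hd ha')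
  one_mem' := by
    refine ⟨1, 0, 0, 0, Rr.one_mem, Rr.zero_mem, Rr.zero_mem, Rr.zero_mem, ?_⟩
    ext i j
    fin_cases i <;> fin_cases j <;> simp [quat]
  add_mem' := by
    rintro x y ⟨a, b, c, d, ha, hb, hc, hd, rfl⟩ ⟨a', b', c', d', ha', hb', hc', hd', rfl⟩
    exact ⟨_, _, _, _, Rr.add_mem ha ha', Rr.add_mem hb hb', Rr.add_mem hc hc',
      Rr.add_mem hd hd', quat_add ..⟩
  zero_mem' := by
    refine ⟨0, 0, 0, 0, Rr.zero_mem, Rr.zero_mem, Rr.zero_mem, Rr.zero_mem, ?_⟩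
    ext i j
    fin_cases i <;> fin_cases j <;> simp [quat]
  neg_mem' := by
    rintro x ⟨a, b, c, d, ha, hb, hc, hd, rfl⟩
    exact ⟨_, _, _, _, Rr.neg_mem ha, Rr.neg_mem hb, Rr.neg_mem hc,
      Rr.neg_mem hd, quat_neg ..⟩

lemma mem_Or {M : Mat} : M ∈ Or ↔ InO M := Iff.rfl

lemma adj_mem_Or {M : Mat} (h : M ∈ Or) : M.adjugate ∈ Or := by
  obtain ⟨a, b, c, d, ha, hb, hc, hd, rfl⟩ := h
  exact ⟨_, _, _, _, ha, Rr.neg_mem hb, Rr.neg_mem hc, Rr.neg_mem hd, quat_adj ..⟩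

lemma conjTranspose_mem_Or {M : Mat} (h : M ∈ Or) : Mᴴ ∈ Or := by
  obtain ⟨a, b, c, d, ha, hb, hc, hd, rfl⟩ := h
  exact ⟨_, _, _, _, star_mem_Rr ha, Rr.neg_mem (star_mem_Rr hb), Rr.neg_mem (star_mem_Rr hc),
    Rr.neg_mem (star_mem_Rr hd), quat_conjTranspose ..⟩

lemma InG.mem {g : Mat} (h : InG g) : g ∈ Or := h.1

lemma InG.det {g : Mat} (h : InG g) : g.det = 1 := h.2

lemma InG_one : InG 1 := ⟨Or.one_mem, by simp⟩

lemma InG.mul {g h : Mat} (hg : InG g) (hh : InG h) : InG (g * h) :=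
  ⟨Or.mul_mem hg.1 hh.1, by rw [Matrix.det_mul, hg.2, hh.2, mul_one]⟩

lemma InG.adj {g : Mat} (hg : InG g) : InG g.adjugate :=
  ⟨adj_mem_Or hg.1, by rw [Matrix.det_adjugate, hg.2]; simp⟩

lemma InG.mul_adj {g : Mat} (hg : InG g) : g * g.adjugate = 1 := by
  rw [Matrix.mul_adjugate, hg.2, one_smul]

lemma InG.adj_mul {g : Mat} (hg : InG g) : g.adjugate * g = 1 := by
  rw [Matrix.adjugate_mul, hg.2, one_smul]

lemma adjugate_conjTranspose (M : Mat) : (M.adjugate)ᴴ = (Mᴴ).adjugate := by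
  rw [Matrix.adjugate_fin_two, Matrix.adjugate_fin_two]
  ext i j
  fin_cases i <;> fin_cases j <;> simp [Matrix.conjTranspose_apply]

lemma InG.conjTranspose_mul {g : Mat} (hg : InG g) : gᴴ * (g.adjugate)ᴴ = 1 := by
  rw [← Matrix.conjTranspose_mul, hg.adj_mul, Matrix.conjTranspose_one]

lemma InG.conjTranspose_mul' {g : Mat} (hg : InG g) : (g.adjugate)ᴴ * gᴴ = 1 := by
  rw [← Matrix.conjTranspose_mul, hg.mul_adj, Matrix.conjTranspose_one]

/-- the lattice of hermitian elements as a subgroup -/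
noncomputable def L0 : AddSubgroup Mat where
  carrier := {V | InL0 V}
  add_mem' := by
    rintro x y ⟨hx, hx'⟩ ⟨hy, hy'⟩
    exact ⟨Or.add_mem hx hy, by rw [Matrix.conjTranspose_add, hx', hy']⟩
  zero_mem' := ⟨Or.zero_mem, by simp⟩
  neg_mem' := by
    rintro x ⟨hx, hx'⟩
    exact ⟨Or.neg_mem hx, by rw [Matrix.conjTranspose_neg, hx']⟩

lemma mem_L0 {M : Mat} : M ∈ L0 ↔ InL0 M := Iff.rfl

/-- the full lattice as a subgroup -/
noncomputable def L : AddSubgroup Mat where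
  carrier := {V | InL V}
  add_mem' := by
    rintro x y ⟨A, B, hA, hB, rfl⟩ ⟨A', B', hA', hB', rfl⟩
    refine ⟨A + A', B + B', L0.add_mem hA hA', L0.add_mem hB hB', ?_⟩
    rw [smul_add]; abel
  zero_mem' := ⟨0, 0, L0.zero_mem, L0.zero_mem, by simp⟩
  neg_mem' := by
    rintro x ⟨A, B, hA, hB, rfl⟩
    refine ⟨-A, -B, L0.neg_mem hA, L0.neg_mem hB, ?_⟩
    rw [smul_neg]; abel

lemma mem_L {M : Mat} : M ∈ L ↔ InL M := Iff.rfl

/-- the Gaussian integers -/
noncomputable def Zi : AddSubgroup ℂ where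
  carrier := {z | InZi z}
  add_mem' := by
    rintro x y ⟨a, b, rfl⟩ ⟨c, d, rfl⟩
    exact ⟨a + c, b + d, by push_cast; ring⟩
  zero_mem' := ⟨0, 0, by simp⟩
  neg_mem' := by
    rintro x ⟨a, b, rfl⟩
    exact ⟨-a, -b, by push_cast; ring⟩

lemma mem_Zi {z : ℂ} : z ∈ Zi ↔ InZi z := Iff.rfl

lemma L0_le_L {V : Mat} (h : V ∈ L0) : V ∈ L := ⟨V, 0, h, L0.zero_mem, by simp⟩

lemma conj_mem_L0 {g V : Mat} (hg : InG g) (hV : V ∈ L0) : g * V * gᴴ ∈ L0 :=
  ⟨Or.mul_mem (Or.mul_mem hg.1 hV.1) (conjTranspose_mem_Or hg.1), by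
    rw [Matrix.conjTranspose_mul, Matrix.conjTranspose_mul, hV.2,
      Matrix.conjTranspose_conjTranspose, Matrix.mul_assoc]⟩

lemma conj_mem_L {g V : Mat} (hg : InG g) (hV : V ∈ L) : g * V * gᴴ ∈ L := by
  obtain ⟨A, B, hA, hB, rfl⟩ := hV
  refine ⟨g * A * gᴴ, g * B * gᴴ, conj_mem_L0 hg hA, conj_mem_L0 hg hB, ?_⟩
  rw [Matrix.mul_add, Matrix.add_mul, Matrix.mul_smul, Matrix.smul_mul]

lemma smul_mem_L {m : ℂ} {A : Mat} (hm : m ∈ Zi) (hA : A ∈ L0) : m • A ∈ L := by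
  obtain ⟨a, b, rfl⟩ := hm
  refine ⟨a • A, b • A, L0.zsmul_mem hA a, L0.zsmul_mem hA b, ?_⟩
  rw [add_smul, ← Int.cast_smul_eq_zsmul ℂ, ← Int.cast_smul_eq_zsmul ℂ, smul_smul, mul_comm]

/-- explicit form of the elements of `L0` -/
lemma L0_explicit {V : Mat} (hV : InL0 V) :
    ∃ t x y z : ℤ, V = quat t (x * th) (y * th) (z * th) := by
  obtain ⟨⟨a, b, c, d, ha, hb, hc, hd, rfl⟩, h⟩ := hV
  rw [quat_conjTranspose] at h
  obtain ⟨h1, h2, h3, h4⟩ := quat_inj h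
  have hth : th ≠ 0 := by
    intro h0
    have := th_mul_th
    rw [h0] at this
    norm_num at this
  have key1 : ∀ z : ℂ, InR z → star z = z → ∃ n : ℤ, z = n := by
    rintro z ⟨m, n, rfl⟩ hz
    simp only [star_add, star_mul', star_th] at hz
    have hm : star (m : ℂ) = m := by simp
    have hn : star (n : ℂ) = n := by simp
    rw [hm, hn] at hz
    have h2 : (n : ℂ) * th = 0 := by linear_combination (-1 / 2 : ℂ) * hz
    exact ⟨m, by rw [h2, add_zero]⟩
  have key2 : ∀ z : ℂ, InR z → -star z = z → ∃ n : ℤ, z = n * th := by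
    rintro z ⟨m, n, rfl⟩ hz
    simp only [star_add, star_mul', star_th] at hz
    have hm : star (m : ℂ) = m := by simp
    have hn : star (n : ℂ) = n := by simp
    rw [hm, hn] at hz
    have h2 : (m : ℂ) = 0 := by linear_combination (-1 / 2 : ℂ) * hz
    exact ⟨n, by rw [h2, zero_add]⟩
  obtain ⟨t, rfl⟩ := key1 a ha h1
  obtain ⟨x, rfl⟩ := key2 b hb h2
  obtain ⟨y, rfl⟩ := key2 c hc h3
  obtain ⟨z, rfl⟩ := key2 d hd h4
  exact ⟨t, x, y, z, rfl⟩

lemma quat_mem_L0 (t x y z : ℤ) : InL0 (quat t (x * th) (y * th) (z * th)) := by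
  refine ⟨⟨_, _, _, _, ⟨t, 0, by simp⟩, ⟨0, x, by simp⟩, ⟨0, y, by simp⟩, ⟨0, z, by simp⟩, rfl⟩, ?_⟩
  rw [quat_conjTranspose]
  have h : ∀ n : ℤ, star (n : ℂ) = n := by intro n; simp
  simp only [star_mul', star_th, h]
  congr 1 <;> ring

lemma L0_det (t x y z : ℤ) : (quat t (x * th) (y * th) (z * th)).det
    = ((t ^ 2 - 7 * (x ^ 2 + y ^ 2 + z ^ 2) : ℤ) : ℂ) := by
  rw [quat_det]
  push_cast
  linear_combination ((x : ℂ) ^ 2 + y ^ 2 + z ^ 2) * th_mul_th

lemma S_explicit {V : Mat} (hV : V ∈ S) :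
    ∃ t x y z : ℤ, V = quat t (x * th) (y * th) (z * th) ∧
      t ^ 2 - 7 * (x ^ 2 + y ^ 2 + z ^ 2) = -3 := by
  obtain ⟨t, x, y, z, rfl⟩ := L0_explicit hV.1
  refine ⟨t, x, y, z, rfl, ?_⟩
  have := hV.2
  rw [L0_det] at this
  exact_mod_cast this

lemma quat_mem_S {t x y z : ℤ} (h : t ^ 2 - 7 * (x ^ 2 + y ^ 2 + z ^ 2) = -3) :
    quat t (x * th) (y * th) (z * th) ∈ S := by
  refine ⟨quat_mem_L0 t x y z, ?_⟩
  rw [L0_det, h]
  norm_num

lemma conj_mem_S {g V : Mat} (hg : InG g) (hV : V ∈ S) : g * V * gᴴ ∈ S := by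
  refine ⟨conj_mem_L0 hg hV.1, ?_⟩
  rw [Matrix.det_mul, Matrix.det_mul, Matrix.det_conjTranspose, hg.2, hV.2]
  simp

end MP6194
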