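import Pool.Agent.MP_6194a9_an.Defs

open Matrix
open scoped Matrix.Norms.Elementwise

namespace MP6194

/-! ### algebra of the order -/

theorem th_sq : th * th = -7 := by
  have h7 : ((Real.sqrt 7 : ℝ) : ℂ) * ((Real.sqrt 7 : ℝ) : ℂ) = 7 := by
    rw [← Complex.ofReal_mul, Real.mul_self_sqrt (by norm_num)]; norm_num
  have : th * th = (Complex.I * Complex.I) * (((Real.sqrt 7 : ℝ) : ℂ) * ((Real.sqrt 7 : ℝ) : ℂ)) := by
    unfold th; ring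
  rw [this, h7, Complex.I_mul_I]; ring

theorem InR.add {z w : ℂ} (hz : InR z) (hw : InR w) : InR (z + w) := by
  obtain ⟨a, b, rfl⟩ := hz; obtain ⟨c, d, rfl⟩ := hw
  exact ⟨a + c, b + d, by push_cast; ring⟩

theorem InR.neg {z : ℂ} (hz : InR z) : InR (-z) := by
  obtain ⟨a, b, rfl⟩ := hz
  exact ⟨-a, -b, by push_cast; ring⟩

theorem InR.sub {z w : ℂ} (hz : InR z) (hw : InR w) : InR (z - w) := by
  rw [sub_eq_add_neg]; exact hz.add hw.neg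

theorem InR.mul {z w : ℂ} (hz : InR z) (hw : InR w) : InR (z * w) := by
  obtain ⟨a, b, rfl⟩ := hz; obtain ⟨c, d, rfl⟩ := hw
  refine ⟨a * c - 7 * (b * d), a * d + b * c, ?_⟩
  push_cast
  linear_combination (b * d : ℂ) * th_sq

theorem InR.int (n : ℤ) : InR (n : ℂ) := ⟨n, 0, by push_cast; ring⟩

theorem InR.zero : InR 0 := by simpa using InR.int 0
theorem InR.one : InR 1 := by simpa using InR.int 1

theorem det_quat (a b c d : ℂ) : (quat a b c d).det = a ^ 2 + b ^ 2 + c ^ 2 + d ^ 2 := by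
  unfold quat
  rw [Matrix.det_fin_two_of]
  linear_combination (-b ^ 2 - d ^ 2) * Complex.I_sq

theorem cquat_mul (a b c d a' b' c' d' : ℂ) : quat a b c d * quat a' b' c' d' =
    quat (a * a' - b * b' - c * c' - d * d') (a * b' + b * a' + c * d' - d * c')
      (a * c' - b * d' + c * a' + d * b') (a * d' + b * c' - c * b' + d * a') := by
  unfold quat
  rw [Matrix.mul_fin_two]
  have hI := Complex.I_sq
  congr 1
  ext i j
  fin_cases i <;> fin_cases j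
  · simp; linear_combination (b * b' + d * d') * hI
  · simp; linear_combination (b * d' - d * b') * hI
  · simp; linear_combination (- b * d' + d * b') * hI
  · simp; linear_combination (b * b' + d * d') * hI

theorem cquat_add (a b c d a' b' c' d' : ℂ) : quat a b c d + quat a' b' c' d' =
    quat (a + a') (b + b') (c + c') (d + d') := by
  unfold quat
  ext i j
  fin_cases i <;> fin_cases j <;> simp <;> ring

theorem cquat_smul (t a b c d : ℂ) : t • quat a b c d = quat (t * a) (t * b) (t * c) (t * d) := by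
  unfold quat
  ext i j
  fin_cases i <;> fin_cases j <;> simp <;> ring

theorem cquat_one : quat 1 0 0 0 = 1 := by
  unfold quat
  ext i j
  fin_cases i <;> fin_cases j <;> simp

theorem cquat_adj (a b c d : ℂ) : (quat a b c d).adjugate = quat a (-b) (-c) (-d) := by
  unfold quat
  rw [Matrix.adjugate_fin_two_of]
  ext i j
  fin_cases i <;> fin_cases j <;> simp <;> ring

theorem InO.mul {M N : Mat} (hM : InO M) (hN : InO N) : InO (M * N) := by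
  obtain ⟨a, b, c, d, ha, hb, hc, hd, rfl⟩ := hM
  obtain ⟨a', b', c', d', ha', hb', hc', hd', rfl⟩ := hN
  rw [cquat_mul]
  exact ⟨_, _, _, _, (((ha.mul ha').sub (hb.mul hb')).sub (hc.mul hc')).sub (hd.mul hd'),
    (((ha.mul hb').add (hb.mul ha')).add (hc.mul hd')).sub (hd.mul hc'),
    (((ha.mul hc').sub (hb.mul hd')).add (hc.mul ha')).add (hd.mul hb'),
    (((ha.mul hd').add (hb.mul hc')).sub (hc.mul hb')).add (hd.mul ha'), rfl⟩

theorem InO.add {M N : Mat} (hM : InO M) (hN : InO N) : InO (M + N) := by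
  obtain ⟨a, b, c, d, ha, hb, hc, hd, rfl⟩ := hM
  obtain ⟨a', b', c', d', ha', hb', hc', hd', rfl⟩ := hN
  rw [cquat_add]
  exact ⟨_, _, _, _, ha.add ha', hb.add hb', hc.add hc', hd.add hd', rfl⟩

theorem InO.smul {M : Mat} {t : ℂ} (ht : InR t) (hM : InO M) : InO (t • M) := by
  obtain ⟨a, b, c, d, ha, hb, hc, hd, rfl⟩ := hM
  rw [cquat_smul]
  exact ⟨_, _, _, _, ht.mul ha, ht.mul hb, ht.mul hc, ht.mul hd, rfl⟩

theorem InO.one : InO 1 :=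
  ⟨1, 0, 0, 0, InR.one, InR.zero, InR.zero, InR.zero, cquat_one.symm⟩

theorem InO.adj {M : Mat} (hM : InO M) : InO M.adjugate := by
  obtain ⟨a, b, c, d, ha, hb, hc, hd, rfl⟩ := hM
  rw [cquat_adj]
  exact ⟨_, _, _, _, ha, hb.neg, hc.neg, hd.neg, rfl⟩

theorem InG.adjC {g : Mat} (hg : InG g) : InG g.adjugate := by
  refine ⟨hg.1.adj, ?_⟩
  rw [Matrix.det_adjugate, hg.2]; simp

/-! ### integer coordinates -/

/-- element of the order with given integer coordinates -/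
noncomputable def qO (c : Fin 8 → ℤ) : Mat :=
  quat (c 0 + c 1 * th) (c 2 + c 3 * th) (c 4 + c 5 * th) (c 6 + c 7 * th)

theorem InO_qO (c : Fin 8 → ℤ) : InO (qO c) :=
  ⟨_, _, _, _, ⟨_, _, rfl⟩, ⟨_, _, rfl⟩, ⟨_, _, rfl⟩, ⟨_, _, rfl⟩, rfl⟩

theorem InO.exists_qO {M : Mat} (hM : InO M) : ∃ c, M = qO c := by
  obtain ⟨a, b, c, d, ⟨a0, a1, rfl⟩, ⟨b0, b1, rfl⟩, ⟨c0, c1, rfl⟩, ⟨d0, d1, rfl⟩, rfl⟩ := hM
  exact ⟨![a0, a1, b0, b1, c0, c1, d0, d1], rfl⟩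

theorem int_th_eq_zero {a b : ℤ} (h : (a : ℂ) + b * th = 0) : a = 0 ∧ b = 0 := by
  have h7 : Real.sqrt 7 ≠ 0 := by positivity
  unfold th at h
  have hre := congrArg Complex.re h
  have him := congrArg Complex.im h
  simp at hre him
  exact ⟨hre, him⟩

theorem det_qO (c : Fin 8 → ℤ) : (qO c).det =
    ((c 0 ^ 2 + c 2 ^ 2 + c 4 ^ 2 + c 6 ^ 2 - 7 * (c 1 ^ 2 + c 3 ^ 2 + c 5 ^ 2 + c 7 ^ 2) : ℤ) : ℂ)
     + ((2 * (c 0 * c 1 + c 2 * c 3 + c 4 * c 5 + c 6 * c 7) : ℤ) : ℂ) * th := by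
  unfold qO
  rw [det_quat]
  push_cast
  linear_combination ((c 1 : ℂ) ^ 2 + c 3 ^ 2 + c 5 ^ 2 + c 7 ^ 2) * th_sq

/-! ### anisotropy -/

theorem sq_cases (x : ℤ) : (∃ p m, x = 2 * p ∧ x ^ 2 = 4 * m) ∨
    (∃ p m, x = 2 * p + 1 ∧ x ^ 2 = 8 * m + 1) := by
  rcases Int.even_or_odd' x with ⟨p, hp | hp⟩
  · left; exact ⟨p, p ^ 2, hp, by rw [hp]; ring⟩
  · right
    obtain ⟨m, hm⟩ : Even (p * (p + 1)) := Int.even_mul_succ_self p
    exact ⟨p, m, hp, by rw [hp]; linear_combination 4 * hm⟩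

theorem four_sq_eight {x y z w k : ℤ} (h : x ^ 2 + y ^ 2 + z ^ 2 + w ^ 2 = 8 * k) :
    (∃ p, x = 2 * p) ∧ (∃ p, y = 2 * p) ∧ (∃ p, z = 2 * p) ∧ (∃ p, w = 2 * p) := by
  rcases sq_cases x with ⟨p1, m1, h1, h1'⟩ | ⟨p1, m1, h1, h1'⟩ <;>
  rcases sq_cases y with ⟨p2, m2, h2, h2'⟩ | ⟨p2, m2, h2, h2'⟩ <;>
  rcases sq_cases z with ⟨p3, m3, h3, h3'⟩ | ⟨p3, m3, h3, h3'⟩ <;>
  rcases sq_cases w with ⟨p4, m4, h4, h4'⟩ | ⟨p4, m4, h4, h4'⟩ <;>
  first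
    | exact ⟨⟨p1, h1⟩, ⟨p2, h2⟩, ⟨p3, h3⟩, ⟨p4, h4⟩⟩
    | (exfalso; rw [h1', h2', h3', h4'] at h; omega)

theorem four_sq_four {x y z w k : ℤ} (h : x ^ 2 + y ^ 2 + z ^ 2 + w ^ 2 = 4 * k) :
    ((∃ p, x = 2 * p) ∧ (∃ p, y = 2 * p) ∧ (∃ p, z = 2 * p) ∧ (∃ p, w = 2 * p)) ∨
    (((∃ p, x = 2 * p + 1) ∧ (∃ p, y = 2 * p + 1) ∧ (∃ p, z = 2 * p + 1) ∧
      (∃ p, w = 2 * p + 1)) ∧ ∃ j, k = 2 * j + 1) := by
  rcases sq_cases x with ⟨p1, m1, h1, h1'⟩ | ⟨p1, m1, h1, h1'⟩ <;>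
  rcases sq_cases y with ⟨p2, m2, h2, h2'⟩ | ⟨p2, m2, h2, h2'⟩ <;>
  rcases sq_cases z with ⟨p3, m3, h3, h3'⟩ | ⟨p3, m3, h3, h3'⟩ <;>
  rcases sq_cases w with ⟨p4, m4, h4, h4'⟩ | ⟨p4, m4, h4, h4'⟩ <;>
  first
    | exact Or.inl ⟨⟨p1, h1⟩, ⟨p2, h2⟩, ⟨p3, h3⟩, ⟨p4, h4⟩⟩
    | exact Or.inr ⟨⟨⟨p1, h1⟩, ⟨p2, h2⟩, ⟨p3, h3⟩, ⟨p4, h4⟩⟩,
        ⟨m1 + m2 + m3 + m4, by rw [h1', h2', h3', h4'] at h; omega⟩⟩
    | (exfalso; rw [h1', h2', h3', h4'] at h; omega)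

/-- one step of the descent -/
theorem descent_step {a b : Fin 4 → ℤ}
    (h1 : a 0 ^ 2 + a 1 ^ 2 + a 2 ^ 2 + a 3 ^ 2 = 7 * (b 0 ^ 2 + b 1 ^ 2 + b 2 ^ 2 + b 3 ^ 2))
    (h2 : a 0 * b 0 + a 1 * b 1 + a 2 * b 2 + a 3 * b 3 = 0) :
    ∃ a' b' : Fin 4 → ℤ, (∀ i, a i = 2 * a' i) ∧ (∀ i, b i = 2 * b' i) := by
  have hu := four_sq_eight (x := a 0 + b 0) (y := a 1 + b 1) (z := a 2 + b 2) (w := a 3 + b 3)
    (k := b 0 ^ 2 + b 1 ^ 2 + b 2 ^ 2 + b 3 ^ 2) (by linear_combination h1 + 2 * h2)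
  have hv := four_sq_eight (x := a 0 - b 0) (y := a 1 - b 1) (z := a 2 - b 2) (w := a 3 - b 3)
    (k := b 0 ^ 2 + b 1 ^ 2 + b 2 ^ 2 + b 3 ^ 2) (by linear_combination h1 - 2 * h2)
  obtain ⟨⟨p0, hp0⟩, ⟨p1, hp1⟩, ⟨p2, hp2⟩, ⟨p3, hp3⟩⟩ := hu
  obtain ⟨⟨q0, hq0⟩, ⟨q1, hq1⟩, ⟨q2, hq2⟩, ⟨q3, hq3⟩⟩ := hv
  have ea0 : a 0 = p0 + q0 := by omega
  have ea1 : a 1 = p1 + q1 := by omega
  have ea2 : a 2 = p2 + q2 := by omega
  have ea3 : a 3 = p3 + q3 := by omega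
  have eb0 : b 0 = p0 - q0 := by omega
  have eb1 : b 1 = p1 - q1 := by omega
  have eb2 : b 2 = p2 - q2 := by omega
  have eb3 : b 3 = p3 - q3 := by omega
  rw [ea0, ea1, ea2, ea3, eb0, eb1, eb2, eb3] at h1 h2
  -- sums: P = Q', 
  have hPQ : p0 ^ 2 + p1 ^ 2 + p2 ^ 2 + p3 ^ 2 = q0 ^ 2 + q1 ^ 2 + q2 ^ 2 + q3 ^ 2 := by
    linear_combination h2
  have hX : 3 * (p0 ^ 2 + p1 ^ 2 + p2 ^ 2 + p3 ^ 2) =
      4 * (p0 * q0 + p1 * q1 + p2 * q2 + p3 * q3) := by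
    linarith
  obtain ⟨j, hj⟩ : ∃ j, p0 ^ 2 + p1 ^ 2 + p2 ^ 2 + p3 ^ 2 = 4 * j := ⟨_, by
    have : (4 : ℤ) ∣ p0 ^ 2 + p1 ^ 2 + p2 ^ 2 + p3 ^ 2 := by omega
    exact (Int.mul_ediv_cancel' this).symm⟩
  have hj' : q0 ^ 2 + q1 ^ 2 + q2 ^ 2 + q3 ^ 2 = 4 * j := by rw [← hPQ]; exact hj
  have hX' : p0 * q0 + p1 * q1 + p2 * q2 + p3 * q3 = 3 * j := by
    have := hX; rw [hj] at this; linarith
  rcases four_sq_four hj with ⟨⟨r0, hr0⟩, ⟨r1, hr1⟩, ⟨r2, hr2⟩, ⟨r3, hr3⟩⟩ |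
    ⟨⟨⟨r0, hr0⟩, ⟨r1, hr1⟩, ⟨r2, hr2⟩, ⟨r3, hr3⟩⟩, ⟨i, hi⟩⟩
  · rcases four_sq_four hj' with ⟨⟨s0, hs0⟩, ⟨s1, hs1⟩, ⟨s2, hs2⟩, ⟨s3, hs3⟩⟩ |
      ⟨⟨⟨s0, hs0⟩, ⟨s1, hs1⟩, ⟨s2, hs2⟩, ⟨s3, hs3⟩⟩, ⟨i, hi⟩⟩
    · refine ⟨![r0 + s0, r1 + s1, r2 + s2, r3 + s3], ![r0 - s0, r1 - s1, r2 - s2, r3 - s3],
        ?_, ?_⟩
      · intro i; fin_cases i <;> simp <;> omega
      · intro i; fin_cases i <;> simp <;> omega
    · exfalso
      rw [hr0, hr1, hr2, hr3, hi] at hX'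
      have : 2 * (r0 * q0 + r1 * q1 + r2 * q2 + r3 * q3) = 3 * (2 * i + 1) := by linarith
      omega
  · rcases four_sq_four hj' with ⟨⟨s0, hs0⟩, ⟨s1, hs1⟩, ⟨s2, hs2⟩, ⟨s3, hs3⟩⟩ |
      ⟨⟨⟨s0, hs0⟩, ⟨s1, hs1⟩, ⟨s2, hs2⟩, ⟨s3, hs3⟩⟩, ⟨i', hi'⟩⟩
    · exfalso
      rw [hs0, hs1, hs2, hs3, hi] at hX'
      have : 2 * (p0 * s0 + p1 * s1 + p2 * s2 + p3 * s3) = 3 * (2 * i + 1) := by linarith
      omega
    · exfalso
      rw [hr0, hr1, hr2, hr3, hs0, hs1, hs2, hs3, hi] at hX'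
      have : 2 * (2 * (r0 * s0 + r1 * s1 + r2 * s2 + r3 * s3) + (r0 + r1 + r2 + r3) +
        (s0 + s1 + s2 + s3) + 2) = 3 * (2 * i + 1) := by linarith
      omega

theorem descent (n : ℕ) : ∀ a b : Fin 4 → ℤ,
    (a 0 ^ 2 + a 1 ^ 2 + a 2 ^ 2 + a 3 ^ 2 = 7 * (b 0 ^ 2 + b 1 ^ 2 + b 2 ^ 2 + b 3 ^ 2)) →
    (a 0 * b 0 + a 1 * b 1 + a 2 * b 2 + a 3 * b 3 = 0) →
    (∀ i, (2 : ℤ) ^ n ∣ a i) ∧ (∀ i, (2 : ℤ) ^ n ∣ b i) := by
  induction n with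
  | zero => intro a b _ _; simp
  | succ n ih =>
    intro a b h1 h2
    obtain ⟨a', b', ha, hb⟩ := descent_step h1 h2
    have := ih a' b' (by simp only [ha, hb] at h1; linarith) (by simp only [ha, hb] at h2; linarith)
    refine ⟨fun i => ?_, fun i => ?_⟩
    · rw [ha, pow_succ, mul_comm]; exact mul_dvd_mul_left 2 (this.1 i)
    · rw [hb, pow_succ, mul_comm]; exact mul_dvd_mul_left 2 (this.2 i)

theorem eq_zero_of_two_pow_dvd {x : ℤ} (h : ∀ n : ℕ, (2 : ℤ) ^ n ∣ x) : x = 0 := by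
  refine Int.eq_zero_of_abs_lt_dvd (h x.natAbs) ?_
  rw [← Int.natCast_natAbs]
  exact_mod_cast Nat.lt_two_pow_self

/-- anisotropy of the norm form on the order -/
theorem det_ne_zero {M : Mat} (hM : InO M) (h0 : M ≠ 0) : M.det ≠ 0 := by
  intro hdet
  apply h0
  obtain ⟨c, rfl⟩ := hM.exists_qO
  rw [det_qO] at hdet
  obtain ⟨e1, e2⟩ := int_th_eq_zero hdet
  have key := fun n => descent n ![c 0, c 2, c 4, c 6] ![c 1, c 3, c 5, c 7]
    (by simp; linarith) (by simp; linarith)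
  have ha := fun i => eq_zero_of_two_pow_dvd (fun n => (key n).1 i)
  have hb := fun i => eq_zero_of_two_pow_dvd (fun n => (key n).2 i)
  have a0 := ha 0
  have a1 := ha 1
  have a2 := ha 2
  have a3 := ha 3
  have b0 := hb 0
  have b1 := hb 1
  have b2 := hb 2
  have b3 := hb 3
  simp at a0 a1 a2 a3 b0 b1 b2 b3
  unfold qO
  rw [a0, a1, a2, a3, b0, b1, b2, b3]
  unfold quat
  ext i j
  fin_cases i <;> fin_cases j <;> simp

/-! ### finiteness of classes -/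

theorem normSq_int_th (a b : ℤ) : ‖(a : ℂ) + b * th‖ ^ 2 = ((a ^ 2 + 7 * b ^ 2 : ℤ) : ℝ) := by
  rw [← Complex.normSq_eq_norm_sq, Complex.normSq_apply]
  have h7 : Real.sqrt 7 * Real.sqrt 7 = 7 := Real.mul_self_sqrt (by norm_num)
  unfold th
  simp
  linear_combination (b : ℝ) ^ 2 * h7

theorem qO_add_smul (c δ : Fin 8 → ℤ) (N : ℤ) :
    qO (fun i => c i + N * δ i) = qO c + (N : ℂ) • qO δ := by
  unfold qO
  rw [cquat_smul, cquat_add]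
  push_cast
  congr 1 <;> ring

theorem finite_classes (B : ℝ) : ∃ K : ℝ, ∀ α : Mat, InO α → α.det ≠ 0 → ‖α.det‖ ≤ B →
    ∃ u β : Mat, InG u ∧ u * β = α ∧ ‖β‖ ≤ K := by
  classical
  set m0 : ℕ := ⌊B ^ 2⌋₊ with hm0
  obtain ⟨N, hNpos, hNdvd⟩ : ∃ N : ℕ, 0 < N ∧ ∀ m, 0 < m → m ≤ m0 → m ∣ N :=
    ⟨m0.factorial, Nat.factorial_pos _, fun m h1 h2 => Nat.dvd_factorial h1 h2⟩
  let n1 : (Fin 8 → ℤ) → ℤ := fun c =>
    c 0 ^ 2 + c 2 ^ 2 + c 4 ^ 2 + c 6 ^ 2 - 7 * (c 1 ^ 2 + c 3 ^ 2 + c 5 ^ 2 + c 7 ^ 2)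
  let n2 : (Fin 8 → ℤ) → ℤ := fun c => 2 * (c 0 * c 1 + c 2 * c 3 + c 4 * c 5 + c 6 * c 7)
  have hdet : ∀ c, (qO c).det = (n1 c : ℂ) + (n2 c : ℂ) * th := fun c => det_qO c
  let S0 : Set (Fin 8 → ℤ) := {c | (qO c).det ≠ 0 ∧ ‖(qO c).det‖ ≤ B}
  let f : (Fin 8 → ℤ) → (Fin 8 → ZMod N) × ℤ × ℤ := fun c => (fun i => (c i : ZMod N), n1 c, n2 c)
  have : NeZero N := ⟨hNpos.ne'⟩
  have hbound : ∀ c ∈ S0, n1 c ^ 2 + 7 * n2 c ^ 2 ≤ m0 := by
    intro c hc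
    have h1 : ‖(qO c).det‖ ^ 2 ≤ B ^ 2 := by
      have := hc.2
      gcongr
    rw [hdet, normSq_int_th] at h1
    have h2 : (0 : ℤ) ≤ n1 c ^ 2 + 7 * n2 c ^ 2 := by positivity
    obtain ⟨k, hk⟩ := Int.eq_ofNat_of_zero_le h2
    rw [hk] at h1 ⊢
    have h3 : (k : ℝ) ≤ B ^ 2 := by exact_mod_cast h1
    have h4 : k ≤ m0 := Nat.le_floor h3
    exact_mod_cast h4
  have hfin : (f '' S0).Finite := by
    refine Set.Finite.subset (s := (Set.univ : Set (Fin 8 → ZMod N)) ×ˢ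
      ((Set.Icc (-(m0 : ℤ)) m0) ×ˢ (Set.Icc (-(m0 : ℤ)) m0))) ?_ ?_
    · exact Set.Finite.prod Set.finite_univ
        (Set.Finite.prod (Set.finite_Icc _ _) (Set.finite_Icc _ _))
    · rintro _ ⟨c, hc, rfl⟩
      have hb := hbound c hc
      have hx : ∀ x : ℤ, x ^ 2 ≤ m0 → x ∈ Set.Icc (-(m0 : ℤ)) m0 := by
        intro x hx
        constructor <;> nlinarith [sq_nonneg (x - 1), sq_nonneg (x + 1)]
      exact ⟨Set.mem_univ _, hx _ (by nlinarith [sq_nonneg (n2 c)]),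
        hx _ (by nlinarith [sq_nonneg (n1 c), sq_nonneg (n2 c)])⟩
  obtain ⟨T, hTS, hbij⟩ := Set.SurjOn.exists_bijOn_subset (f := f) (s := S0) (t := f '' S0)
    (Set.surjOn_image f S0)
  have hTfin : T.Finite := hbij.finite_iff_finite.mpr hfin
  obtain ⟨K, hK⟩ := (hTfin.image (fun c => ‖qO c‖)).bddAbove
  refine ⟨K, fun α hα hα0 hαB => ?_⟩
  obtain ⟨c, rfl⟩ := hα.exists_qO
  have hcS : c ∈ S0 := ⟨hα0, hαB⟩
  obtain ⟨c', hc'T, hcc'⟩ := hbij.surjOn (Set.mem_image_of_mem f hcS)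
  have hc'S : c' ∈ S0 := hTS hc'T
  simp only [f, Prod.mk.injEq] at hcc'
  obtain ⟨hmod, e1, e2⟩ := hcc'
  have hδ : ∀ i, ∃ d : ℤ, c i = c' i + N * d := by
    intro i
    have := congrFun hmod i
    rw [ZMod.intCast_eq_intCast_iff_dvd_sub] at this
    obtain ⟨d, hd⟩ := this
    exact ⟨d, by linarith⟩
  choose δ hδ using hδ
  have hcδ : qO c = qO c' + (N : ℂ) • qO δ := by
    have : c = fun i => c' i + (N : ℤ) * δ i := funext hδ
    conv_lhs => rw [this]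
    rw [qO_add_smul]
    push_cast
    rfl
  have hdd : (qO c).det = (qO c').det := by rw [hdet, hdet, e1, e2]
  set n : ℂ := (qO c').det with hn
  have hn0 : n ≠ 0 := hc'S.1
  obtain ⟨m, hm⟩ : ∃ m : ℕ, n1 c' ^ 2 + 7 * n2 c' ^ 2 = m :=
    Int.eq_ofNat_of_zero_le (by positivity)
  have hm1 : 0 < m := by
    rcases Nat.eq_zero_or_pos m with h | h
    · exfalso
      rw [h] at hm
      have a1 : n1 c' = 0 := by
        have : n1 c' ^ 2 = 0 := by push_cast at hm; nlinarith [sq_nonneg (n1 c'), sq_nonneg (n2 c')]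
        simpa using this
      have a2 : n2 c' = 0 := by
        have : n2 c' ^ 2 = 0 := by push_cast at hm; nlinarith [sq_nonneg (n1 c'), sq_nonneg (n2 c')]
        simpa using this
      apply hn0
      rw [hn, hdet, a1, a2]; simp
    · exact h
  have hmle : m ≤ m0 := by
    have := hbound c' hc'S
    rw [hm] at this
    exact_mod_cast this
  obtain ⟨t, ht⟩ : m ∣ N := hNdvd m hm1 hmle
  have hnn : n * ((n1 c' : ℂ) - (n2 c' : ℂ) * th) = m := by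
    rw [hn, hdet]
    have : ((n1 c' ^ 2 + 7 * n2 c' ^ 2 : ℤ) : ℂ) = ((m : ℤ) : ℂ) := by rw [hm]
    push_cast at this
    linear_combination this - (n2 c' : ℂ) ^ 2 * th_sq
  set s : ℂ := (t : ℂ) * ((n1 c' : ℂ) - (n2 c' : ℂ) * th) with hs
  have hsn : s * n = N := by
    have : (N : ℂ) = m * t := by rw [ht]; push_cast; ring
    rw [this, hs]
    linear_combination (t : ℂ) * hnn
  have hsR : InR s := by
    refine ⟨t * n1 c', - (t * n2 c'), ?_⟩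
    rw [hs]; push_cast; ring
  refine ⟨1 + s • (qO δ * (qO c').adjugate), qO c', ⟨?_, ?_⟩, ?_, ?_⟩
  · exact InO.one.add (InO.smul hsR ((InO_qO δ).mul (InO_qO c').adj))
  · -- determinant
    have hmul : (1 + s • (qO δ * (qO c').adjugate)) * qO c' = qO c := by
      rw [add_mul, one_mul, Matrix.smul_mul, Matrix.mul_assoc, Matrix.adjugate_mul, ← hn,
        Matrix.mul_smul, Matrix.mul_one, smul_smul, hsn, hcδ]
    have := congrArg Matrix.det hmul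
    rw [Matrix.det_mul, hdd, ← hn] at this
    exact mul_right_cancel₀ hn0 (by rw [this, one_mul])
  · rw [add_mul, one_mul, Matrix.smul_mul, Matrix.mul_assoc, Matrix.adjugate_mul, ← hn,
        Matrix.mul_smul, Matrix.mul_one, smul_smul, hsn, hcδ]
  · exact hK (Set.mem_image_of_mem _ hc'T)

/-! ### Minkowski -/

/-- real coordinates on the columns of a matrix -/
noncomputable def PhiL : (Fin 8 → ℝ) →ₗ[ℝ] (Fin 2 → Fin 2 → ℂ) where
  toFun c := fun j i => (quat (c 0 + c 1 * th) (c 2 + c 3 * th) (c 4 + c 5 * th) (c 6 + c 7 * th)) i j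
  map_add' c c' := by
    ext j i
    fin_cases i <;> fin_cases j <;> simp [quat] <;> ring
  map_smul' t c := by
    ext j i
    fin_cases i <;> fin_cases j <;> simp [quat] <;> ring

theorem real_th_eq_zero {a b : ℝ} (h : (a : ℂ) + b * th = 0) : a = 0 ∧ b = 0 := by
  have h7 : Real.sqrt 7 ≠ 0 := by positivity
  unfold th at h
  have hre := congrArg Complex.re h
  have him := congrArg Complex.im h
  simp at hre him
  exact ⟨hre, him⟩

theorem PhiL_injective : Function.Injective PhiL := by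
  rw [← LinearMap.ker_eq_bot, LinearMap.ker_eq_bot']
  intro c hc
  have e00 := congrFun (congrFun hc 0) 0
  have e01 := congrFun (congrFun hc 0) 1
  have e10 := congrFun (congrFun hc 1) 0
  have e11 := congrFun (congrFun hc 1) 1
  simp [PhiL, quat] at e00 e01 e10 e11
  have hI := Complex.I_sq
  have ha : (c 0 : ℂ) + c 1 * th = 0 := by linear_combination (e00 + e11) / 2
  have hb : (c 2 : ℂ) + c 3 * th = 0 := by
    linear_combination (-Complex.I) * (e00 - e11) / 2 + (c 2 + c 3 * th) * hI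
  have hc' : (c 4 : ℂ) + c 5 * th = 0 := by linear_combination (e10 - e01) / 2
  have hd : (c 6 : ℂ) + c 7 * th = 0 := by
    linear_combination (-Complex.I) * (e10 + e01) / 2 + (c 6 + c 7 * th) * hI
  obtain ⟨h0, h1⟩ := real_th_eq_zero ha
  obtain ⟨h2, h3⟩ := real_th_eq_zero hb
  obtain ⟨h4, h5⟩ := real_th_eq_zero hc'
  obtain ⟨h6, h7⟩ := real_th_eq_zero hd
  ext i
  fin_cases i <;> simp [*]

/-- real coordinates as an equivalence -/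
noncomputable def PhiE : (Fin 8 → ℝ) ≃ₗ[ℝ] (Fin 2 → Fin 2 → ℂ) :=
  LinearMap.linearEquivOfInjective PhiL PhiL_injective (by
    simp [Module.finrank_pi_fintype, Complex.finrank_real_complex])

theorem PhiE_apply (c : Fin 8 → ℝ) (j i : Fin 2) : PhiE c j i =
    (quat (c 0 + c 1 * th) (c 2 + c 3 * th) (c 4 + c 5 * th) (c 6 + c 7 * th)) i j := rfl

/-- left multiplication on columns -/
noncomputable def colMul (w : Mat) : (Fin 2 → Fin 2 → ℂ) →ₗ[ℂ] (Fin 2 → Fin 2 → ℂ) :=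
  LinearMap.pi (fun i => (Matrix.toLin' w).comp (LinearMap.proj i))

theorem det_colMul (w : Mat) : LinearMap.det (colMul w) = w.det ^ 2 := by
  unfold colMul
  rw [LinearMap.det_pi]
  simp [LinearMap.det_toLin']

theorem det_colMul_real (w : Mat) :
    LinearMap.det ((colMul w).restrictScalars ℝ) = ‖w.det‖ ^ 4 := by
  rw [LinearMap.det_restrictScalars, det_colMul, Algebra.norm_complex_eq]
  show Complex.normSq (w.det ^ 2) = _
  rw [Complex.normSq_eq_norm_sq, norm_pow]; ring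

/-- the conjugate of left multiplication in real coordinates -/
noncomputable def TT (w : Mat) : (Fin 8 → ℝ) →ₗ[ℝ] (Fin 8 → ℝ) :=
  (PhiE.symm : (Fin 2 → Fin 2 → ℂ) →ₗ[ℝ] (Fin 8 → ℝ)) ∘ₗ ((colMul w).restrictScalars ℝ) ∘ₗ
    (PhiE : (Fin 8 → ℝ) →ₗ[ℝ] (Fin 2 → Fin 2 → ℂ))

theorem det_TT (w : Mat) : LinearMap.det (TT w) = ‖w.det‖ ^ 4 := by
  rw [← det_colMul_real]
  have := LinearMap.det_conj ((colMul w).restrictScalars ℝ) PhiE.symm
  rw [LinearEquiv.symm_symm] at this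
  exact this

theorem PhiE_TT (w : Mat) (c : Fin 8 → ℝ) : PhiE (TT w c) = colMul w (PhiE c) := by
  simp [TT]

theorem exists_small_vec (w : Mat) (hw : w.det ≠ 0) (hw1 : ‖w.det‖ ≤ 1) :
    ∃ c : Fin 8 → ℤ, c ≠ 0 ∧ ‖TT w (fun i => (c i : ℝ))‖ ≤ 2 := by
  set b := Pi.basisFun ℝ (Fin 8)
  have hdet : LinearMap.det (TT w) ≠ 0 := by rw [det_TT]; positivity
  have hfund := ZSpan.isAddFundamentalDomain' b (MeasureTheory.volume : MeasureTheory.Measure (Fin 8 → ℝ))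
  set s : Set (Fin 8 → ℝ) := (TT w) ⁻¹' (Metric.closedBall 0 2) with hs
  have hsymm : ∀ x ∈ s, -x ∈ s := by
    intro x hx
    simp only [hs, Set.mem_preimage, Metric.mem_closedBall, dist_zero_right, map_neg, norm_neg] at hx ⊢
    exact hx
  have hconv : Convex ℝ s := (convex_closedBall 0 2).linear_preimage (TT w)
  have hvolF : MeasureTheory.volume (ZSpan.fundamentalDomain b) = 1 := by
    rw [ZSpan.fundamentalDomain_pi_basisFun, MeasureTheory.volume_pi, MeasureTheory.Measure.pi_pi]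
    simp
  have hvols : MeasureTheory.volume s = ENNReal.ofReal |(LinearMap.det (TT w))⁻¹| *
      ENNReal.ofReal ((2 * 2) ^ 8) := by
    rw [hs, MeasureTheory.Measure.addHaar_preimage_linearMap _ hdet,
      Real.volume_pi_closedBall _ (by norm_num)]
    simp
  have hlt : MeasureTheory.volume (ZSpan.fundamentalDomain b) * 2 ^ Module.finrank ℝ (Fin 8 → ℝ) <
      MeasureTheory.volume s := by
    rw [hvolF, hvols, one_mul, Module.finrank_pi, Fintype.card_fin, ← ENNReal.ofReal_mul (abs_nonneg _)]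
    have h2 : (2 : ENNReal) ^ 8 = ENNReal.ofReal (2 ^ 8) := by
      rw [ENNReal.ofReal_pow (by norm_num)]; norm_num
    rw [h2]
    refine (ENNReal.ofReal_lt_ofReal_iff (by positivity)).mpr ?_
    have h1 : 1 ≤ |(LinearMap.det (TT w))⁻¹| := by
      rw [det_TT, abs_inv, abs_of_nonneg (by positivity)]
      refine (one_le_inv₀ (by positivity)).mpr ?_
      exact pow_le_one₀ (norm_nonneg _) hw1
    nlinarith
  have : Countable (Submodule.span ℤ (Set.range b)).toAddSubgroup :=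
    inferInstanceAs (Countable (Submodule.span ℤ (Set.range b)))
  obtain ⟨x, hx0, hxs⟩ :=
    MeasureTheory.exists_ne_zero_mem_lattice_of_measure_mul_two_pow_lt_measure hfund hsymm hconv hlt
  have hxm : (x : Fin 8 → ℝ) ∈ Submodule.span ℤ (Set.range b) := x.2
  rw [Module.Basis.mem_span_iff_repr_mem] at hxm
  have hxi : ∀ i, ∃ n : ℤ, (n : ℝ) = (x : Fin 8 → ℝ) i := by
    intro i
    obtain ⟨n, hn⟩ := hxm i
    exact ⟨n, by simpa [b] using hn⟩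
  choose c hc using hxi
  have hcx : (fun i => (c i : ℝ)) = (x : Fin 8 → ℝ) := funext hc
  refine ⟨c, ?_, ?_⟩
  · rintro rfl
    apply hx0
    apply Subtype.ext
    rw [← hcx]
    ext i; simp
  · rw [hcx]
    simpa [hs] using hxs

theorem exists_small : ∃ r : ℝ, 0 ≤ r ∧ ∀ w : Mat, w.det ≠ 0 → ‖w.det‖ ≤ 1 →
    ∃ α : Mat, InO α ∧ α ≠ 0 ∧ ‖w * α‖ ≤ r := by
  let Φc : (Fin 8 → ℝ) →L[ℝ] (Fin 2 → Fin 2 → ℂ) :=
    LinearMap.toContinuousLinearMap (PhiE : (Fin 8 → ℝ) →ₗ[ℝ] (Fin 2 → Fin 2 → ℂ))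
  refine ⟨‖Φc‖ * 2, by positivity, fun w hw hw1 => ?_⟩
  obtain ⟨c, hc0, hc⟩ := exists_small_vec w hw hw1
  refine ⟨qO c, InO_qO c, ?_, ?_⟩
  · intro h
    apply hc0
    have hP : PhiE (fun i => (c i : ℝ)) = 0 := by
      ext j i
      rw [PhiE_apply]
      have := congrFun (congrFun h i) j
      simpa [qO] using this
    have h2 : (fun i => (c i : ℝ)) = 0 := by simpa using hP
    ext i
    have := congrFun h2 i
    simpa using this
  · rw [Matrix.norm_le_iff (by positivity)]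
    intro i j
    have e : (w * qO c) i j = PhiE (TT w (fun i => (c i : ℝ))) j i := by
      rw [PhiE_TT]
      simp only [colMul, LinearMap.pi_apply, LinearMap.comp_apply, LinearMap.proj_apply,
        Matrix.toLin'_apply, Matrix.mul_apply, Matrix.mulVec, dotProduct]
      refine Finset.sum_congr rfl fun k _ => ?_
      rw [PhiE_apply]
      simp [qO]
    rw [e]
    calc ‖PhiE (TT w (fun i => (c i : ℝ))) j i‖
        ≤ ‖PhiE (TT w (fun i => (c i : ℝ))) j‖ := norm_le_pi_norm _ i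
      _ ≤ ‖PhiE (TT w (fun i => (c i : ℝ)))‖ := norm_le_pi_norm _ j
      _ = ‖Φc (TT w (fun i => (c i : ℝ)))‖ := rfl
      _ ≤ ‖Φc‖ * ‖TT w (fun i => (c i : ℝ))‖ := Φc.le_opNorm _
      _ ≤ ‖Φc‖ * 2 := by gcongr

/-! ### cocompactness -/

theorem norm_mul_le_two (A B : Mat) : ‖A * B‖ ≤ 2 * ‖A‖ * ‖B‖ := by
  rw [Matrix.norm_le_iff (by positivity)]
  intro i j
  rw [Matrix.mul_apply, Fin.sum_univ_two]
  have h := fun k => mul_le_mul (Matrix.norm_entry_le_entrywise_sup_norm A (i := i) (j := k))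
    (Matrix.norm_entry_le_entrywise_sup_norm B (i := k) (j := j)) (norm_nonneg _) (norm_nonneg _)
  calc ‖A i 0 * B 0 j + A i 1 * B 1 j‖ ≤ ‖A i 0 * B 0 j‖ + ‖A i 1 * B 1 j‖ := norm_add_le _ _
    _ = ‖A i 0‖ * ‖B 0 j‖ + ‖A i 1‖ * ‖B 1 j‖ := by rw [norm_mul, norm_mul]
    _ ≤ ‖A‖ * ‖B‖ + ‖A‖ * ‖B‖ := add_le_add (h 0) (h 1)
    _ = 2 * ‖A‖ * ‖B‖ := by ring

theorem norm_adjugate_le (A : Mat) : ‖A.adjugate‖ ≤ ‖A‖ := by
  rw [Matrix.norm_le_iff (norm_nonneg _)]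
  intro i j
  rw [Matrix.adjugate_fin_two]
  have h := fun k l => Matrix.norm_entry_le_entrywise_sup_norm A (i := k) (j := l)
  fin_cases i <;> fin_cases j <;> simp [h]

theorem norm_det_le (A : Mat) : ‖A.det‖ ≤ 2 * ‖A‖ ^ 2 := by
  rw [Matrix.det_fin_two]
  have h := fun i j k l => mul_le_mul (Matrix.norm_entry_le_entrywise_sup_norm A (i := i) (j := j))
    (Matrix.norm_entry_le_entrywise_sup_norm A (i := k) (j := l)) (norm_nonneg _) (norm_nonneg _)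
  calc ‖A 0 0 * A 1 1 - A 0 1 * A 1 0‖ ≤ ‖A 0 0 * A 1 1‖ + ‖A 0 1 * A 1 0‖ := norm_sub_le _ _
    _ = ‖A 0 0‖ * ‖A 1 1‖ + ‖A 0 1‖ * ‖A 1 0‖ := by rw [norm_mul, norm_mul]
    _ ≤ ‖A‖ * ‖A‖ + ‖A‖ * ‖A‖ := add_le_add (h 0 0 1 1) (h 0 1 1 0)
    _ = 2 * ‖A‖ ^ 2 := by ring

theorem one_le_norm_det {α : Mat} (hα : InO α) (h0 : α ≠ 0) : 1 ≤ ‖α.det‖ := by
  have hd := det_ne_zero hα h0
  obtain ⟨c, rfl⟩ := hα.exists_qO
  rw [det_qO] at hd ⊢
  set a : ℤ := c 0 ^ 2 + c 2 ^ 2 + c 4 ^ 2 + c 6 ^ 2 - 7 * (c 1 ^ 2 + c 3 ^ 2 + c 5 ^ 2 + c 7 ^ 2)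
  set b : ℤ := 2 * (c 0 * c 1 + c 2 * c 3 + c 4 * c 5 + c 6 * c 7)
  have h1 := normSq_int_th a b
  have h2 : 1 ≤ a ^ 2 + 7 * b ^ 2 := by
    by_contra hcon
    have h3 : a ^ 2 + 7 * b ^ 2 = 0 := by nlinarith [sq_nonneg a, sq_nonneg b]
    rw [h3] at h1
    apply hd
    have : ‖(a : ℂ) + b * th‖ = 0 := by
      have : ‖(a : ℂ) + b * th‖ ^ 2 = 0 := by rw [h1]; simp
      simpa using this
    exact norm_eq_zero.mp this
  have h3 : (1 : ℝ) ≤ ‖(a : ℂ) + b * th‖ ^ 2 := by rw [h1]; exact_mod_cast h2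
  nlinarith [norm_nonneg ((a : ℂ) + b * th)]

/-- cocompactness for matrices with determinant of size between one and four -/
theorem cocompact_aux : ∃ C : ℝ, ∀ y : Mat, 1 ≤ ‖y.det‖ → ‖y.det‖ ≤ 4 →
    ∃ g : Mat, InG g ∧ ‖g * y‖ ≤ C := by
  obtain ⟨r, hr0, hr⟩ := exists_small
  obtain ⟨K, hK⟩ := finite_classes (4 * (2 * r ^ 2))
  refine ⟨4 * (2 * K * r), fun y hy1 hy4 => ?_⟩
  have hy0 : y.det ≠ 0 := by
    intro h; rw [h] at hy1; simp at hy1; linarith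
  have hyu : IsUnit y.det := isUnit_iff_ne_zero.mpr hy0
  have hdinv : (y⁻¹).det = (y.det)⁻¹ := by
    rw [Matrix.det_nonsing_inv, Ring.inverse_eq_inv']
  obtain ⟨α, hα, hα0, hαr⟩ := hr y⁻¹ (by rw [hdinv]; exact inv_ne_zero hy0) (by
    rw [hdinv, norm_inv]; exact inv_le_one_of_one_le₀ hy1)
  set b : Mat := y⁻¹ * α with hb
  have hyb : y * b = α := by rw [hb, ← Matrix.mul_assoc, Matrix.mul_nonsing_inv _ hyu, Matrix.one_mul]
  have hdet : α.det = y.det * b.det := by rw [← hyb, Matrix.det_mul]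
  have hα1 : 1 ≤ ‖α.det‖ := one_le_norm_det hα hα0
  have hbdet : ‖b.det‖ ≤ 2 * r ^ 2 := (norm_det_le b).trans (by gcongr)
  have hαB : ‖α.det‖ ≤ 4 * (2 * r ^ 2) := by
    rw [hdet, norm_mul]
    exact mul_le_mul hy4 hbdet (norm_nonneg _) (by norm_num)
  obtain ⟨u, β, hu, huβ, hβK⟩ := hK α hα (det_ne_zero hα hα0) hαB
  have hbd4 : 1 ≤ 4 * ‖b.det‖ := by
    calc (1 : ℝ) ≤ ‖α.det‖ := hα1
      _ = ‖y.det‖ * ‖b.det‖ := by rw [hdet, norm_mul]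
      _ ≤ 4 * ‖b.det‖ := by gcongr
  have hbd0 : b.det ≠ 0 := by
    intro h; rw [h] at hbd4; simp at hbd4; linarith
  refine ⟨u.adjugate, hu.adjC, ?_⟩
  have e1 : u.adjugate * y = (b.det)⁻¹ • (β * b.adjugate) := by
    have h1 : (u.adjugate * y) * b = β := by
      rw [Matrix.mul_assoc, hyb, ← huβ, ← Matrix.mul_assoc, Matrix.adjugate_mul, hu.2, one_smul,
        Matrix.one_mul]
    have h2 : (u.adjugate * y) * b * b.adjugate = b.det • (u.adjugate * y) := by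
      rw [Matrix.mul_assoc _ b, Matrix.mul_adjugate, Matrix.mul_smul, Matrix.mul_one]
    rw [← h1, h2, smul_smul, inv_mul_cancel₀ hbd0, one_smul]
  rw [e1, norm_smul, norm_inv]
  have h3 : (‖b.det‖)⁻¹ ≤ 4 := by
    have hpos : 0 < ‖b.det‖ := norm_pos_iff.mpr hbd0
    rw [inv_le_comm₀ hpos (by norm_num)]
    linarith
  have h4 : ‖β * b.adjugate‖ ≤ 2 * K * r := by
    refine (norm_mul_le_two _ _).trans ?_
    have h5 : ‖b.adjugate‖ ≤ r := (norm_adjugate_le b).trans hαr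
    have hK0 : 0 ≤ K := (norm_nonneg _).trans hβK
    gcongr
  exact mul_le_mul h3 h4 (norm_nonneg _) (by norm_num)

/-- cocompactness -/
theorem base_cocompact : ∃ C : ℝ, ∀ y : Mat, y.det ≠ 0 → ∃ (k : ℤ) (g : Mat), InG g ∧
    1 ≤ ‖((2 : ℂ) ^ k • (g * y)).det‖ ∧ ‖((2 : ℂ) ^ k • (g * y)).det‖ ≤ 4 ∧
    ‖(2 : ℂ) ^ k • (g * y)‖ ≤ C := by
  obtain ⟨C, hC⟩ := cocompact_aux
  refine ⟨C, fun y hy => ?_⟩
  obtain ⟨n, hn1, hn2⟩ := exists_mem_Ico_zpow (x := ‖y.det‖) (y := (4 : ℝ))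
    (norm_pos_iff.mpr hy) (by norm_num)
  have hdet : ∀ g : Mat, g.det = 1 → ‖((2 : ℂ) ^ (-n) • (g * y)).det‖ = ‖y.det‖ / (4 : ℝ) ^ n := by
    intro g hg
    rw [Matrix.det_smul, Matrix.det_mul, hg, one_mul, Fintype.card_fin, norm_mul, norm_pow, norm_zpow]
    have h4 : (‖(2 : ℂ)‖ ^ (-n)) ^ 2 = ((4 : ℝ) ^ n)⁻¹ := by
      have : (4 : ℝ) = 2 ^ 2 := by norm_num
      rw [this, Complex.norm_ofNat, ← zpow_natCast, ← _root_.zpow_mul, ← zpow_natCast (2 : ℝ) 2,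
        ← _root_.zpow_mul, ← _root_.zpow_neg]
      congr 1
      push_cast
      ring
    rw [h4]; field_simp
  have h4pos : (0 : ℝ) < 4 ^ n := by positivity
  have hge : 1 ≤ ‖y.det‖ / (4 : ℝ) ^ n := by rw [le_div_iff₀ h4pos, one_mul]; exact hn1
  have hle : ‖y.det‖ / (4 : ℝ) ^ n ≤ 4 := by
    rw [div_le_iff₀ h4pos, mul_comm]
    rw [zpow_add_one₀ (by norm_num)] at hn2
    exact hn2.le
  have h1 := hdet 1 Matrix.det_one
  rw [Matrix.one_mul] at h1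
  obtain ⟨g, hg, hgC⟩ := hC ((2 : ℂ) ^ (-n) • y) (by rw [h1]; exact hge) (by rw [h1]; exact hle)
  refine ⟨-n, g, hg, ?_, ?_, ?_⟩
  · rw [hdet g hg.2]; exact hge
  · rw [hdet g hg.2]; exact hle
  · rw [← Matrix.mul_smul]; exact hgC

end MP6194
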