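import Pool.Agent.MP_6194a9_an.Frame

/-!
The equivariant map `N0` and its cocycle property.
-/

open Matrix
open scoped Matrix.Norms.Elementwise

namespace MP6194

lemma cl_of_one_le {x : ℝ} (h : 1 ≤ x) : cl x = 1 := by
  unfold cl
  rw [min_eq_right h]; norm_num

lemma cl_of_le_neg_one {x : ℝ} (h : x ≤ -1) : cl x = -1 := by
  unfold cl
  rw [min_eq_left (by linarith), max_eq_left h]

lemma cl_neg (x : ℝ) : cl (-x) = -cl x := by
  unfold cl
  rcases le_total x 1 with h1 | h1 <;> rcases le_total (-1) x with h2 | h2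
  · rw [min_eq_left (by linarith), min_eq_left h1, max_eq_right (by linarith), max_eq_right h2]
  · rw [min_eq_left h1, max_eq_left h2, min_eq_right (by linarith)]; norm_num
  · rw [min_eq_right h1, min_eq_left (by linarith), max_eq_left (by linarith)]; norm_num
  · exfalso; linarith

lemma continuous_cl : Continuous cl := by
  unfold cl; fun_prop

/-- the trace of an element of `S` is an even nonzero integer -/
lemma S_trace {V : Mat} (hV : V ∈ S) : ∃ t : ℤ, t ≠ 0 ∧ V.trace = 2 * (t : ℂ) := by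
  obtain ⟨t, x, y, z, rfl, h⟩ := S_explicit hV
  refine ⟨t, ?_, by rw [quat_trace]⟩
  rintro rfl
  omega

lemma cl_int {t : ℤ} (ht : t ≠ 0) : cl (2 * (t : ℝ)) = if 0 < t then 1 else -1 := by
  split_ifs with h
  · apply cl_of_one_le
    have : (1 : ℝ) ≤ t := by exact_mod_cast h
    linarith
  · apply cl_of_le_neg_one
    have h2 : t ≤ -1 := by omega
    have : (t : ℝ) ≤ -1 := by exact_mod_cast h2
    linarith

lemma T_group_mem_S {g V : Mat} (hg : InG g) (hV : V ∈ S) : T g V ∈ S := by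
  rw [T_group hg]
  exact conj_mem_S hg.adj hV

/-- the action of a group element as a permutation of `S` -/
noncomputable def permS {g : Mat} (hg : InG g) : S ≃ S where
  toFun V := ⟨g * V * gᴴ, conj_mem_S hg V.2⟩
  invFun V := ⟨T g V, T_group_mem_S hg V.2⟩
  left_inv V := by ext1; exact T_group_conj hg V
  right_inv V := by ext1; exact conj_T_group hg V

lemma chi_mul {g : Mat} (hg : InG g) (y V : Mat) : chi (g * y) (g * V * gᴴ) = chi y V := by
  unfold chi; rw [T_group_mul hg]

lemma chi_group {g : Mat} (hg : InG g) (V : Mat) : chi g (g * V * gᴴ) = chi 1 V := by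
  unfold chi; rw [T_group_conj hg, T_one]

lemma chi_smul {c : ℂ} (hc : c ≠ 0) (y V : Mat) : chi (c • y) V = chi y V := by
  unfold chi; rw [T_smul_left hc]

lemma chi_neg (y V : Mat) : chi y (-V) = -chi y V := by
  unfold chi
  rw [T_neg, Matrix.trace_neg, Complex.neg_re, cl_neg]

/-- the quadratic inequality behind the finiteness statement -/
lemma herm_ineq {p r : ℝ} {q u v : ℂ} (h1 : p + r < 1) (h2 : p * r - ‖q‖ ^ 2 = -3) :
    p * ‖u‖ ^ 2 + r * ‖v‖ ^ 2 + 2 * (q * u * star v).re ≤ 3 * (‖u‖ ^ 2 + ‖v‖ ^ 2) := by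
  have hA : 0 < (3 - p) * (3 - r) := by nlinarith [sq_nonneg ‖q‖]
  have hAB : 0 < (3 - p) + (3 - r) := by linarith
  have hp : 0 < 3 - p := by
    by_contra hcon
    push Not at hcon
    nlinarith
  have hr : 0 < 3 - r := by
    by_contra hcon
    push Not at hcon
    nlinarith
  have hq : ‖q‖ ^ 2 ≤ (3 - p) * (3 - r) := by nlinarith
  have hre : (q * u * star v).re ≤ ‖q‖ * ‖u‖ * ‖v‖ := by
    calc (q * u * star v).re ≤ ‖q * u * star v‖ := Complex.re_le_norm _
      _ = ‖q‖ * ‖u‖ * ‖v‖ := by rw [norm_mul, norm_mul, norm_star]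
  have hmain : 2 * (‖q‖ * ‖u‖ * ‖v‖) ≤ (3 - p) * ‖u‖ ^ 2 + (3 - r) * ‖v‖ ^ 2 := by
    apply le_of_sq_le_sq _ (add_nonneg (mul_nonneg hp.le (sq_nonneg _))
      (mul_nonneg hr.le (sq_nonneg _)))
    have e1 : (2 * (‖q‖ * ‖u‖ * ‖v‖)) ^ 2 = 4 * (‖q‖ ^ 2 * (‖u‖ ^ 2 * ‖v‖ ^ 2)) := by ring
    rw [e1]
    have e2 : ‖q‖ ^ 2 * (‖u‖ ^ 2 * ‖v‖ ^ 2) ≤ (3 - p) * (3 - r) * (‖u‖ ^ 2 * ‖v‖ ^ 2) :=
      mul_le_mul_of_nonneg_right hq (by positivity)
    nlinarith [sq_nonneg ((3 - p) * ‖u‖ ^ 2 - (3 - r) * ‖v‖ ^ 2)]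
  nlinarith

/-- the squared Frobenius norm -/
noncomputable def fsq (y : Mat) : ℝ := ‖y 0 0‖ ^ 2 + ‖y 0 1‖ ^ 2 + ‖y 1 0‖ ^ 2 + ‖y 1 1‖ ^ 2

lemma fsq_nonneg (y : Mat) : 0 ≤ fsq y := by unfold fsq; positivity

lemma real_of_star {z : ℂ} (h : star z = z) : z = (z.re : ℂ) := by
  have := Complex.conj_eq_iff_re.mp h
  exact this.symm

lemma trace_bound {y V : Mat} (hy : y.det ≠ 0) (hV : Vᴴ = V) (hdet : V.det = -3)
    (h : (T y V).trace.re < 1) : V.trace.re ≤ 3 * fsq y / ‖y.det‖ := by
  have hU := T_herm (y := y) hV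
  have hUdet := T_det hy V
  have hrec := conj_T hy V
  set U := T y V with hUdef
  have h00 : U 0 0 = ((U 0 0).re : ℂ) := real_of_star (congrFun (congrFun hU 0) 0)
  have h11 : U 1 1 = ((U 1 1).re : ℂ) := real_of_star (congrFun (congrFun hU 1) 1)
  have h10 : U 1 0 = star (U 0 1) := (congrFun (congrFun hU 1) 0).symm
  have hq : U 0 1 * star (U 0 1) = ((‖U 0 1‖ ^ 2 : ℝ) : ℂ) := by
    have := Complex.mul_conj' (U 0 1)
    push_cast
    simpa using this
  have hd : (U 0 0).re * (U 1 1).re - ‖U 0 1‖ ^ 2 = -3 := by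
    have h1 : U.det = -3 := by rw [hUdet, hdet]
    rw [Matrix.det_fin_two, h10, hq, h00, h11] at h1
    have h2 := congrArg Complex.re h1
    simp only [Complex.sub_re, Complex.ofReal_re, ← Complex.ofReal_mul] at h2
    simpa using h2
  have htr : (U 0 0).re + (U 1 1).re < 1 := by
    rw [Matrix.trace_fin_two, Complex.add_re] at h
    exact h
  have hpos : 0 < ‖y.det‖ := norm_pos_iff.mpr hy
  rw [le_div_iff₀ hpos]
  have key : ∀ i : Fin 2, ((y * U * yᴴ) i i).re
      = (U 0 0).re * ‖y i 0‖ ^ 2 + (U 1 1).re * ‖y i 1‖ ^ 2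
        + 2 * (U 0 1 * y i 0 * star (y i 1)).re := by
    intro i
    have e : (y * U * yᴴ) i i = U 0 0 * (y i 0 * star (y i 0)) + U 1 1 * (y i 1 * star (y i 1))
        + (U 0 1 * y i 0 * star (y i 1) + star (U 0 1 * y i 0 * star (y i 1))) := by
      simp only [Matrix.mul_apply, Fin.sum_univ_two, Matrix.conjTranspose_apply, h10, star_mul',
        star_star]
      ring
    have hn : ∀ z : ℂ, z * star z = ((‖z‖ ^ 2 : ℝ) : ℂ) := by
      intro z
      have := Complex.mul_conj' z
      push_cast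
      simpa using this
    rw [e, hn, hn, h00, h11]
    simp only [Complex.add_re, ← Complex.ofReal_mul, Complex.ofReal_re]
    have hs : (star (U 0 1 * y i 0 * star (y i 1))).re = (U 0 1 * y i 0 * star (y i 1)).re :=
      Complex.conj_re _
    rw [hs]
    ring
  have e0 := key 0
  have e1 := key 1
  have i0 := herm_ineq (u := y 0 0) (v := y 0 1) htr hd
  have i1 := herm_ineq (u := y 1 0) (v := y 1 1) htr hd
  have hsum : V.trace.re * ‖y.det‖ = ((y * U * yᴴ) 0 0).re + ((y * U * yᴴ) 1 1).re := by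
    rw [hrec, Matrix.trace_fin_two]
    simp only [Matrix.smul_apply, smul_eq_mul, Complex.add_re, Complex.re_ofReal_mul]
    ring
  rw [hsum, e0, e1]
  unfold fsq
  linarith

/-- only elements of small trace contribute to `N0` -/
lemma trace_bound_of_ne {y V : Mat} (hy : y.det ≠ 0) (hV : V ∈ S)
    (h : chi y V ≠ chi 1 V) : |V.trace.re| ≤ 3 * fsq y / ‖y.det‖ := by
  obtain ⟨t, ht, htr⟩ := S_trace hV
  have hre : V.trace.re = 2 * t := by rw [htr]; simp
  have h1 : chi 1 V = if 0 < t then 1 else -1 := by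
    unfold chi; rw [T_one, hre, cl_int ht]
  by_cases hpos : 0 < t
  · rw [h1, if_pos hpos] at h
    have hlt : (T y V).trace.re < 1 := by
      by_contra hcon
      push Not at hcon
      exact h (cl_of_one_le hcon)
    have := trace_bound hy hV.1.2 hV.2 hlt
    rw [abs_of_nonneg (by rw [hre]; positivity)]
    exact this
  · rw [h1, if_neg hpos] at h
    have hlt : (T y (-V)).trace.re < 1 := by
      rw [T_neg, Matrix.trace_neg, Complex.neg_re]
      by_contra hcon
      push Not at hcon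
      exact h (cl_of_le_neg_one (by linarith))
    have hd : (-V).det = -3 := by
      rw [Matrix.det_neg, hV.2]; simp
    have hh : (-V)ᴴ = -V := by rw [Matrix.conjTranspose_neg, hV.1.2]
    have := trace_bound hy hh hd hlt
    rw [Matrix.trace_neg, Complex.neg_re] at this
    rw [abs_of_nonpos]
    · exact this
    · rw [hre]
      have : (t : ℝ) ≤ 0 := by exact_mod_cast not_lt.mp hpos
      linarith

/-- elements of `S` of bounded trace form a finite set -/
lemma finite_S_trace (C : ℝ) : {V : S | |(V : Mat).trace.re| ≤ C}.Finite := by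
  obtain ⟨N, hN⟩ := exists_nat_ge C
  let f : ℤ × ℤ × ℤ × ℤ → Mat := fun p => quat p.1 (p.2.1 * th) (p.2.2.1 * th) (p.2.2.2 * th)
  have hfin : (f '' ((Set.Icc (-(N : ℤ)) N) ×ˢ (Set.Icc (-(N : ℤ) - 3) (N + 3)) ×ˢ
      (Set.Icc (-(N : ℤ) - 3) (N + 3)) ×ˢ (Set.Icc (-(N : ℤ) - 3) (N + 3)))).Finite :=
    Set.Finite.image _ ((Set.finite_Icc _ _).prod ((Set.finite_Icc _ _).prod
      ((Set.finite_Icc _ _).prod (Set.finite_Icc _ _))))
  apply Set.Finite.of_finite_image (f := fun V : S => (V : Mat)) _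
    (Subtype.val_injective.injOn)
  apply hfin.subset
  rintro _ ⟨V, hV, rfl⟩
  obtain ⟨t, x, y, z, hVe, h⟩ := S_explicit V.2
  refine ⟨(t, x, y, z), ?_, hVe.symm⟩
  have hV' : |(V : Mat).trace.re| ≤ C := hV
  rw [hVe, quat_trace] at hV'
  have e : (2 * ((t : ℤ) : ℂ)).re = 2 * (t : ℝ) := by simp
  rw [e] at hV'
  have hb : |(t : ℝ)| ≤ N := by
    have h3 : |(2 : ℝ) * t| = 2 * |(t : ℝ)| := by rw [abs_mul]; norm_num
    rw [h3] at hV'
    have := abs_nonneg (t : ℝ)
    linarith
  have hb' : |t| ≤ N := by exact_mod_cast hb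
  have ht1 := (abs_le.mp hb').1
  have ht2 := (abs_le.mp hb').2
  have htsq : t ^ 2 ≤ N ^ 2 := by nlinarith
  have hsum : x ^ 2 + y ^ 2 + z ^ 2 ≤ (N + 3) ^ 2 := by nlinarith
  have hN0 : (0 : ℤ) ≤ N := Int.natCast_nonneg N
  have hbd : ∀ w : ℤ, w ^ 2 ≤ (N + 3) ^ 2 → w ∈ Set.Icc (-(N : ℤ) - 3) (N + 3) := by
    intro w hw
    have := abs_le_of_sq_le_sq hw (by linarith)
    exact ⟨by linarith [(abs_le.mp this).1], by linarith [(abs_le.mp this).2]⟩
  simp only [Set.mem_prod]
  refine ⟨⟨ht1, ht2⟩, hbd x ?_, hbd y ?_, hbd z ?_⟩ <;>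
    nlinarith [sq_nonneg x, sq_nonneg y, sq_nonneg z]

/-- the support of the sum defining `N0` is finite -/
lemma finite_support {y : Mat} (hy : y.det ≠ 0) :
    (Function.support fun V : S => ((chi y V - chi 1 V : ℝ) : ℂ) • (V : Mat)).Finite := by
  apply (finite_S_trace (3 * fsq y / ‖y.det‖)).subset
  intro V hV
  apply trace_bound_of_ne hy V.2
  intro h
  apply hV
  simp [h]

lemma continuousOn_T (V : Mat) : ContinuousOn (fun y => T y V) {y : Mat | y.det ≠ 0} := by
  unfold T
  refine ContinuousOn.smul (f := fun y : Mat => (‖y.det‖ : ℂ)⁻¹)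
    (g := fun y : Mat => y.adjugate * V * (y.adjugate)ᴴ) ?_ ?_
  · apply ContinuousOn.inv₀
    · exact (Complex.continuous_ofReal.comp (continuous_norm.comp
        (Continuous.matrix_det continuous_id))).continuousOn
    · intro y hy
      exact norm_det_ne hy
  · exact ((Continuous.matrix_adjugate continuous_id).mul continuous_const |>.mul
      (Continuous.matrix_conjTranspose (Continuous.matrix_adjugate continuous_id))).continuousOn

lemma continuousOn_chi (V : Mat) : ContinuousOn (fun y => chi y V) {y : Mat | y.det ≠ 0} := by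
  unfold chi
  exact (continuous_cl.comp Complex.continuous_re).comp_continuousOn
    ((Continuous.matrix_trace continuous_id).comp_continuousOn (continuousOn_T V))

lemma continuous_fsq : Continuous fsq := by
  unfold fsq
  fun_prop

lemma continuousOn_N0 : ContinuousOn N0 {y : Mat | y.det ≠ 0} := by
  rw [continuousOn_iff_continuous_domRestrict]
  have : Set.domRestrict {y : Mat | y.det ≠ 0} N0 = fun y : {y : Mat | y.det ≠ 0} =>
      ∑ᶠ V : S, ((chi y V - chi 1 V : ℝ) : ℂ) • (V : Mat) := rfl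
  rw [this]
  apply continuous_finsum
  · intro V
    refine Continuous.smul (f := fun y : {y : Mat | y.det ≠ 0} =>
      ((chi y V - chi 1 V : ℝ) : ℂ)) (g := fun _ => (V : Mat)) ?_ continuous_const
    apply Complex.continuous_ofReal.comp
    apply Continuous.sub _ continuous_const
    exact continuousOn_iff_continuous_domRestrict.mp (continuousOn_chi V)
  · intro y0
    have hcont : ContinuousOn (fun y : Mat => 3 * fsq y / ‖y.det‖) {y : Mat | y.det ≠ 0} := by
      apply ContinuousOn.div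
      · exact (continuous_const.mul continuous_fsq).continuousOn
      · exact (continuous_norm.comp (Continuous.matrix_det continuous_id)).continuousOn
      · intro y hy
        exact norm_ne_zero_iff.mpr hy
    have hc2 := continuousOn_iff_continuous_domRestrict.mp hcont
    set F : {y : Mat | y.det ≠ 0} → ℝ :=
      Set.domRestrict {y : Mat | y.det ≠ 0} (fun y : Mat => 3 * fsq y / ‖y.det‖) with hF
    refine ⟨F ⁻¹' (Set.Iio (F y0 + 1)), (isOpen_Iio.preimage hc2).mem_nhds (by simp), ?_⟩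
    apply (finite_S_trace (F y0 + 1)).subset
    rintro V ⟨y, hy1, hy2⟩
    have h1 := trace_bound_of_ne (y := y) y.2 V.2 (by
      intro h
      apply hy1
      simp [h])
    exact h1.trans (le_of_lt hy2)

/-- the cocycle identity -/
lemma N0_mul {g y : Mat} (hg : InG g) (hy : y.det ≠ 0) :
    N0 (g * y) = g * N0 y * gᴴ + N0 g := by
  have hgy : (g * y).det ≠ 0 := by rw [Matrix.det_mul, hg.2, one_mul]; exact hy
  have hg1 : g.det ≠ 0 := by rw [hg.2]; exact one_ne_zero
  have hs1 := finite_support hgy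
  have hs2 := finite_support hg1
  have hs3 := finite_support hy
  have hs4 : (Function.support fun V : S => ((chi (g * y) V - chi g V : ℝ) : ℂ) • (V : Mat)).Finite := by
    apply (hs1.union hs2).subset
    intro V hV
    by_contra hcon
    rw [Set.mem_union, not_or, Function.mem_support, Function.mem_support, not_not, not_not] at hcon
    apply hV
    have e : ((chi (g * y) V - chi g V : ℝ) : ℂ) • (V : Mat)
        = ((chi (g * y) V - chi 1 V : ℝ) : ℂ) • (V : Mat)
          - ((chi g V - chi 1 V : ℝ) : ℂ) • (V : Mat) := by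
      rw [← sub_smul]; push_cast; congr 1; ring
    show ((chi (g * y) V - chi g V : ℝ) : ℂ) • (V : Mat) = 0
    rw [e, hcon.1, hcon.2, sub_zero]
  have h1 : N0 (g * y) = (∑ᶠ V : S, ((chi (g * y) V - chi g V : ℝ) : ℂ) • (V : Mat)) + N0 g := by
    unfold N0
    rw [← finsum_add_distrib hs4 hs2]
    apply finsum_congr
    intro V
    rw [← add_smul]
    push_cast
    congr 1
    ring
  rw [h1]
  congr 1
  rw [← finsum_comp_equiv (permS hg)]
  have h2 : ∀ V : S, ((chi (g * y) (permS hg V : S) - chi g (permS hg V : S) : ℝ) : ℂ)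
      • ((permS hg V : S) : Mat) = g * (((chi y V - chi 1 V : ℝ) : ℂ) • (V : Mat)) * gᴴ := by
    intro V
    have e : ((permS hg V : S) : Mat) = g * V * gᴴ := rfl
    rw [e, chi_mul hg, chi_group hg, Matrix.mul_smul, Matrix.smul_mul]
  rw [finsum_congr h2]
  let f : Mat →+ Mat := (AddMonoidHom.mulRight gᴴ).comp (AddMonoidHom.mulLeft g)
  exact (AddMonoidHom.map_finsum f hs3).symm

lemma N0_smul {c : ℂ} (hc : c ≠ 0) (y : Mat) : N0 (c • y) = N0 y := by
  unfold N0
  apply finsum_congr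
  intro V
  rw [chi_smul hc]

/-- the value of `chi` at group elements is a sign -/
lemma chi_group_sign {g V : Mat} (hg : InG g) (hV : V ∈ S) :
    ∃ t : ℤ, t ≠ 0 ∧ (T g V).trace = 2 * (t : ℂ) ∧ chi g V = if 0 < t then 1 else -1 := by
  obtain ⟨t, ht, htr⟩ := S_trace (T_group_mem_S hg hV)
  refine ⟨t, ht, htr, ?_⟩
  unfold chi
  have : (T g V).trace.re = 2 * (t : ℝ) := by rw [htr]; simp
  rw [this, cl_int ht]

lemma chi_diff_int {g V : Mat} (hg : InG g) (hV : V ∈ S) :
    ∃ n : ℤ, chi g V - chi 1 V = n := by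
  obtain ⟨t, _, _, h1⟩ := chi_group_sign hg hV
  obtain ⟨t', _, _, h2⟩ := chi_group_sign InG_one hV
  rw [h1, h2]
  split_ifs
  · exact ⟨0, by norm_num⟩
  · exact ⟨2, by norm_num⟩
  · exact ⟨-2, by norm_num⟩
  · exact ⟨0, by norm_num⟩

/-- the cocycle is integral -/
lemma N0_mem_L0 {g : Mat} (hg : InG g) : N0 g ∈ L0 := by
  unfold N0
  apply finsum_induction (· ∈ L0) L0.zero_mem (fun x y hx hy => L0.add_mem hx hy)
  intro V
  obtain ⟨n, hn⟩ := chi_diff_int hg V.2
  rw [hn]
  have : (((n : ℝ) : ℂ)) • (V : Mat) = n • (V : Mat) := by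
    rw [← Int.cast_smul_eq_zsmul ℂ]; norm_num
  rw [this]
  exact L0.zsmul_mem V.2.1 n

lemma N0_one : N0 1 = 0 := by
  unfold N0
  simp

lemma trace_T_group {g : Mat} (hg : InG g) (V : Mat) :
    (T g V).trace = (V * ((g.adjugate)ᴴ * g.adjugate)).trace := by
  rw [T_group hg, Matrix.trace_mul_comm, ← Matrix.mul_assoc, Matrix.trace_mul_comm]

/-- a group element which changes no sign has trivial cocycle value -/
lemma N0_eq_zero {g : Mat} (h : ∀ V ∈ S, chi g V = chi 1 V) : N0 g = 0 := by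
  unfold N0
  rw [finsum_eq_zero_of_forall_eq_zero]
  intro V
  rw [h V V.2]
  simp

lemma N0_unitary {g : Mat} (hg : InG g) (h : (g.adjugate)ᴴ * g.adjugate = 1) : N0 g = 0 := by
  apply N0_eq_zero
  intro V _
  unfold chi
  rw [trace_T_group hg, h, mul_one, T_one]

/-- a sign change makes the cocycle value nonzero -/
lemma N0_ne_zero {g : Mat} (hg : InG g) {V : Mat} (hV : V ∈ S) (h : chi g V ≠ chi 1 V) :
    N0 g ≠ 0 := by
  intro h0
  have hg1 : g.det ≠ 0 := by rw [hg.2]; exact one_ne_zero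
  have hs := finite_support hg1
  let f : Mat →+ ℝ :=
    { toFun := fun M => M.trace.re
      map_zero' := by simp
      map_add' := by intro a b; simp [Matrix.trace_add] }
  have h1 : f (N0 g) = ∑ᶠ W : S, f (((chi g W - chi 1 W : ℝ) : ℂ) • (W : Mat)) :=
    AddMonoidHom.map_finsum f hs
  rw [h0, map_zero] at h1
  have hval : ∀ W : S, f (((chi g W - chi 1 W : ℝ) : ℂ) • (W : Mat)) ≤ 0 ∧
      (chi g W ≠ chi 1 W → f (((chi g W - chi 1 W : ℝ) : ℂ) • (W : Mat)) < 0) := by
    intro W
    obtain ⟨t, ht, htr, h2⟩ := chi_group_sign InG_one W.2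
    obtain ⟨t', ht', _, h3⟩ := chi_group_sign hg W.2
    rw [T_one] at htr
    have e : f (((chi g W - chi 1 W : ℝ) : ℂ) • (W : Mat)) = (chi g W - chi 1 W) * (2 * t) := by
      show (Matrix.trace (((chi g W - chi 1 W : ℝ) : ℂ) • (W : Mat))).re = _
      rw [Matrix.trace_smul, htr, smul_eq_mul, Complex.re_ofReal_mul]
      simp
    rw [e, h2, h3]
    by_cases c1 : 0 < t <;> by_cases c2 : 0 < t'
    · simp [c1, c2]
    · have : (0 : ℝ) < t := by exact_mod_cast c1
      simp only [c1, c2, if_true, if_false]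
      constructor
      · nlinarith
      · intro _; nlinarith
    · have h5 : t < 0 := by omega
      have : (t : ℝ) < 0 := by exact_mod_cast h5
      simp only [c1, c2, if_true, if_false]
      constructor
      · nlinarith
      · intro _; nlinarith
    · simp [c1, c2]
  have hsf : (Function.support fun W : S => f (((chi g W - chi 1 W : ℝ) : ℂ) • (W : Mat))).Finite := by
    apply hs.subset
    intro W hW h5
    apply hW
    show f (((chi g W - chi 1 W : ℝ) : ℂ) • (W : Mat)) = 0
    have h6 : ((chi g W - chi 1 W : ℝ) : ℂ) • (W : Mat) = 0 := h5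
    rw [h6, map_zero]
  rw [finsum_eq_sum _ hsf] at h1
  have hneg := (hval ⟨V, hV⟩).2 h
  have hmem : (⟨V, hV⟩ : S) ∈ hsf.toFinset := by
    rw [Set.Finite.mem_toFinset, Function.mem_support]
    exact hneg.ne
  have := Finset.sum_neg' (s := hsf.toFinset) (fun W _ => (hval W).1) ⟨⟨V, hV⟩, hmem, hneg⟩
  linarith

end MP6194
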