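import Mathlib

/-!
Basic definitions for the counterexample to MP_6194a9_an.

`Mat` is the algebra of complex `2 x 2` matrices.  All groups are written as predicates on matrices.
-/

open Matrix
open scoped Matrix.Norms.Elementwise

namespace MP6194

/-- complex two by two matrices -/
abbrev Mat := Matrix (Fin 2) (Fin 2) ℂ

/-- the square root of `-7` -/
noncomputable def th : ℂ := Complex.I * (Real.sqrt 7 : ℝ)

/-- the ring of numbers `a + b √-7` with `a`, `b` integers, as a predicate -/
def InR (z : ℂ) : Prop := ∃ a b : ℤ, z = a + b * th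

/-- quaternions over `ℂ` as matrices -/
noncomputable def quat (a b c d : ℂ) : Mat :=
  !![a + Complex.I * b, c + Complex.I * d; -c + Complex.I * d, a - Complex.I * b]

/-- the order: quaternions with all coordinates in `ℤ[√-7]` -/
def InO (M : Mat) : Prop :=
  ∃ a b c d : ℂ, InR a ∧ InR b ∧ InR c ∧ InR d ∧ M = quat a b c d

/-- the group of norm one elements of the order -/
def InG (g : Mat) : Prop := InO g ∧ g.det = 1

/-- hermitian elements of the order: a lattice in the hermitian matrices -/
def InL0 (V : Mat) : Prop := InO V ∧ Vᴴ = V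

/-- the lattice `L0 + i L0` in the space of all complex matrices -/
def InL (X : Mat) : Prop := ∃ A B : Mat, InL0 A ∧ InL0 B ∧ X = A + Complex.I • B

/-- Gaussian integers, as a predicate on complex numbers -/
def InZi (z : ℂ) : Prop := ∃ a b : ℤ, z = a + b * Complex.I

/-- the set of hermitian elements of the order of determinant `-3` -/
def S : Set Mat := {V | InL0 V ∧ V.det = -3}

/-- a hermitian matrix `V` read in the frame `y` -/
noncomputable def T (y V : Mat) : Mat :=
  ((‖y.det‖ : ℂ)⁻¹) • (y.adjugate * V * (y.adjugate)ᴴ)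

/-- the form attached to the matrix `V` : `Q V w = (J w) V (J w)*` with `J w = (-w 1, w 0)` -/
noncomputable def Q (V : Mat) (w : Fin 2 → ℂ) : ℂ :=
  V 0 0 * w 1 * star (w 1) - V 0 1 * w 1 * star (w 0)
    - V 1 0 * w 0 * star (w 1) + V 1 1 * w 0 * star (w 0)

/-- the clamp function onto `[-1,1]` -/
noncomputable def cl (x : ℝ) : ℝ := max (-1) (min x 1)

/-- clamped trace -/
noncomputable def chi (y V : Mat) : ℝ := cl ((T y V).trace.re)

/-- the basic equivariant map; `N0 g` for `g` in the group is also the cocycle -/
noncomputable def N0 (y : Mat) : Mat :=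
  ∑ᶠ V : S, ((chi y V - chi 1 V : ℝ) : ℂ) • (V : Mat)

/-- the diagonal matrix `diag (2, 1)` -/
noncomputable def a2 : Mat := !![2, 0; 0, 1]

end MP6194
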