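import Pool.Agent.MP_6194a9_an.Cocycle

/-!
Explicit elements of the group, and the cocycle is not a coboundary.
-/

open Matrix
open scoped Matrix.Norms.Elementwise

namespace MP6194

/-- trace of a group transform in coordinates -/
lemma trace_T_quat {a b c d : ℂ} (hg : InG (quat a b c d)) {p0 p1 p2 p3 : ℤ}
    (hP : (quat a b c d).adjugateᴴ * (quat a b c d).adjugate
      = quat p0 (p1 * th) (p2 * th) (p3 * th)) (t x y z : ℤ) :
    (T (quat a b c d) (quat t (x * th) (y * th) (z * th))).trace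
      = 2 * ((t * p0 + 7 * (x * p1 + y * p2 + z * p3) : ℤ) : ℂ) := by
  rw [trace_T_group hg, hP, quat_mul, quat_trace]
  push_cast
  linear_combination (-2 * ((x : ℂ) * p1 + y * p2 + z * p3)) * th_mul_th

/-- the quaternion unit `i` -/
noncomputable def gI : Mat := quat 0 1 0 0

/-- the quaternion unit `j` -/
noncomputable def gJ : Mat := quat 0 0 1 0

lemma quat_one : quat 1 0 0 0 = 1 := by
  ext i j
  fin_cases i <;> fin_cases j <;> simp [quat]

lemma inR_int (n : ℤ) : InR n := ⟨n, 0, by simp⟩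

lemma inR_zero : InR 0 := ⟨0, 0, by simp⟩

lemma inR_one : InR 1 := ⟨1, 0, by simp⟩

lemma gI_mem : InG gI := by
  refine ⟨⟨_, _, _, _, inR_zero, inR_one, inR_zero, inR_zero, rfl⟩, ?_⟩
  unfold gI
  rw [quat_det]; norm_num

lemma gJ_mem : InG gJ := by
  refine ⟨⟨_, _, _, _, inR_zero, inR_zero, inR_one, inR_zero, rfl⟩, ?_⟩
  unfold gJ
  rw [quat_det]; norm_num

lemma N0_gI : N0 gI = 0 := by
  apply N0_unitary gI_mem
  unfold gI
  rw [quat_adj, quat_conjTranspose, quat_mul, ← quat_one]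
  simp

lemma N0_gJ : N0 gJ = 0 := by
  apply N0_unitary gJ_mem
  unfold gJ
  rw [quat_adj, quat_conjTranspose, quat_mul, ← quat_one]
  simp

/-- the group element `θ + 2 i + 2 j` -/
noncomputable def g1 : Mat := quat th 2 2 0

lemma inR_two : InR 2 := ⟨2, 0, by simp⟩

lemma g1_mem : InG g1 := by
  refine ⟨⟨_, _, _, _, th_mem, inR_two, inR_two, inR_zero, rfl⟩, ?_⟩
  unfold g1
  rw [quat_det]
  linear_combination th_mul_th

lemma g1_P : (quat th 2 2 0).adjugateᴴ * (quat th 2 2 0).adjugate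
      = quat (15 : ℤ) ((4 : ℤ) * th) ((4 : ℤ) * th) ((0 : ℤ) * th) := by
  rw [quat_adj, quat_conjTranspose, quat_mul]
  have h := th_mul_th
  have h2 : star (2 : ℂ) = 2 := by simp
  simp only [star_th, star_neg, h2, star_zero]
  congr 1
  · push_cast; linear_combination -h
  · push_cast; ring
  · push_cast; ring
  · push_cast; ring

lemma no_sign_change (t x y z : ℤ) (h : t ^ 2 - 7 * (x ^ 2 + y ^ 2 + z ^ 2) = -3)
    (ht : 0 < t) : 0 < t * 15 + 7 * (x * 4 + y * 4 + z * 0) := by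
  by_contra hcon
  push Not at hcon
  set n : ℤ := -(x + y) with hn
  have h1 : 15 * t ≤ 28 * n := by rw [hn]; linarith
  have h2 : 7 * n ^ 2 ≤ 2 * (t ^ 2 + 3) := by
    rw [hn]; nlinarith [sq_nonneg (x - y), sq_nonneg z]
  have hn0 : 0 < n := by nlinarith
  have h3 : t ≤ 25 := by
    by_contra h4
    push Not at h4
    nlinarith
  set w : ℤ := x ^ 2 + y ^ 2 + z ^ 2 with hw
  interval_cases t
  all_goals first
    | omega
    | (exfalso
       have h5 : n ≤ 26 := by nlinarith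
       clear_value n w
       interval_cases n <;> omega)

lemma N0_g1 : N0 g1 = 0 := by
  apply N0_eq_zero
  intro V hV
  have key : ∀ t x y z : ℤ, t ^ 2 - 7 * (x ^ 2 + y ^ 2 + z ^ 2) = -3 → 0 < t →
      chi g1 (quat t (x * th) (y * th) (z * th)) = chi 1 (quat t (x * th) (y * th) (z * th)) := by
    intro t x y z h ht
    unfold chi g1
    rw [trace_T_quat g1_mem g1_P, T_one, quat_trace]
    have hpos := no_sign_change t x y z h ht
    rw [show (2 * (((t * 15 + 7 * (x * 4 + y * 4 + z * 0) : ℤ)) : ℂ)).re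
      = 2 * ((t * 15 + 7 * (x * 4 + y * 4 + z * 0) : ℤ) : ℝ) by simp,
      show (2 * ((t : ℤ) : ℂ)).re = 2 * (t : ℝ) by simp, cl_int hpos.ne', cl_int ht.ne',
      if_pos hpos, if_pos ht]
  obtain ⟨t, x, y, z, rfl, h⟩ := S_explicit hV
  have ht : t ≠ 0 := by rintro rfl; omega
  rcases lt_or_gt_of_ne ht with hneg | hpos
  · have h2 : quat (t : ℂ) (x * th) (y * th) (z * th)
        = -quat ((-t : ℤ) : ℂ) ((-x : ℤ) * th) ((-y : ℤ) * th) ((-z : ℤ) * th) := by
      rw [quat_neg]; congr 1 <;> push_cast <;> ring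
    rw [h2, chi_neg, chi_neg, key (-t) (-x) (-y) (-z) (by nlinarith) (by linarith)]
  · exact key t x y z h hpos

/-- a group element with nontrivial cocycle value -/
noncomputable def g2 : Mat := quat (-3) (-2) (-1 - th) (-1 + th)

lemma g2_mem : InG g2 := by
  refine ⟨⟨_, _, _, _, ⟨-3, 0, by simp⟩, ⟨-2, 0, by simp⟩, ⟨-1, -1, by push_cast; ring⟩,
    ⟨-1, 1, by push_cast; ring⟩, rfl⟩, ?_⟩
  unfold g2
  rw [quat_det]
  linear_combination 2 * th_mul_th

lemma g2_P : (quat (-3) (-2) (-1 - th) (-1 + th)).adjugateᴴ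
      * (quat (-3) (-2) (-1 - th) (-1 + th)).adjugate
      = quat (29 : ℤ) ((4 : ℤ) * th) ((-10 : ℤ) * th) ((2 : ℤ) * th) := by
  rw [quat_adj, quat_conjTranspose, quat_mul]
  have h := th_mul_th
  have h1 : star (1 : ℂ) = 1 := by simp
  have h2 : star (2 : ℂ) = 2 := by simp
  have h3 : star (3 : ℂ) = 3 := by simp
  simp only [star_th, star_neg, star_add, star_sub, h1, h2, h3]
  congr 1
  · push_cast; linear_combination (-2 : ℂ) * h
  · push_cast; ring
  · push_cast; ring
  · push_cast; ring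

lemma N0_g2 : N0 g2 ≠ 0 := by
  apply N0_ne_zero g2_mem (V := quat ((2 : ℤ) : ℂ) ((0 : ℤ) * th) ((1 : ℤ) * th) ((0 : ℤ) * th))
    (quat_mem_S (by norm_num))
  unfold chi g2
  rw [trace_T_quat g2_mem g2_P, T_one, quat_trace]
  rw [show (2 * (((2 * 29 + 7 * (0 * 4 + 1 * (-10) + 0 * 2) : ℤ)) : ℂ)).re
      = 2 * (((2 * 29 + 7 * (0 * 4 + 1 * (-10) + 0 * 2) : ℤ)) : ℝ) by norm_num,
      show (2 * ((2 : ℤ) : ℂ)).re = 2 * ((2 : ℤ) : ℝ) by simp, cl_int (by norm_num),
      cl_int (by norm_num)]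
  norm_num

/-- the cocycle is not a coboundary -/
theorem not_coboundary (H : Mat) (h : ∀ g : Mat, InG g → H = g * H * gᴴ + N0 g) : False := by
  have hI := h gI gI_mem
  have hJ := h gJ gJ_mem
  have h1 := h g1 g1_mem
  have h2 := h g2 g2_mem
  rw [N0_gI, add_zero] at hI
  rw [N0_gJ, add_zero] at hJ
  rw [N0_g1, add_zero] at h1
  obtain ⟨a, b, c, d, hH⟩ : ∃ a b c d, H = quat a b c d := ⟨_, _, _, _, eq_quat H⟩
  rw [hH] at hI hJ h1 h2
  unfold gI at hI
  unfold gJ at hJ
  rw [quat_conjTranspose, quat_mul, quat_mul] at hI hJ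
  obtain ⟨-, -, i3, i4⟩ := quat_inj hI
  obtain ⟨-, j2, -, -⟩ := quat_inj hJ
  simp at i3 i4 j2
  have hc : c = 0 := by linear_combination i3 / 2
  have hd : d = 0 := by linear_combination i4 / 2
  have hb : b = 0 := by linear_combination j2 / 2
  subst hc hd hb
  unfold g1 at h1
  rw [quat_conjTranspose, quat_mul, quat_mul] at h1
  obtain ⟨k1, -, -, -⟩ := quat_inj h1
  have hs2 : star (2 : ℂ) = 2 := by simp
  simp only [star_th, hs2, star_zero] at k1
  have ha : a = 0 := by linear_combination (-1 / 14 : ℂ) * k1 + a / 14 * th_mul_th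
  subst ha
  have h0 : quat 0 0 0 0 = 0 := by
    ext i j
    fin_cases i <;> fin_cases j <;> simp [quat]
  rw [h0] at h2
  simp at h2
  exact N0_g2 h2.symm

end MP6194
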