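import Pool.Agent.MP_6194a9_an.Alg

/-!
The frame transformation `T` and the equivariant map `N0`.
-/

open Matrix
open scoped Matrix.Norms.Elementwise

namespace MP6194

lemma adj00 (y : Mat) : y.adjugate 0 0 = y 1 1 := by rw [Matrix.adjugate_fin_two]; simp
lemma adj01 (y : Mat) : y.adjugate 0 1 = -y 0 1 := by rw [Matrix.adjugate_fin_two]; simp
lemma adj10 (y : Mat) : y.adjugate 1 0 = -y 1 0 := by rw [Matrix.adjugate_fin_two]; simp
lemma adj11 (y : Mat) : y.adjugate 1 1 = y 0 0 := by rw [Matrix.adjugate_fin_two]; simp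

lemma T_add (y V W : Mat) : T y (V + W) = T y V + T y W := by
  unfold T; rw [Matrix.mul_add, Matrix.add_mul, smul_add]

lemma T_sub (y V W : Mat) : T y (V - W) = T y V - T y W := by
  unfold T; rw [Matrix.mul_sub, Matrix.sub_mul, smul_sub]

lemma T_smul (y V : Mat) (c : ℂ) : T y (c • V) = c • T y V := by
  unfold T; rw [Matrix.mul_smul, Matrix.smul_mul, smul_comm]

lemma T_neg (y V : Mat) : T y (-V) = -T y V := by
  unfold T; rw [Matrix.mul_neg, Matrix.neg_mul, smul_neg]

lemma T_zero (y : Mat) : T y 0 = 0 := by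
  unfold T; rw [Matrix.mul_zero, Matrix.zero_mul, smul_zero]

lemma adj_mul (y h : Mat) : (y * h).adjugate = h.adjugate * y.adjugate :=
  Matrix.adjugate_mul_distrib y h

lemma T_mul (y h V : Mat) : T (y * h) V = T h (T y V) := by
  unfold T
  rw [adj_mul, Matrix.det_mul, norm_mul, Matrix.conjTranspose_mul, Matrix.mul_smul,
    Matrix.smul_mul, smul_smul, Complex.ofReal_mul, mul_inv]
  congr 1
  · ring
  · simp only [Matrix.mul_assoc]

lemma T_one (V : Mat) : T 1 V = V := by
  unfold T; simp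

lemma T_group {g : Mat} (hg : InG g) (V : Mat) : T g V = g.adjugate * V * (g.adjugate)ᴴ := by
  unfold T; rw [hg.2]; simp

lemma T_group_conj {g : Mat} (hg : InG g) (V : Mat) : T g (g * V * gᴴ) = V := by
  rw [T_group hg]
  calc g.adjugate * (g * V * gᴴ) * (g.adjugate)ᴴ
      = (g.adjugate * g) * V * (gᴴ * (g.adjugate)ᴴ) := by simp only [Matrix.mul_assoc]
    _ = V := by rw [hg.adj_mul, hg.conjTranspose_mul]; simp

lemma conj_T_group {g : Mat} (hg : InG g) (V : Mat) : g * (T g V) * gᴴ = V := by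
  rw [T_group hg]
  calc g * (g.adjugate * V * (g.adjugate)ᴴ) * gᴴ
      = (g * g.adjugate) * V * ((g.adjugate)ᴴ * gᴴ) := by simp only [Matrix.mul_assoc]
    _ = V := by rw [hg.mul_adj, hg.conjTranspose_mul']; simp

lemma T_group_mul {g : Mat} (hg : InG g) (y V : Mat) : T (g * y) (g * V * gᴴ) = T y V := by
  rw [T_mul, T_group_conj hg]

lemma adj_smul (c : ℂ) (y : Mat) : (c • y).adjugate = c • y.adjugate := by
  rw [Matrix.adjugate_fin_two, Matrix.adjugate_fin_two]
  ext i j
  fin_cases i <;> fin_cases j <;> simp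

lemma det_smul2 (c : ℂ) (y : Mat) : (c • y).det = c ^ 2 * y.det := by
  rw [Matrix.det_smul]; simp

lemma T_smul_left {c : ℂ} (hc : c ≠ 0) (y V : Mat) : T (c • y) V = T y V := by
  unfold T
  rw [adj_smul, det_smul2, Matrix.conjTranspose_smul, Matrix.smul_mul, Matrix.smul_mul,
    Matrix.mul_smul, smul_smul, smul_smul, norm_mul, norm_pow]
  congr 1
  have h1 : c * star c = ((‖c‖ : ℂ)) ^ 2 := by
    have := Complex.mul_conj' c
    simpa using this
  have h2 : (‖c‖ : ℂ) ≠ 0 := by
    exact_mod_cast norm_ne_zero_iff.mpr hc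
  push_cast
  rw [mul_inv]
  calc ((‖c‖ : ℂ) ^ 2)⁻¹ * (‖y.det‖ : ℂ)⁻¹ * c * star c
      = ((‖c‖ : ℂ) ^ 2)⁻¹ * (‖y.det‖ : ℂ)⁻¹ * ((‖c‖ : ℂ) ^ 2) := by rw [← h1]; ring
    _ = (‖y.det‖ : ℂ)⁻¹ := by field_simp

lemma norm_det_ne {y : Mat} (hy : y.det ≠ 0) : (‖y.det‖ : ℂ) ≠ 0 := by
  exact_mod_cast norm_ne_zero_iff.mpr hy

lemma det_star_mul (y : Mat) : y.det * star y.det = (‖y.det‖ : ℂ) ^ 2 := by
  have := Complex.mul_conj' y.det
  simpa using this

/-- recover a matrix from its expression in the frame -/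
lemma conj_T {y : Mat} (hy : y.det ≠ 0) (V : Mat) : y * T y V * yᴴ = (‖y.det‖ : ℂ) • V := by
  unfold T
  rw [Matrix.mul_smul, Matrix.smul_mul]
  have : y * (y.adjugate * V * (y.adjugate)ᴴ) * yᴴ
      = (y * y.adjugate) * V * (y * y.adjugate)ᴴ := by
    rw [Matrix.conjTranspose_mul]; simp only [Matrix.mul_assoc]
  rw [this, Matrix.mul_adjugate, Matrix.conjTranspose_smul, Matrix.conjTranspose_one,
    Matrix.smul_mul, Matrix.one_mul, Matrix.smul_mul, Matrix.mul_smul, Matrix.mul_one, smul_smul,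
    smul_smul, mul_assoc, det_star_mul]
  congr 1
  have := norm_det_ne hy
  field_simp

/-- the inverse transformation -/
lemma T_conj {y : Mat} (hy : y.det ≠ 0) (U : Mat) :
    T y ((‖y.det‖ : ℂ)⁻¹ • (y * U * yᴴ)) = U := by
  unfold T
  rw [Matrix.mul_smul, Matrix.smul_mul, smul_smul]
  have : y.adjugate * (y * U * yᴴ) * (y.adjugate)ᴴ
      = (y.adjugate * y) * U * (y.adjugate * y)ᴴ := by
    rw [Matrix.conjTranspose_mul]; simp only [Matrix.mul_assoc]
  rw [this, Matrix.adjugate_mul, Matrix.conjTranspose_smul, Matrix.conjTranspose_one,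
    Matrix.smul_mul, Matrix.one_mul, Matrix.smul_mul, Matrix.mul_smul, Matrix.mul_one, smul_smul,
    smul_smul]
  have h2 := norm_det_ne hy
  have h3 : (‖y.det‖ : ℂ)⁻¹ * (‖y.det‖ : ℂ)⁻¹ * (y.det * star y.det) = 1 := by
    rw [det_star_mul]; field_simp
  rw [mul_assoc, h3, one_smul]

lemma T_injective {y : Mat} (hy : y.det ≠ 0) {V W : Mat} (h : T y V = T y W) : V = W := by
  have h1 := conj_T hy V
  rw [h, conj_T hy W] at h1
  exact (smul_right_injective _ (norm_det_ne hy) h1).symm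

lemma T_det {y : Mat} (hy : y.det ≠ 0) (V : Mat) : (T y V).det = V.det := by
  unfold T
  rw [det_smul2, Matrix.det_mul, Matrix.det_mul, Matrix.det_conjTranspose, Matrix.det_adjugate]
  have h2 := norm_det_ne hy
  have h3 := det_star_mul y
  simp only [Fintype.card_fin, Nat.add_one_sub_one, pow_one]
  field_simp
  linear_combination V.det * h3

lemma T_herm {y V : Mat} (hV : Vᴴ = V) : (T y V)ᴴ = T y V := by
  unfold T
  rw [Matrix.conjTranspose_smul, Matrix.conjTranspose_mul, Matrix.conjTranspose_mul,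
    Matrix.conjTranspose_conjTranspose, hV, Matrix.mul_assoc]
  congr 1
  simp [Complex.conj_ofReal]

lemma a2_adj : a2.adjugate = !![1, 0; 0, 2] := by
  rw [Matrix.adjugate_fin_two]
  simp [a2]

lemma a2_det : a2.det = 2 := by
  rw [Matrix.det_fin_two]; simp [a2]

lemma T_a2 (V : Mat) : T a2 V = !![V 0 0 / 2, V 0 1; V 1 0, 2 * V 1 1] := by
  unfold T
  rw [a2_adj, a2_det]
  ext i j
  fin_cases i <;> fin_cases j <;>
    simp only [Fin.zero_eta, Fin.mk_one, Matrix.smul_apply, Matrix.mul_apply, Fin.sum_univ_two,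
      Matrix.conjTranspose_apply] <;> simp <;> ring

/-- first column of a matrix -/
def col0 (y : Mat) : Fin 2 → ℂ := fun i => y i 0

/-- second column of a matrix -/
def col1 (y : Mat) : Fin 2 → ℂ := fun i => y i 1

lemma T_11 (y V : Mat) : T y V 1 1 = (‖y.det‖ : ℂ)⁻¹ * Q V (col0 y) := by
  unfold T Q col0
  simp only [Matrix.smul_apply, Matrix.mul_apply, Fin.sum_univ_two,
    Matrix.conjTranspose_apply, adj00, adj01, adj10, adj11, smul_eq_mul, star_neg]
  ring

lemma T_00 (y V : Mat) : T y V 0 0 = (‖y.det‖ : ℂ)⁻¹ * Q V (col1 y) := by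
  unfold T Q col1
  simp only [Matrix.smul_apply, Matrix.mul_apply, Fin.sum_univ_two,
    Matrix.conjTranspose_apply, adj00, adj01, adj10, adj11, smul_eq_mul, star_neg]
  ring

lemma Q_smul (V : Mat) (c : ℂ) (w : Fin 2 → ℂ) : Q V (c • w) = (‖c‖ : ℂ) ^ 2 * Q V w := by
  have h1 : c * star c = ((‖c‖ : ℂ)) ^ 2 := by
    have := Complex.mul_conj' c
    simpa using this
  unfold Q
  simp only [Pi.smul_apply, smul_eq_mul, star_mul']
  linear_combination (V 0 0 * w 1 * star (w 1) - V 0 1 * w 1 * star (w 0)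
    - V 1 0 * w 0 * star (w 1) + V 1 1 * w 0 * star (w 0)) * h1

lemma Q_add_left (V W : Mat) (w : Fin 2 → ℂ) : Q (V + W) w = Q V w + Q W w := by
  unfold Q; simp only [Matrix.add_apply]; ring

lemma Q_sub_left (V W : Mat) (w : Fin 2 → ℂ) : Q (V - W) w = Q V w - Q W w := by
  unfold Q; simp only [Matrix.sub_apply]; ring

lemma Q_smul_left (V : Mat) (c : ℂ) (w : Fin 2 → ℂ) : Q (c • V) w = c * Q V w := by
  unfold Q; simp only [Matrix.smul_apply, smul_eq_mul]; ring

/-- transport of the form by a matrix -/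
lemma Q_mulVec (V A : Mat) (w : Fin 2 → ℂ) :
    Q V (A *ᵥ w) = Q (A.adjugate * V * (A.adjugate)ᴴ) w := by
  unfold Q
  simp only [Matrix.mul_apply, Fin.sum_univ_two, Matrix.mulVec, dotProduct,
    Matrix.conjTranspose_apply, adj00, adj01, adj10, adj11, star_neg, star_add, star_mul']
  ring

/-- a matrix is determined by its form -/
lemma Q_ext {V W : Mat} (h : ∀ w : Fin 2 → ℂ, w ≠ 0 → Q V w = Q W w) : V = W := by
  have h10 := h ![1, 0] (by intro h0; have := congrFun h0 0; simp at this)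
  have h01 := h ![0, 1] (by intro h0; have := congrFun h0 1; simp at this)
  have h11 := h ![1, 1] (by intro h0; have := congrFun h0 1; simp at this)
  have h1i := h ![1, Complex.I] (by intro h0; have := congrFun h0 0; simp at this)
  simp [Q] at h10 h01 h11 h1i
  have hI := Complex.I_mul_I
  have e2 : V 1 1 = W 1 1 := h10
  have e1 : V 0 0 = W 0 0 := h01
  have e3 : V 0 1 + V 1 0 = W 0 1 + W 1 0 := by linear_combination e1 + e2 - h11
  have e4 : Complex.I * (V 1 0 - V 0 1) = Complex.I * (W 1 0 - W 0 1) := by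
    linear_combination h1i - e2 + (V 0 0 - W 0 0) * hI - e1
  have e5 : V 1 0 - V 0 1 = W 1 0 - W 0 1 := mul_left_cancel₀ Complex.I_ne_zero e4
  ext i j
  fin_cases i <;> fin_cases j <;> simp
  · exact e1
  · linear_combination (e3 - e5) / 2
  · linear_combination (e3 + e5) / 2
  · exact e2

end MP6194
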