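import Pool.Agent.MP_6194a9_an.Space

/-!
The equivariant frame and the dynamics read in the frame.
-/

open Matrix Filter Topology
open scoped Matrix.Norms.Elementwise

namespace MP6194

/-- the frame at a point of the total space -/
noncomputable def Lp (p : Mod) : Mod →L[ℂ] Mod :=
  LinearMap.toContinuousLinearMap
    { toFun := fun v => mk ((pY p).det⁻¹ • ((pY p).adjugate * pY v))
        (T (pY p) (pX v - pS v • Nm (pY p))) (pS v)
      map_add' := by
        intro v w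
        rw [mk_add]
        congr 1
        · rw [map_add, Matrix.mul_add, smul_add]
        · rw [← T_add, map_add, map_add, add_smul]
          congr 1
          congr 1
          abel
      map_smul' := by
        intro c v
        rw [RingHom.id_apply, mk_smul]
        congr 1
        · rw [map_smul, Matrix.mul_smul, smul_comm]
        · rw [← T_smul, map_smul, map_smul, smul_sub, smul_smul, smul_eq_mul] }

lemma Lp_apply (p v : Mod) : Lp p v = mk ((pY p).det⁻¹ • ((pY p).adjugate * pY v))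
        (T (pY p) (pX v - pS v • Nm (pY p))) (pS v) := rfl

/-- the inverse of the frame -/
noncomputable def Lq (p : Mod) : Mod →L[ℂ] Mod :=
  LinearMap.toContinuousLinearMap
    { toFun := fun w => mk (pY p * pY w)
        ((‖(pY p).det‖ : ℂ)⁻¹ • (pY p * pX w * (pY p)ᴴ) + pS w • Nm (pY p)) (pS w)
      map_add' := by
        intro v w
        rw [mk_add]
        congr 1
        · rw [map_add, Matrix.mul_add]
        · rw [map_add, map_add, Matrix.mul_add, Matrix.add_mul, smul_add, add_smul]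
          abel_nf
      map_smul' := by
        intro c v
        rw [RingHom.id_apply, mk_smul]
        congr 1
        · rw [map_smul, Matrix.mul_smul]
        · rw [map_smul, map_smul, Matrix.mul_smul, Matrix.smul_mul, smul_add, smul_smul,
            smul_smul, smul_smul, smul_eq_mul, mul_comm c (‖(pY p).det‖ : ℂ)⁻¹] }

lemma Lq_apply (p w : Mod) : Lq p w = mk (pY p * pY w)
        ((‖(pY p).det‖ : ℂ)⁻¹ • (pY p * pX w * (pY p)ᴴ) + pS w • Nm (pY p)) (pS w) := rfl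

lemma Lp_Lq {p : Mod} (hp : p ∈ U) (w : Mod) : Lp p (Lq p w) = w := by
  have hy : (pY p).det ≠ 0 := hp
  rw [Lp_apply, Lq_apply]
  apply mod_ext
  · simp only [pY_mk]
    rw [← Matrix.mul_assoc, Matrix.adjugate_mul, Matrix.smul_mul, Matrix.one_mul, smul_smul,
      inv_mul_cancel₀ hy, one_smul]
  · simp only [pX_mk, pS_mk]
    rw [add_sub_cancel_right, T_conj hy]
  · simp only [pS_mk]

lemma Lq_Lp {p : Mod} (hp : p ∈ U) (v : Mod) : Lq p (Lp p v) = v := by
  have hy : (pY p).det ≠ 0 := hp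
  rw [Lq_apply, Lp_apply]
  apply mod_ext
  · simp only [pY_mk]
    rw [Matrix.mul_smul, ← Matrix.mul_assoc, Matrix.mul_adjugate, Matrix.smul_mul,
      Matrix.one_mul, smul_smul, inv_mul_cancel₀ hy, one_smul]
  · simp only [pX_mk, pS_mk]
    rw [conj_T hy, smul_smul, inv_mul_cancel₀ (norm_det_ne hy), one_smul, sub_add_cancel]
  · simp only [pS_mk]

/-- equivariance of the frame -/
lemma Lp_act {k : ℤ} {g l : Mat} {m : ℂ} (hg : InG g) {p : Mod} (hp : p ∈ U) (v : Mod) :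
    Lp (act k g l m p) (actL k g v) = Lp p v := by
  have hy : (pY p).det ≠ 0 := hp
  have h2 := two_zpow_ne k
  rw [Lp_apply, Lp_apply, actL_apply, pY_act]
  apply mod_ext
  · simp only [pY_mk]
    rw [det_smul2, Matrix.det_mul, hg.2, one_mul, adj_smul, adj_mul, Matrix.smul_mul,
      Matrix.mul_smul, smul_smul, smul_smul]
    have e : (pY p).adjugate * g.adjugate * (g * pY v) = (pY p).adjugate * pY v := by
      calc (pY p).adjugate * g.adjugate * (g * pY v)
          = (pY p).adjugate * (g.adjugate * g) * pY v := by simp only [Matrix.mul_assoc]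
        _ = (pY p).adjugate * pY v := by rw [hg.adj_mul, Matrix.mul_one]
    rw [e]
    congr 1
    field_simp
  · simp only [pX_mk, pS_mk]
    rw [Nm_act k hg hp]
    have e : g * pX v * gᴴ + pS v • N0 g - pS v • (g * Nm (pY p) * gᴴ + N0 g)
        = g * (pX v - pS v • Nm (pY p)) * gᴴ := by
      rw [Matrix.mul_sub, Matrix.sub_mul, Matrix.mul_smul, Matrix.smul_mul, smul_add]
      abel
    rw [e, T_act _ _ k hg]
  · simp only [pS_mk]

lemma Lq_act {k : ℤ} {g l : Mat} {m : ℂ} (hg : InG g) {p : Mod} (hp : p ∈ U) (w : Mod) :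
    Lq (act k g l m p) w = actL k g (Lq p w) := by
  have h1 := Lp_act (k := k) (l := l) (m := m) hg hp (Lq p w)
  rw [Lp_Lq hp] at h1
  conv_lhs => rw [← h1]
  rw [Lq_Lp (act_mem hg hp)]

lemma continuous_mk : Continuous fun q : Mat × Mat × ℂ => mk q.1 q.2.1 q.2.2 := continuous_id

/-- joint continuity of the inverse frame -/
lemma continuousOn_Lq : ContinuousOn (fun q : Mod × Mod => Lq q.1 q.2) ((U : Set Mod) ×ˢ Set.univ) := by
  have hY1 : Continuous fun q : Mod × Mod => pY q.1 := pY.continuous.comp continuous_fst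
  have hY2 : Continuous fun q : Mod × Mod => pY q.2 := pY.continuous.comp continuous_snd
  have hX2 : Continuous fun q : Mod × Mod => pX q.2 := pX.continuous.comp continuous_snd
  have hS2 : Continuous fun q : Mod × Mod => pS q.2 := pS.continuous.comp continuous_snd
  have hN : ContinuousOn (fun q : Mod × Mod => Nm (pY q.1)) ((U : Set Mod) ×ˢ Set.univ) :=
    continuousOn_Nm.comp hY1.continuousOn (fun q hq => hq.1)
  have h1 : ContinuousOn (fun q : Mod × Mod => pY q.1 * pY q.2) ((U : Set Mod) ×ˢ Set.univ) :=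
    (hY1.mul hY2).continuousOn
  have hinv : ContinuousOn (fun q : Mod × Mod => (‖(pY q.1).det‖ : ℂ)⁻¹)
      ((U : Set Mod) ×ˢ Set.univ) := by
    apply ContinuousOn.inv₀
    · exact (Complex.continuous_ofReal.comp (continuous_norm.comp
        (Continuous.matrix_det hY1))).continuousOn
    · intro q hq
      exact norm_det_ne hq.1
  have h2 : ContinuousOn (fun q : Mod × Mod =>
      (‖(pY q.1).det‖ : ℂ)⁻¹ • (pY q.1 * pX q.2 * (pY q.1)ᴴ) + pS q.2 • Nm (pY q.1))
      ((U : Set Mod) ×ˢ Set.univ) := by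
    refine ContinuousOn.add (f := fun q : Mod × Mod =>
      (‖(pY q.1).det‖ : ℂ)⁻¹ • (pY q.1 * pX q.2 * (pY q.1)ᴴ))
      (g := fun q : Mod × Mod => pS q.2 • Nm (pY q.1)) ?_ ?_
    · exact ContinuousOn.smul (f := fun q : Mod × Mod => (‖(pY q.1).det‖ : ℂ)⁻¹)
        (g := fun q : Mod × Mod => pY q.1 * pX q.2 * (pY q.1)ᴴ) hinv
        ((hY1.mul hX2).mul (Continuous.matrix_conjTranspose hY1)).continuousOn
    · exact ContinuousOn.smul (f := fun q : Mod × Mod => pS q.2)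
        (g := fun q : Mod × Mod => Nm (pY q.1)) hS2.continuousOn hN
  exact continuous_mk.comp_continuousOn (h1.prodMk (h2.prodMk hS2.continuousOn))

/-- the inverse of `diag (2, 1)` -/
noncomputable def a2i : Mat := !![1 / 2, 0; 0, 1]

lemma a2_mul_a2i : a2 * a2i = 1 := by
  ext i j
  fin_cases i <;> fin_cases j <;> simp [a2, a2i]

lemma a2i_mul_a2 : a2i * a2 = 1 := by
  ext i j
  fin_cases i <;> fin_cases j <;> simp [a2, a2i]

/-- the map upstairs -/
noncomputable def ft : Mod →L[ℂ] Mod :=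
  LinearMap.toContinuousLinearMap
    { toFun := fun v => mk (pY v * a2) (pX v) (pS v)
      map_add' := by
        intro v w
        rw [mk_add]
        congr 1
        rw [map_add, Matrix.add_mul]
      map_smul' := by
        intro c v
        rw [RingHom.id_apply, mk_smul]
        congr 1
        rw [map_smul, Matrix.smul_mul] }

lemma ft_apply (v : Mod) : ft v = mk (pY v * a2) (pX v) (pS v) := rfl

/-- the inverse map upstairs -/
noncomputable def fti : Mod →L[ℂ] Mod :=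
  LinearMap.toContinuousLinearMap
    { toFun := fun v => mk (pY v * a2i) (pX v) (pS v)
      map_add' := by
        intro v w
        rw [mk_add]
        congr 1
        rw [map_add, Matrix.add_mul]
      map_smul' := by
        intro c v
        rw [RingHom.id_apply, mk_smul]
        congr 1
        rw [map_smul, Matrix.smul_mul] }

lemma fti_apply (v : Mod) : fti v = mk (pY v * a2i) (pX v) (pS v) := rfl

lemma fti_ft (v : Mod) : fti (ft v) = v := by
  rw [ft_apply, fti_apply]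
  apply mod_ext
  · simp only [pY_mk]; rw [Matrix.mul_assoc, a2_mul_a2i, Matrix.mul_one]
  · simp only [pX_mk]
  · simp only [pS_mk]

lemma ft_fti (v : Mod) : ft (fti v) = v := by
  rw [ft_apply, fti_apply]
  apply mod_ext
  · simp only [pY_mk]; rw [Matrix.mul_assoc, a2i_mul_a2, Matrix.mul_one]
  · simp only [pX_mk]
  · simp only [pS_mk]

lemma a2i_det : a2i.det = 1 / 2 := by
  rw [Matrix.det_fin_two]; simp [a2i]

lemma ft_mem {p : Mod} (hp : p ∈ U) : ft p ∈ U := by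
  rw [mem_U, ft_apply, pY_mk]
  exact mul_mem_GInv hp a2_mem

lemma fti_mem {p : Mod} (hp : p ∈ U) : fti p ∈ U := by
  rw [mem_U, fti_apply, pY_mk]
  apply mul_mem_GInv hp
  show a2i.det ≠ 0
  rw [a2i_det]; norm_num

lemma ft_act {k : ℤ} {g l : Mat} {m : ℂ} (p : Mod) :
    ft (act k g l m p) = act k g l m (ft p) := by
  apply mod_ext
  · rw [ft_apply, pY_mk, pY_act, pY_act, ft_apply, pY_mk, Matrix.smul_mul, Matrix.mul_assoc]
  · rw [ft_apply, pX_mk, pX_act, pX_act, ft_apply, pX_mk, pS_mk]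
  · rw [ft_apply, pS_mk, pS_act, pS_act, ft_apply, pS_mk]

lemma fti_act {k : ℤ} {g l : Mat} {m : ℂ} (p : Mod) :
    fti (act k g l m p) = act k g l m (fti p) := by
  apply mod_ext
  · rw [fti_apply, pY_mk, pY_act, pY_act, fti_apply, pY_mk, Matrix.smul_mul, Matrix.mul_assoc]
  · rw [fti_apply, pX_mk, pX_act, pX_act, fti_apply, pX_mk, pS_mk]
  · rw [fti_apply, pS_mk, pS_act, pS_act, fti_apply, pS_mk]

/-- the dynamics in the frame -/
lemma Lp_ft {p : Mod} (hp : p ∈ U) (v : Mod) :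
    Lp (ft p) (ft v) = mk (a2i * pY (Lp p v) * a2)
      (T a2 (pX (Lp p v)) + pS (Lp p v) • T a2 (bt (pY p))) (pS (Lp p v)) := by
  have hy : (pY p).det ≠ 0 := hp
  rw [Lp_apply, Lp_apply, ft_apply, ft_apply]
  apply mod_ext
  · simp only [pY_mk]
    rw [Matrix.det_mul, a2_det, adj_mul, a2_adj]
    have e : (!![1, 0; 0, 2] : Mat) = (2 : ℂ) • a2i := by
      ext i j
      fin_cases i <;> fin_cases j <;> simp [a2i]
    rw [e, Matrix.smul_mul, Matrix.smul_mul, smul_smul, Matrix.mul_smul, Matrix.smul_mul]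
    simp only [Matrix.mul_assoc]
    congr 1
    field_simp
  · simp only [pX_mk, pS_mk, pY_mk]
    unfold bt
    rw [T_mul, ← T_smul, ← T_smul, ← T_add, ← T_add]
    congr 2
    rw [smul_sub]
    abel
  · simp only [pS_mk]

/-- the constant subspaces -/
noncomputable def Cu : Submodule ℝ Mod where
  carrier := {w | pY w 0 0 = 0 ∧ pY w 0 1 = 0 ∧ pY w 1 1 = 0 ∧
    pX w 0 0 = 0 ∧ pX w 0 1 = 0 ∧ pX w 1 0 = 0 ∧ pS w = 0}
  add_mem' := by
    rintro v w ⟨a1, a2, a3, a4, a5, a6, a7⟩ ⟨b1, b2, b3, b4, b5, b6, b7⟩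
    simp only [Set.mem_ofPred_eq, map_add, Matrix.add_apply, a1, a2, a3, a4, a5, a6, a7, b1, b2,
      b3, b4, b5, b6, b7, add_zero, and_self]
  zero_mem' := by simp
  smul_mem' := by
    rintro c w ⟨b1, b2, b3, b4, b5, b6, b7⟩
    have h : c • w = (c : ℂ) • w := (Complex.coe_smul c w).symm
    simp only [Set.mem_ofPred_eq, h, map_smul, Matrix.smul_apply, b1, b2,
      b3, b4, b5, b6, b7, smul_zero, and_self]

noncomputable def Cs : Submodule ℝ Mod where
  carrier := {w | pY w 0 0 = 0 ∧ pY w 1 0 = 0 ∧ pY w 1 1 = 0 ∧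
    pX w 1 1 = 0 ∧ pX w 0 1 = 0 ∧ pX w 1 0 = 0 ∧ pS w = 0}
  add_mem' := by
    rintro v w ⟨a1, a2, a3, a4, a5, a6, a7⟩ ⟨b1, b2, b3, b4, b5, b6, b7⟩
    simp only [Set.mem_ofPred_eq, map_add, Matrix.add_apply, a1, a2, a3, a4, a5, a6, a7, b1, b2,
      b3, b4, b5, b6, b7, add_zero, and_self]
  zero_mem' := by simp
  smul_mem' := by
    rintro c w ⟨b1, b2, b3, b4, b5, b6, b7⟩
    have h : c • w = (c : ℂ) • w := (Complex.coe_smul c w).symm
    simp only [Set.mem_ofPred_eq, h, map_smul, Matrix.smul_apply, b1, b2,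
      b3, b4, b5, b6, b7, smul_zero, and_self]

noncomputable def Cc : Submodule ℝ Mod where
  carrier := {w | pY w 0 1 = 0 ∧ pY w 1 0 = 0 ∧ pX w 0 0 = 0 ∧ pX w 1 1 = 0}
  add_mem' := by
    rintro v w ⟨a1, a2, a3, a4⟩ ⟨b1, b2, b3, b4⟩
    simp only [Set.mem_ofPred_eq, map_add, Matrix.add_apply, a1, a2, a3, a4, b1, b2,
      b3, b4, add_zero, and_self]
  zero_mem' := by simp
  smul_mem' := by
    rintro c w ⟨b1, b2, b3, b4⟩
    have h : c • w = (c : ℂ) • w := (Complex.coe_smul c w).symm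
    simp only [Set.mem_ofPred_eq, h, map_smul, Matrix.smul_apply, b1, b2,
      b3, b4, smul_zero, and_self]

lemma mem_Cu {w : Mod} : w ∈ Cu ↔ pY w 0 0 = 0 ∧ pY w 0 1 = 0 ∧ pY w 1 1 = 0 ∧
    pX w 0 0 = 0 ∧ pX w 0 1 = 0 ∧ pX w 1 0 = 0 ∧ pS w = 0 := Iff.rfl

lemma mem_Cs {w : Mod} : w ∈ Cs ↔ pY w 0 0 = 0 ∧ pY w 1 0 = 0 ∧ pY w 1 1 = 0 ∧
    pX w 1 1 = 0 ∧ pX w 0 1 = 0 ∧ pX w 1 0 = 0 ∧ pS w = 0 := Iff.rfl

lemma mem_Cc {w : Mod} : w ∈ Cc ↔ pY w 0 1 = 0 ∧ pY w 1 0 = 0 ∧ pX w 0 0 = 0 ∧ pX w 1 1 = 0 :=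
  Iff.rfl

lemma mk_entries (a b c d e f g h : ℂ) (s : ℂ) :
    (mk !![a, b; c, d] !![e, f; g, h] s ∈ Cu ↔ a = 0 ∧ b = 0 ∧ d = 0 ∧ e = 0 ∧ f = 0 ∧ g = 0 ∧ s = 0)
    ∧ (mk !![a, b; c, d] !![e, f; g, h] s ∈ Cs ↔
      a = 0 ∧ c = 0 ∧ d = 0 ∧ h = 0 ∧ f = 0 ∧ g = 0 ∧ s = 0)
    ∧ (mk !![a, b; c, d] !![e, f; g, h] s ∈ Cc ↔ b = 0 ∧ c = 0 ∧ e = 0 ∧ h = 0) := by
  refine ⟨?_, ?_, ?_⟩
  · rw [mem_Cu]; simp
  · rw [mem_Cs]; simp
  · rw [mem_Cc]; simp

lemma conj_a2 (A : Mat) : a2i * A * a2 = !![A 0 0, A 0 1 / 2; 2 * A 1 0, A 1 1] := by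
  ext i j
  simp only [Matrix.mul_apply, Fin.sum_univ_two]
  fin_cases i <;> fin_cases j <;> simp [a2i, a2] <;> ring

/-- the step on the unstable part -/
lemma step_u {p : Mod} (hp : p ∈ U) {v : Mod} (hv : Lp p v ∈ Cu) :
    Lp (ft p) (ft v) = (2 : ℝ) • Lp p v := by
  rw [Lp_ft hp]
  set w := Lp p v with hw
  obtain ⟨h1, h2, h3, h4, h5, h6, h7⟩ := mem_Cu.mp hv
  have h : (2 : ℝ) • w = (2 : ℂ) • w := by
    have := Complex.coe_smul (2 : ℝ) w
    rw [← this]; norm_num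
  rw [h]
  apply mod_ext
  · rw [pY_mk, map_smul, conj_a2]
    ext i j
    fin_cases i <;> fin_cases j <;> simp [h1, h2, h3]
  · rw [pX_mk, map_smul, h7, zero_smul, add_zero, T_a2]
    ext i j
    fin_cases i <;> fin_cases j <;> simp [h4, h5, h6]
  · rw [pS_mk, map_smul, h7, smul_zero]

/-- the step on the stable part -/
lemma step_s {p : Mod} (hp : p ∈ U) {v : Mod} (hv : Lp p v ∈ Cs) :
    Lp (ft p) (ft v) = (2⁻¹ : ℝ) • Lp p v := by
  rw [Lp_ft hp]
  set w := Lp p v with hw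
  obtain ⟨h1, h2, h3, h4, h5, h6, h7⟩ := mem_Cs.mp hv
  have h : (2⁻¹ : ℝ) • w = (2⁻¹ : ℂ) • w := by
    have := Complex.coe_smul (2⁻¹ : ℝ) w
    rw [← this]; norm_num
  rw [h]
  apply mod_ext
  · rw [pY_mk, map_smul, conj_a2]
    ext i j
    fin_cases i <;> fin_cases j <;> simp [h1, h2, h3]
    ring
  · rw [pX_mk, map_smul, h7, zero_smul, add_zero, T_a2]
    ext i j
    fin_cases i <;> fin_cases j <;> simp [h4, h5, h6]
    ring
  · rw [pS_mk, map_smul, h7, smul_zero]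

/-- the step on the center part -/
lemma step_c {p : Mod} (hp : p ∈ U) {v : Mod} (hv : Lp p v ∈ Cc) :
    Lp (ft p) (ft v) = Lp p v + mk 0 (pS (Lp p v) • bt (pY p)) 0 := by
  rw [Lp_ft hp]
  set w := Lp p v with hw
  obtain ⟨h1, h2, h3, h4⟩ := mem_Cc.mp hv
  have b0 := bt_00 hp
  have b1 := bt_11 hp
  apply mod_ext
  · rw [pY_mk, map_add, pY_mk, add_zero, conj_a2]
    ext i j
    fin_cases i <;> fin_cases j <;> simp [h1, h2]
  · rw [pX_mk, map_add, pX_mk, T_a2, T_a2]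
    ext i j
    fin_cases i <;> fin_cases j <;> simp [h3, h4, b0, b1]
  · rw [pS_mk, map_add, pS_mk, add_zero]

lemma step_c_mem {p : Mod} (hp : p ∈ U) {v : Mod} (hv : Lp p v ∈ Cc) :
    Lp (ft p) (ft v) ∈ Cc := by
  rw [step_c hp hv]
  apply Cc.add_mem hv
  rw [mem_Cc]
  have b0 := bt_00 hp
  have b1 := bt_11 hp
  simp [b0, b1]

lemma norm_mod (w : Mod) : ‖w‖ = max ‖pY w‖ (max ‖pX w‖ ‖pS w‖) := rfl

lemma norm_pS_le (w : Mod) : ‖pS w‖ ≤ ‖w‖ := by
  rw [norm_mod]; exact le_max_of_le_right (le_max_right _ _)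

lemma norm_mk_mid (X : Mat) : ‖mk 0 X 0‖ = ‖X‖ := by
  rw [norm_mod]; simp

/-- iteration -/
lemma iter_mem {p : Mod} (hp : p ∈ U) (n : ℕ) : (ft^[n]) p ∈ U := by
  induction n with
  | zero => exact hp
  | succ n ih => rw [Function.iterate_succ_apply']; exact ft_mem ih

lemma iter_u {p : Mod} (hp : p ∈ U) {v : Mod} (hv : Lp p v ∈ Cu) (n : ℕ) :
    Lp ((ft^[n]) p) ((ft^[n]) v) = (2 ^ n : ℝ) • Lp p v := by
  induction n with
  | zero => simp
  | succ n ih =>
    rw [Function.iterate_succ_apply', Function.iterate_succ_apply', step_u (iter_mem hp n), ih,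
      smul_smul, pow_succ, mul_comm]
    rw [ih]; exact Cu.smul_mem _ hv

lemma iter_s {p : Mod} (hp : p ∈ U) {v : Mod} (hv : Lp p v ∈ Cs) (n : ℕ) :
    Lp ((ft^[n]) p) ((ft^[n]) v) = ((2⁻¹) ^ n : ℝ) • Lp p v := by
  induction n with
  | zero => simp
  | succ n ih =>
    rw [Function.iterate_succ_apply', Function.iterate_succ_apply', step_s (iter_mem hp n), ih,
      smul_smul, pow_succ, mul_comm]
    rw [ih]; exact Cs.smul_mem _ hv

lemma iter_c {B : ℝ} (hB : ∀ y ∈ GInv, ‖bt y‖ ≤ B) {p : Mod} (hp : p ∈ U) {v : Mod}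
    (hv : Lp p v ∈ Cc) (n : ℕ) :
    Lp ((ft^[n]) p) ((ft^[n]) v) ∈ Cc ∧ pS (Lp ((ft^[n]) p) ((ft^[n]) v)) = pS (Lp p v) ∧
    ‖Lp ((ft^[n]) p) ((ft^[n]) v) - Lp p v‖ ≤ n * B * ‖pS (Lp p v)‖ := by
  induction n with
  | zero => simp [hv]
  | succ n ih =>
    obtain ⟨h1, h2, h3⟩ := ih
    have hpn := iter_mem hp n
    rw [Function.iterate_succ_apply', Function.iterate_succ_apply']
    refine ⟨step_c_mem hpn h1, ?_, ?_⟩
    · rw [step_c hpn h1, map_add, pS_mk, add_zero, h2]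
    · rw [step_c hpn h1, h2, add_sub_right_comm]
      have h4 : ‖mk 0 (pS (Lp p v) • bt (pY ((ft^[n]) p))) 0‖ ≤ B * ‖pS (Lp p v)‖ := by
        rw [norm_mk_mid, norm_smul, mul_comm]
        exact mul_le_mul_of_nonneg_right (hB _ hpn) (norm_nonneg _)
      calc _ ≤ _ := norm_add_le _ _
        _ ≤ n * B * ‖pS (Lp p v)‖ + B * ‖pS (Lp p v)‖ := add_le_add h3 h4
        _ = _ := by push_cast; ring

/-- two-sided bound in the center direction -/
lemma iter_c_bound : ∃ B : ℝ, 0 ≤ B ∧ ∀ p ∈ U, ∀ v : Mod, Lp p v ∈ Cc → ∀ n : ℕ,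
    ‖Lp ((ft^[n]) p) ((ft^[n]) v)‖ ≤ (1 + n * B) * ‖Lp p v‖ ∧
    ‖Lp p v‖ ≤ (1 + n * B) * ‖Lp ((ft^[n]) p) ((ft^[n]) v)‖ := by
  obtain ⟨B, hB0, hB⟩ := bt_bounded
  refine ⟨B, hB0, ?_⟩
  intro p hp v hv n
  obtain ⟨-, h2, h3⟩ := iter_c hB hp hv n
  set w := Lp p v
  set z := Lp ((ft^[n]) p) ((ft^[n]) v)
  have hnB : 0 ≤ (n : ℝ) * B := by positivity
  constructor
  · calc ‖z‖ = ‖w + (z - w)‖ := by rw [add_sub_cancel]
      _ ≤ ‖w‖ + ‖z - w‖ := norm_add_le _ _
      _ ≤ ‖w‖ + n * B * ‖w‖ := by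
        have := mul_le_mul_of_nonneg_left (norm_pS_le w) hnB
        linarith
      _ = _ := by ring
  · calc ‖w‖ = ‖z - (z - w)‖ := by rw [sub_sub_cancel]
      _ ≤ ‖z‖ + ‖z - w‖ := norm_sub_le _ _
      _ ≤ ‖z‖ + n * B * ‖z‖ := by
        have h5 := norm_pS_le z
        rw [h2] at h5
        have := mul_le_mul_of_nonneg_left h5 hnB
        linarith
      _ = _ := by ring

end MP6194
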