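import Pool.Agent.MP_6194a9_an.Alg

/-!
Discreteness and cocompactness of the lattices.
-/

open Matrix
open scoped Matrix.Norms.Elementwise

namespace MP6194

lemma entry_norm_le (V : Mat) (i j : Fin 2) : ‖V i j‖ ≤ ‖V‖ :=
  Matrix.norm_entry_le_entrywise_sup_norm V

lemma norm_th : ‖th‖ = Real.sqrt 7 := by
  unfold th
  rw [norm_mul, Complex.norm_I, one_mul, Complex.norm_real, Real.norm_of_nonneg (Real.sqrt_nonneg _)]

lemma sqrt7_ge : (1 : ℝ) ≤ Real.sqrt 7 := by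
  rw [Real.one_le_sqrt]; norm_num

lemma sqrt7_le : Real.sqrt 7 ≤ 3 := by
  rw [Real.sqrt_le_left (by norm_num)]; norm_num

/-- coordinates of a quaternion are bounded by the norm of the matrix -/
lemma quat_coord_le (a b c d : ℂ) :
    ‖a‖ ≤ ‖quat a b c d‖ ∧ ‖b‖ ≤ ‖quat a b c d‖ ∧ ‖c‖ ≤ ‖quat a b c d‖ ∧ ‖d‖ ≤ ‖quat a b c d‖ := by
  set V := quat a b c d with hV
  have h00 := entry_norm_le V 0 0
  have h01 := entry_norm_le V 0 1
  have h10 := entry_norm_le V 1 0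
  have h11 := entry_norm_le V 1 1
  have hI := Complex.I_mul_I
  have e1 : a = (V 0 0 + V 1 1) / 2 := by rw [hV]; simp [quat]
  have e2 : b = (V 0 0 - V 1 1) * (-Complex.I) / 2 := by
    rw [hV]; simp [quat]; linear_combination b * hI
  have e3 : c = (V 0 1 - V 1 0) / 2 := by rw [hV]; simp [quat]
  have e4 : d = (V 0 1 + V 1 0) * (-Complex.I) / 2 := by
    rw [hV]; simp [quat]; linear_combination d * hI
  have n2 : ‖(2 : ℂ)‖ = 2 := by simp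
  refine ⟨?_, ?_, ?_, ?_⟩
  · rw [e1, norm_div, n2]
    have := norm_add_le (V 0 0) (V 1 1)
    linarith
  · rw [e2, norm_div, norm_mul, norm_neg, Complex.norm_I, n2]
    have := norm_sub_le (V 0 0) (V 1 1)
    linarith
  · rw [e3, norm_div, n2]
    have := norm_sub_le (V 0 1) (V 1 0)
    linarith
  · rw [e4, norm_div, norm_mul, norm_neg, Complex.norm_I, n2]
    have := norm_add_le (V 0 1) (V 1 0)
    linarith

lemma quat_norm_le {a b c d : ℂ} {C : ℝ} (hC : 0 ≤ C) (ha : ‖a‖ ≤ C) (hb : ‖b‖ ≤ C)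
    (hc : ‖c‖ ≤ C) (hd : ‖d‖ ≤ C) : ‖quat a b c d‖ ≤ 2 * C := by
  rw [Matrix.norm_le_iff (by linarith)]
  intro i j
  fin_cases i <;> fin_cases j <;> simp [quat]
  · calc ‖a + Complex.I * b‖ ≤ ‖a‖ + ‖Complex.I * b‖ := norm_add_le _ _
      _ ≤ 2 * C := by rw [norm_mul, Complex.norm_I]; linarith
  · calc ‖c + Complex.I * d‖ ≤ ‖c‖ + ‖Complex.I * d‖ := norm_add_le _ _
      _ ≤ 2 * C := by rw [norm_mul, Complex.norm_I]; linarith
  · calc ‖-c + Complex.I * d‖ ≤ ‖-c‖ + ‖Complex.I * d‖ := norm_add_le _ _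
      _ ≤ 2 * C := by rw [norm_mul, Complex.norm_I, norm_neg]; linarith
  · calc ‖a - Complex.I * b‖ ≤ ‖a‖ + ‖Complex.I * b‖ := norm_sub_le _ _
      _ ≤ 2 * C := by rw [norm_mul, Complex.norm_I]; linarith

lemma finite_two_dim (u v : ℂ) (C : ℝ)
    (h : ∀ a b : ℤ, ‖(a : ℂ) * u + b * v‖ ≤ C → |(a : ℝ)| ≤ C ∧ |(b : ℝ)| ≤ C) :
    {z : ℂ | (∃ a b : ℤ, z = a * u + b * v) ∧ ‖z‖ ≤ C}.Finite := by
  obtain ⟨N, hN⟩ := exists_nat_ge C
  apply ((((Set.finite_Icc (-(N : ℤ)) N).prod (Set.finite_Icc (-(N : ℤ)) N))).image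
    (fun p : ℤ × ℤ => (p.1 : ℂ) * u + p.2 * v)).subset
  rintro z ⟨⟨a, b, rfl⟩, hz⟩
  obtain ⟨ha, hb⟩ := h a b hz
  refine ⟨(a, b), ?_, rfl⟩
  have key : ∀ n : ℤ, |(n : ℝ)| ≤ C → n ∈ Set.Icc (-(N : ℤ)) N := by
    intro n hn
    have h1 : |(n : ℝ)| ≤ N := hn.trans hN
    have h2 : |n| ≤ N := by exact_mod_cast h1
    exact abs_le.mp h2
  exact ⟨key a ha, key b hb⟩

lemma finite_R (C : ℝ) : {z : ℂ | InR z ∧ ‖z‖ ≤ C}.Finite := by
  have := finite_two_dim 1 th C (by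
    intro a b h
    have hre := (Complex.abs_re_le_norm _).trans h
    have him := (Complex.abs_im_le_norm _).trans h
    simp [th_re, th_im] at hre him
    refine ⟨hre, ?_⟩
    have h1 : |(b : ℝ)| * 1 ≤ |(b : ℝ)| * |Real.sqrt 7| := by
      apply mul_le_mul_of_nonneg_left _ (abs_nonneg _)
      rw [abs_of_nonneg (Real.sqrt_nonneg _)]
      exact sqrt7_ge
    linarith)
  refine this.subset ?_
  rintro z ⟨⟨a, b, rfl⟩, hz⟩
  exact ⟨⟨a, b, by ring⟩, hz⟩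

lemma finite_Zi (C : ℝ) : {z : ℂ | InZi z ∧ ‖z‖ ≤ C}.Finite := by
  have := finite_two_dim 1 Complex.I C (by
    intro a b h
    have hre := (Complex.abs_re_le_norm _).trans h
    have him := (Complex.abs_im_le_norm _).trans h
    simp at hre him
    exact ⟨hre, him⟩)
  refine this.subset ?_
  rintro z ⟨⟨a, b, rfl⟩, hz⟩
  exact ⟨⟨a, b, by ring⟩, hz⟩

lemma finite_O (C : ℝ) : {M : Mat | InO M ∧ ‖M‖ ≤ C}.Finite := by
  apply (((finite_R C).prod ((finite_R C).prod ((finite_R C).prod (finite_R C)))).image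
    (fun p : ℂ × ℂ × ℂ × ℂ => quat p.1 p.2.1 p.2.2.1 p.2.2.2)).subset
  rintro M ⟨⟨a, b, c, d, ha, hb, hc, hd, rfl⟩, hM⟩
  obtain ⟨h1, h2, h3, h4⟩ := quat_coord_le a b c d
  exact ⟨(a, b, c, d), ⟨⟨ha, h1.trans hM⟩, ⟨hb, h2.trans hM⟩, ⟨hc, h3.trans hM⟩,
    ⟨hd, h4.trans hM⟩⟩, rfl⟩

/-- explicit form of the lattice -/
lemma L_explicit {X : Mat} (hX : InL X) : ∃ a b c d : ℂ, InZi a ∧ InZi b ∧ InZi c ∧ InZi d ∧
    X = quat a (b * th) (c * th) (d * th) := by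
  obtain ⟨A, B, hA, hB, rfl⟩ := hX
  obtain ⟨t, x, y, z, rfl⟩ := L0_explicit hA
  obtain ⟨t', x', y', z', rfl⟩ := L0_explicit hB
  refine ⟨t + t' * Complex.I, x + x' * Complex.I, y + y' * Complex.I, z + z' * Complex.I,
    ⟨t, t', rfl⟩, ⟨x, x', rfl⟩, ⟨y, y', rfl⟩, ⟨z, z', rfl⟩, ?_⟩
  rw [quat_smul, quat_add]
  congr 1 <;> ring

lemma quat_mem_L {a b c d : ℂ} (ha : InZi a) (hb : InZi b) (hc : InZi c) (hd : InZi d) :
    InL (quat a (b * th) (c * th) (d * th)) := by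
  obtain ⟨t, t', rfl⟩ := ha
  obtain ⟨x, x', rfl⟩ := hb
  obtain ⟨y, y', rfl⟩ := hc
  obtain ⟨z, z', rfl⟩ := hd
  refine ⟨_, _, quat_mem_L0 t x y z, quat_mem_L0 t' x' y' z', ?_⟩
  rw [quat_smul, quat_add]
  congr 1 <;> ring

lemma norm_le_mul_th (z : ℂ) : ‖z‖ ≤ ‖z * th‖ := by
  rw [norm_mul, norm_th]
  nlinarith [sqrt7_ge, norm_nonneg z]

lemma finite_L (C : ℝ) : {M : Mat | InL M ∧ ‖M‖ ≤ C}.Finite := by
  apply (((finite_Zi C).prod ((finite_Zi C).prod ((finite_Zi C).prod (finite_Zi C)))).image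
    (fun p : ℂ × ℂ × ℂ × ℂ => quat p.1 (p.2.1 * th) (p.2.2.1 * th) (p.2.2.2 * th))).subset
  rintro M ⟨hM1, hM⟩
  obtain ⟨a, b, c, d, ha, hb, hc, hd, rfl⟩ := L_explicit hM1
  obtain ⟨h1, h2, h3, h4⟩ := quat_coord_le a (b * th) (c * th) (d * th)
  exact ⟨(a, b, c, d), ⟨⟨ha, h1.trans hM⟩, ⟨hb, (norm_le_mul_th b).trans (h2.trans hM)⟩,
    ⟨hc, (norm_le_mul_th c).trans (h3.trans hM)⟩,
    ⟨hd, (norm_le_mul_th d).trans (h4.trans hM)⟩⟩, rfl⟩

/-- rounding to a Gaussian integer -/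
lemma exists_Zi_near (z : ℂ) : ∃ m : ℂ, InZi m ∧ ‖z + m‖ ≤ 1 := by
  refine ⟨((-round z.re : ℤ) : ℂ) + ((-round z.im : ℤ) : ℂ) * Complex.I, ⟨_, _, rfl⟩, ?_⟩
  have h1 := abs_sub_round z.re
  have h2 := abs_sub_round z.im
  have h3 := Complex.norm_le_abs_re_add_abs_im
    (z + (((-round z.re : ℤ) : ℂ) + ((-round z.im : ℤ) : ℂ) * Complex.I))
  have e1 : (z + (((-round z.re : ℤ) : ℂ) + ((-round z.im : ℤ) : ℂ) * Complex.I)).re
      = z.re - round z.re := by simp [sub_eq_add_neg]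
  have e2 : (z + (((-round z.re : ℤ) : ℂ) + ((-round z.im : ℤ) : ℂ) * Complex.I)).im
      = z.im - round z.im := by simp [sub_eq_add_neg]
  rw [e1, e2] at h3
  linarith

/-- rounding to the lattice -/
lemma exists_L_near (X : Mat) : ∃ l : Mat, InL l ∧ ‖X + l‖ ≤ 6 := by
  have hth : th ≠ 0 := by
    intro h0
    have := norm_th
    rw [h0, norm_zero] at this
    have h1 := sqrt7_ge
    linarith
  obtain ⟨a, b, c, d, rfl⟩ : ∃ a b c d, X = quat a b c d := ⟨_, _, _, _, eq_quat X⟩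
  obtain ⟨a', ha', ha⟩ := exists_Zi_near a
  obtain ⟨b', hb', hb⟩ := exists_Zi_near (b / th)
  obtain ⟨c', hc', hc⟩ := exists_Zi_near (c / th)
  obtain ⟨d', hd', hd⟩ := exists_Zi_near (d / th)
  refine ⟨_, quat_mem_L ha' hb' hc' hd', ?_⟩
  rw [quat_add]
  have key : ∀ u v : ℂ, ‖u / th + v‖ ≤ 1 → ‖u + v * th‖ ≤ 3 := by
    intro u v h
    have e : u + v * th = (u / th + v) * th := by field_simp
    rw [e, norm_mul, norm_th]
    nlinarith [sqrt7_le, sqrt7_ge, norm_nonneg (u / th + v)]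
  have := quat_norm_le (C := 3) (by norm_num) (ha.trans (by norm_num)) (key _ _ hb) (key _ _ hc)
    (key _ _ hd)
  linarith

end MP6194
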