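import Mathlib

/-!
Quotient of an open subset `U` of a normed space by a free properly discontinuous group of
smooth maps: it is a manifold, and the projection is a local diffeomorphism.
-/

open Set Topology
open scoped Manifold ContDiff

namespace QuotMan

variable {E : Type*} [NormedAddCommGroup E] (U : TopologicalSpace.Opens E)
  (G : Type*) [Group G] [MulAction G U]

/-- the projection from the model space to the quotient (junk value outside `U`) -/
noncomputable def proj [Nonempty U] (x : E) : MulAction.orbitRel.Quotient G U :=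
  open scoped Classical in
  if h : x ∈ U then Quotient.mk _ ⟨x, h⟩ else Quotient.mk _ (Classical.arbitrary U)

variable [LocallyCompactSpace U] [ProperlyDiscontinuousSMul G U] [ContinuousConstSMul G U]
  [IsCancelSMul G U]

/-- the projection -/
def pr (x : U) : MulAction.orbitRel.Quotient G U := Quotient.mk _ x

theorem pr_isLocalHomeomorph : IsLocalHomeomorph (pr U G) :=
  isQuotientCoveringMap_quotientMk_of_properlyDiscontinuousSMul.isCoveringMap.isLocalHomeomorph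

variable {U G}

omit [LocallyCompactSpace U] [ProperlyDiscontinuousSMul G U] [ContinuousConstSMul G U]
  [IsCancelSMul G U] in
theorem exists_smul_of_pr_eq {x y : U} (h : pr U G x = pr U G y) : ∃ g : G, g • x = y := by
  have h' := Quotient.exact h.symm
  exact h'

/-- two lifts which agree at a point agree near that point -/
theorem lift_unique {X : Type*} [TopologicalSpace X] {a : X} {s₁ s₂ : X → E}
    (c₁ : ContinuousAt s₁ a) (c₂ : ContinuousAt s₂ a) (h : s₁ a = s₂ a)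
    (hl : ∀ᶠ y in 𝓝 a, ∃ (h₁ : s₁ y ∈ U) (h₂ : s₂ y ∈ U),
      pr U G ⟨s₁ y, h₁⟩ = pr U G ⟨s₂ y, h₂⟩) : s₁ =ᶠ[𝓝 a] s₂ := by
  obtain ⟨h₁, h₂, -⟩ := hl.self_of_nhds
  have hf := pr_isLocalHomeomorph U G
  set V : Set E := Subtype.val '' (hf.localInverseAt ⟨s₁ a, h₁⟩).target with hV
  have hVo : IsOpen V := U.isOpen.isOpenMap_subtype_val _ (hf.localInverseAt _).open_target
  have hm₁ : s₁ a ∈ V := ⟨⟨s₁ a, h₁⟩, hf.self_mem_localInverseAt_target, rfl⟩
  have hm₂ : s₂ a ∈ V := h ▸ hm₁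
  filter_upwards [hl, c₁ (hVo.mem_nhds hm₁), c₂ (hVo.mem_nhds hm₂)] with y hy k₁ k₂
  obtain ⟨p₁, p₂, hp⟩ := hy
  obtain ⟨u₁, m₁, e₁⟩ := k₁
  obtain ⟨u₂, m₂, e₂⟩ := k₂
  have i₁ : u₁ = ⟨s₁ y, p₁⟩ := Subtype.ext e₁
  have i₂ : u₂ = ⟨s₂ y, p₂⟩ := Subtype.ext e₂
  have := hf.injOn_localInverseAt_target m₁ m₂ (by rw [i₁, i₂]; exact hp)
  rw [← e₁, ← e₂, this]

/-- charts are local lifts -/
theorem chart_lift {e : OpenPartialHomeomorph (MulAction.orbitRel.Quotient G U) E}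
    (he : e ∈ atlas E (MulAction.orbitRel.Quotient G U)) {q : MulAction.orbitRel.Quotient G U}
    (hq : q ∈ e.source) : ∃ h : e q ∈ U, pr U G ⟨e q, h⟩ = q := by
  obtain ⟨q₀, rfl⟩ := he
  have hf := pr_isLocalHomeomorph U G
  refine ⟨Subtype.coe_prop _, ?_⟩
  rw [OpenPartialHomeomorph.trans_source] at hq
  exact IsLocalHomeomorph.apply_localInverseAt_of_mem hf hq.1

theorem chart_symm {e : OpenPartialHomeomorph (MulAction.orbitRel.Quotient G U) E}
    (he : e ∈ atlas E (MulAction.orbitRel.Quotient G U)) {z : E}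
    (hz : z ∈ e.target) : ∃ h : z ∈ U, pr U G ⟨z, h⟩ = e.symm z := by
  obtain ⟨h, h'⟩ := chart_lift he (e.map_target hz)
  have hz' : e (e.symm z) = z := e.right_inv hz
  have hU : z ∈ U := hz' ▸ h
  refine ⟨hU, ?_⟩
  rw [← h']
  congr 1
  exact Subtype.ext hz'.symm

/-- a lift `s` (near `a`) of the map `t ↦ pr (s₀ t)` is locally of the form `F ∘ s₀` -/
theorem lift_eq {X : Type*} [TopologicalSpace X] {a : X} {s₀ s : X → E}
    (c₀ : ContinuousAt s₀ a) (c : ContinuousAt s a)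
    (hl : ∀ᶠ y in 𝓝 a, ∃ (h₁ : s₀ y ∈ U) (h₂ : s y ∈ U),
      pr U G ⟨s₀ y, h₁⟩ = pr U G ⟨s y, h₂⟩) (F : G → E → E)
    (hF : ∀ g, ∀ x : U, F g x = ((g • x : U) : E)) (hFc : ∀ g, ContinuousOn (F g) U) :
    ∃ g : G, s =ᶠ[𝓝 a] F g ∘ s₀ := by
  obtain ⟨h₁, h₂, h⟩ := hl.self_of_nhds
  obtain ⟨g, hg⟩ := exists_smul_of_pr_eq h
  refine ⟨g, lift_unique (U := U) (G := G) c ?_ ?_ ?_⟩
  · exact ContinuousAt.comp ((hFc g).continuousAt (U.isOpen.mem_nhds h₁)) c₀
  · have := hF g ⟨s₀ a, h₁⟩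
    rw [hg] at this
    exact this.symm
  · filter_upwards [hl] with y hy
    obtain ⟨k₁, k₂, k⟩ := hy
    have e1 := hF g ⟨s₀ y, k₁⟩
    have hm : (F g ∘ s₀) y ∈ U := by
      change F g (s₀ y) ∈ U
      have := (g • (⟨s₀ y, k₁⟩ : U)).2
      rw [← e1] at this
      exact this
    refine ⟨k₂, hm, ?_⟩
    rw [← k]
    have e2 : (⟨(F g ∘ s₀) y, hm⟩ : U) = g • (⟨s₀ y, k₁⟩ : U) := Subtype.ext e1
    rw [e2]
    exact Quotient.sound ((MulAction.orbitRel_apply).2 ⟨g⁻¹, by simp⟩)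

variable (U G)

theorem isManifold (𝕜 : Type*) [NontriviallyNormedField 𝕜] [NormedSpace 𝕜 E] (n : WithTop ℕ∞)
    (hG : ∀ g : G, ∃ F : E → E, ContDiffOn 𝕜 n F U ∧ ∀ x : U, F x = ((g • x : U) : E)) :
    IsManifold 𝓘(𝕜, E) n (MulAction.orbitRel.Quotient G U) := by
  choose F hFd hF using hG
  apply isManifold_of_contDiffOn
  intro e e' he he' z hz
  have hz0 : z ∈ (e.symm ≫ₕ e').source := hz.1
  have hopen : IsOpen (e.symm ≫ₕ e').source := (e.symm ≫ₕ e').open_source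
  have hc : ContinuousAt (e' ∘ e.symm) z :=
    (e.symm ≫ₕ e').continuousOn.continuousAt (hopen.mem_nhds hz0)
  have hl : ∀ᶠ y in 𝓝 z, ∃ (h₁ : (id : E → E) y ∈ U) (h₂ : (e' ∘ e.symm) y ∈ U),
      pr U G ⟨id y, h₁⟩ = pr U G ⟨(e' ∘ e.symm) y, h₂⟩ := by
    filter_upwards [hopen.mem_nhds hz0] with y hy
    rw [OpenPartialHomeomorph.trans_source] at hy
    obtain ⟨h₁, h₁'⟩ := chart_symm he hy.1
    obtain ⟨h₂, h₂'⟩ := chart_lift he' hy.2
    exact ⟨h₁, h₂, h₁'.trans h₂'.symm⟩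
  obtain ⟨g, hg⟩ := lift_eq (U := U) (G := G) continuousAt_id hc hl F hF
    (fun g => (hFd g).continuousOn)
  have hzU : z ∈ U := hl.self_of_nhds.1
  have h1 : ContDiffAt 𝕜 n (F g) z := (hFd g).contDiffAt (U.isOpen.mem_nhds hzU)
  exact (h1.congr_of_eventuallyEq hg).contDiffWithinAt

omit [LocallyCompactSpace U] [ProperlyDiscontinuousSMul G U] [ContinuousConstSMul G U]
  [IsCancelSMul G U] in
theorem proj_coe [Nonempty U] (u : U) : proj U G (u : E) = pr U G u := by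
  unfold proj
  rw [dif_pos u.2]
  rfl

theorem contMDiffAt_proj [Nonempty U] (𝕜 : Type*) [NontriviallyNormedField 𝕜]
    [NormedSpace 𝕜 E] (n : WithTop ℕ∞)
    (hG : ∀ g : G, ∃ F : E → E, ContDiffOn 𝕜 n F U ∧ ∀ x : U, F x = ((g • x : U) : E))
    (x : E) (hx : x ∈ U) : ContMDiffAt 𝓘(𝕜, E) 𝓘(𝕜, E) n (proj U G) x := by
  have hM := isManifold U G 𝕜 n hG
  choose F hFd hF using hG
  have hcont : ContinuousAt (proj U G) x := by
    have h1 : ContinuousAt (pr U G) ⟨x, hx⟩ := (pr_isLocalHomeomorph U G).continuous.continuousAt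
    have h2 : pr U G = fun u : U => proj U G (u : E) := by
      funext u; exact (proj_coe U G u).symm
    rw [h2] at h1
    exact (U.isOpenEmbedding'.continuousAt_iff (x := (⟨x, hx⟩ : U)) (f := Subtype.val)
      (g := proj U G)).1 h1
  rw [contMDiffAt_iff_target]
  refine ⟨hcont, ?_⟩
  set e := chartAt E (proj U G x) with he
  have hea : e ∈ atlas E (MulAction.orbitRel.Quotient G U) := chart_mem_atlas E _
  have hsrc : proj U G x ∈ e.source := mem_chart_source E _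
  have hc : ContinuousAt (e ∘ proj U G) x :=
    (e.continuousAt hsrc).comp hcont
  have hl : ∀ᶠ y in 𝓝 x, ∃ (h₁ : (id : E → E) y ∈ U) (h₂ : (e ∘ proj U G) y ∈ U),
      pr U G ⟨id y, h₁⟩ = pr U G ⟨(e ∘ proj U G) y, h₂⟩ := by
    filter_upwards [hcont (e.open_source.mem_nhds hsrc), U.isOpen.mem_nhds hx] with y hy hyU
    obtain ⟨h₂, h₂'⟩ := chart_lift hea hy
    refine ⟨hyU, h₂, ?_⟩
    change _ = pr U G ⟨e (proj U G y), h₂⟩
    rw [h₂']
    exact (proj_coe U G ⟨y, hyU⟩).symm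
  obtain ⟨g, hg⟩ := lift_eq (U := U) (G := G) continuousAt_id hc hl F hF
    (fun g => (hFd g).continuousOn)
  have h1 : ContDiffAt 𝕜 n (F g) x := (hFd g).contDiffAt (U.isOpen.mem_nhds hx)
  have h2 : ContDiffAt 𝕜 n (e ∘ proj U G) x := h1.congr_of_eventuallyEq hg
  exact h2.contMDiffAt

theorem contMDiffAt_localInverse (𝕜 : Type*) [NontriviallyNormedField 𝕜]
    [NormedSpace 𝕜 E] (n : WithTop ℕ∞)
    (hG : ∀ g : G, ∃ F : E → E, ContDiffOn 𝕜 n F U ∧ ∀ x : U, F x = ((g • x : U) : E))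
    (x : U) (q : MulAction.orbitRel.Quotient G U)
    (hq : q ∈ ((pr_isLocalHomeomorph U G).localInverseAt x).source) :
    ContMDiffAt 𝓘(𝕜, E) 𝓘(𝕜, E) n
      (fun p => (((pr_isLocalHomeomorph U G).localInverseAt x p : U) : E)) q := by
  have hM := isManifold U G 𝕜 n hG
  choose F hFd hF using hG
  set L := (pr_isLocalHomeomorph U G).localInverseAt x with hL
  have hcont : ContinuousAt (fun p => ((L p : U) : E)) q :=
    continuous_subtype_val.continuousAt.comp (L.continuousAt hq)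
  set e := chartAt E q with he
  have hea : e ∈ atlas E (MulAction.orbitRel.Quotient G U) := chart_mem_atlas E _
  have hsrc : q ∈ e.source := mem_chart_source E _
  have hl : ∀ᶠ y in 𝓝 q, ∃ (h₁ : e y ∈ U) (h₂ : ((L y : U) : E) ∈ U),
      pr U G ⟨e y, h₁⟩ = pr U G ⟨((L y : U) : E), h₂⟩ := by
    filter_upwards [e.open_source.mem_nhds hsrc, L.open_source.mem_nhds hq] with y hy hy'
    obtain ⟨h₂, h₂'⟩ := chart_lift hea hy
    refine ⟨h₂, (L y).2, ?_⟩
    rw [h₂']
    exact (IsLocalHomeomorph.apply_localInverseAt_of_mem (pr_isLocalHomeomorph U G) hy').symm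
  obtain ⟨g, hg⟩ := lift_eq (U := U) (G := G) (e.continuousAt hsrc) hcont hl F hF
    (fun g => (hFd g).continuousOn)
  have hqU : e q ∈ U := hl.self_of_nhds.1
  have h1 : ContMDiffAt 𝓘(𝕜, E) 𝓘(𝕜, E) n (F g) (e q) :=
    ((hFd g).contDiffAt (U.isOpen.mem_nhds hqU)).contMDiffAt
  have h2 : ContMDiffAt 𝓘(𝕜, E) 𝓘(𝕜, E) n e q :=
    contMDiffAt_of_mem_maximalAtlas (IsManifold.subset_maximalAtlas hea) hsrc
  exact (h1.comp q h2).congr_of_eventuallyEq hg

theorem isLocalDiffeomorphOn [Nonempty U] (𝕜 : Type*) [NontriviallyNormedField 𝕜]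
    [NormedSpace 𝕜 E] (n : WithTop ℕ∞)
    (hG : ∀ g : G, ∃ F : E → E, ContDiffOn 𝕜 n F U ∧ ∀ x : U, F x = ((g • x : U) : E)) :
    IsLocalDiffeomorphOn 𝓘(𝕜, E) 𝓘(𝕜, E) n (proj U G) (U : Set E) := by
  rintro ⟨x, hx⟩
  have hf := pr_isLocalHomeomorph U G
  have hsymm : ∀ u : U, (hf.localInverseAt ⟨x, hx⟩).symm u = pr U G u := by
    intro u
    rw [IsLocalHomeomorph.localInverseAt_symm]
  let Φ : PartialDiffeomorph 𝓘(𝕜, E) 𝓘(𝕜, E) E (MulAction.orbitRel.Quotient G U) n :=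
    { toFun := proj U G
      invFun := fun p => ((hf.localInverseAt ⟨x, hx⟩ p : U) : E)
      source := Subtype.val '' (hf.localInverseAt ⟨x, hx⟩).target
      target := (hf.localInverseAt ⟨x, hx⟩).source
      map_source' := by
        rintro _ ⟨u, hu, rfl⟩
        rw [proj_coe, ← hsymm]
        exact (hf.localInverseAt ⟨x, hx⟩).map_target hu
      map_target' := by
        intro q hq
        exact ⟨_, (hf.localInverseAt ⟨x, hx⟩).map_source hq, rfl⟩
      left_inv' := by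
        rintro _ ⟨u, hu, rfl⟩
        rw [proj_coe, ← hsymm, (hf.localInverseAt ⟨x, hx⟩).right_inv hu]
      right_inv' := by
        intro q hq
        rw [proj_coe]
        exact IsLocalHomeomorph.apply_localInverseAt_of_mem hf hq
      open_source := U.isOpen.isOpenMap_subtype_val _ (hf.localInverseAt _).open_target
      open_target := (hf.localInverseAt _).open_source
      contMDiffOn_toFun := by
        rintro _ ⟨u, hu, rfl⟩
        exact (contMDiffAt_proj U G 𝕜 n hG u u.2).contMDiffWithinAt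
      contMDiffOn_invFun := by
        intro q hq
        exact (contMDiffAt_localInverse U G 𝕜 n hG ⟨x, hx⟩ q hq).contMDiffWithinAt }
  exact ⟨Φ, ⟨⟨x, hx⟩, hf.self_mem_localInverseAt_target, rfl⟩, Set.eqOn_refl _ _⟩

end QuotMan
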