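import Pool.Agent.MP_6194a9_an.NMap
import Pool.Agent.MP_6194a9_an.Lattice
import Pool.Agent.MP_6194a9_an.QuotMan

/-!
The deck group acting on the total space.
-/

open Matrix Filter Topology
open scoped Matrix.Norms.Elementwise

namespace MP6194

/-- the model space -/
def Mod : Type := Mat × Mat × ℂ

noncomputable instance : NormedAddCommGroup Mod :=
  inferInstanceAs (NormedAddCommGroup (Mat × Mat × ℂ))
noncomputable instance : NormedSpace ℂ Mod := inferInstanceAs (NormedSpace ℂ (Mat × Mat × ℂ))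
instance : FiniteDimensional ℂ Mod := inferInstanceAs (FiniteDimensional ℂ (Mat × Mat × ℂ))
instance : FiniteDimensional ℝ Mod := FiniteDimensional.complexToReal Mod
instance : ProperSpace Mod := FiniteDimensional.proper ℂ Mod

/-- a point of the model space -/
def mk (y X : Mat) (s : ℂ) : Mod := (y, X, s)

/-- the three projections -/
noncomputable def pY : Mod →L[ℂ] Mat := ContinuousLinearMap.fst ℂ Mat (Mat × ℂ)
noncomputable def pX : Mod →L[ℂ] Mat :=
  (ContinuousLinearMap.fst ℂ Mat ℂ).comp (ContinuousLinearMap.snd ℂ Mat (Mat × ℂ))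
noncomputable def pS : Mod →L[ℂ] ℂ :=
  (ContinuousLinearMap.snd ℂ Mat ℂ).comp (ContinuousLinearMap.snd ℂ Mat (Mat × ℂ))

@[simp] lemma pY_mk (y X : Mat) (s : ℂ) : pY (mk y X s) = y := rfl
@[simp] lemma pX_mk (y X : Mat) (s : ℂ) : pX (mk y X s) = X := rfl
@[simp] lemma pS_mk (y X : Mat) (s : ℂ) : pS (mk y X s) = s := rfl

lemma mk_eta (p : Mod) : mk (pY p) (pX p) (pS p) = p := rfl

lemma mod_ext {p q : Mod} (h1 : pY p = pY q) (h2 : pX p = pX q) (h3 : pS p = pS q) : p = q := by
  rw [← mk_eta p, ← mk_eta q, h1, h2, h3]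

lemma mk_add (y X : Mat) (s : ℂ) (y' X' : Mat) (s' : ℂ) :
    mk y X s + mk y' X' s' = mk (y + y') (X + X') (s + s') := rfl

lemma mk_smul (c : ℂ) (y X : Mat) (s : ℂ) : c • mk y X s = mk (c • y) (c • X) (c * s) := rfl

/-- the total space of the covering -/
noncomputable def U : TopologicalSpace.Opens Mod :=
  ⟨{p | pY p ∈ GInv}, isOpen_GInv.preimage pY.continuous⟩

lemma mem_U {p : Mod} : p ∈ U ↔ pY p ∈ GInv := Iff.rfl

/-- the linear part of a deck transformation -/
noncomputable def actL (k : ℤ) (g : Mat) : Mod →L[ℂ] Mod :=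
  LinearMap.toContinuousLinearMap
    { toFun := fun p => mk ((2 : ℂ) ^ k • (g * pY p)) (g * pX p * gᴴ + pS p • N0 g) (pS p)
      map_add' := by
        intro p q
        rw [mk_add]
        congr 1
        · rw [map_add, Matrix.mul_add, smul_add]
        · rw [map_add, map_add, Matrix.mul_add, Matrix.add_mul, add_smul]; abel
      map_smul' := by
        intro c p
        rw [RingHom.id_apply, mk_smul]
        congr 1
        · rw [map_smul, Matrix.mul_smul, smul_comm]
        · rw [map_smul, map_smul, Matrix.mul_smul, Matrix.smul_mul, smul_add, smul_smul,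
            smul_eq_mul] }

lemma actL_apply (k : ℤ) (g : Mat) (p : Mod) :
    actL k g p = mk ((2 : ℂ) ^ k • (g * pY p)) (g * pX p * gᴴ + pS p • N0 g) (pS p) := rfl

/-- a deck transformation -/
noncomputable def act (k : ℤ) (g l : Mat) (m : ℂ) (p : Mod) : Mod := actL k g p + mk 0 l m

lemma pY_act (k : ℤ) (g l : Mat) (m : ℂ) (p : Mod) :
    pY (act k g l m p) = (2 : ℂ) ^ k • (g * pY p) := by
  unfold act
  rw [map_add, actL_apply, pY_mk, pY_mk, add_zero]

lemma pX_act (k : ℤ) (g l : Mat) (m : ℂ) (p : Mod) :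
    pX (act k g l m p) = g * pX p * gᴴ + pS p • N0 g + l := by
  unfold act
  rw [map_add, actL_apply, pX_mk, pX_mk]

lemma pS_act (k : ℤ) (g l : Mat) (m : ℂ) (p : Mod) :
    pS (act k g l m p) = pS p + m := by
  unfold act
  rw [map_add, actL_apply, pS_mk, pS_mk]

lemma act_mem {k : ℤ} {g l : Mat} {m : ℂ} (hg : InG g) {p : Mod} (hp : p ∈ U) :
    act k g l m p ∈ U := by
  rw [mem_U, pY_act]
  exact act_mem_GInv k hg hp

lemma act_act {k k' : ℤ} {g g' l l' : Mat} {m m' : ℂ} (hg : InG g) (hg' : InG g') (p : Mod) :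
    act k g l m (act k' g' l' m' p)
      = act (k + k') (g * g') (g * l' * gᴴ + m' • N0 g + l) (m' + m) p := by
  have hg1 : g'.det ≠ 0 := by rw [hg'.2]; exact one_ne_zero
  apply mod_ext
  · rw [pY_act, pY_act, pY_act, Matrix.mul_smul, smul_smul, zpow_add₀ two_ne_zero,
      Matrix.mul_assoc]
  · rw [pX_act, pX_act, pX_act, pS_act, N0_mul hg hg1, Matrix.conjTranspose_mul]
    simp only [Matrix.mul_add, Matrix.add_mul, Matrix.mul_smul, Matrix.smul_mul, add_smul,
      smul_add, Matrix.mul_assoc]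
    abel
  · rw [pS_act, pS_act, pS_act, add_assoc]

lemma act_id (p : Mod) : act 0 1 0 0 p = p := by
  apply mod_ext
  · rw [pY_act, zpow_zero, one_smul, Matrix.one_mul]
  · rw [pX_act, N0_one]; simp
  · rw [pS_act, add_zero]

/-- the lattice part of the inverse -/
noncomputable def linv (g l : Mat) (m : ℂ) : Mat :=
  -(m • N0 g.adjugate) - g.adjugate * l * (g.adjugate)ᴴ

lemma N0_adj {g : Mat} (hg : InG g) : g.adjugate * N0 g * (g.adjugate)ᴴ + N0 g.adjugate = 0 := by
  have h : g.det ≠ 0 := by rw [hg.2]; exact one_ne_zero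
  rw [← N0_mul hg.adj h, hg.adj_mul, N0_one]

lemma N0_adj' {g : Mat} (hg : InG g) : g * N0 g.adjugate * gᴴ + N0 g = 0 := by
  have h : g.adjugate.det ≠ 0 := by rw [hg.adj.2]; exact one_ne_zero
  rw [← N0_mul hg h, hg.mul_adj, N0_one]

lemma act_inv_act {k : ℤ} {g l : Mat} {m : ℂ} (hg : InG g) (p : Mod) :
    act (-k) g.adjugate (linv g l m) (-m) (act k g l m p) = p := by
  rw [act_act hg.adj hg]
  have e1 : -k + k = 0 := by ring
  have e2 : m + -m = 0 := by ring
  have e3 : g.adjugate * l * (g.adjugate)ᴴ + m • N0 g.adjugate + linv g l m = 0 := by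
    unfold linv; abel
  rw [e1, e2, e3, hg.adj_mul, act_id]

lemma act_act_inv {k : ℤ} {g l : Mat} {m : ℂ} (hg : InG g) (p : Mod) :
    act k g l m (act (-k) g.adjugate (linv g l m) (-m) p) = p := by
  rw [act_act hg hg.adj]
  have e1 : k + -k = 0 := by ring
  have e2 : -m + m = 0 := by ring
  have e3 : g * linv g l m * gᴴ + -m • N0 g + l = 0 := by
    unfold linv
    have h1 := N0_adj' hg
    have h2 : g * (g.adjugate * l * (g.adjugate)ᴴ) * gᴴ = l := by
      have := conj_T_group hg l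
      rwa [T_group hg] at this
    have h3 : g * (m • N0 g.adjugate) * gᴴ = m • (g * N0 g.adjugate * gᴴ) := by
      rw [Matrix.mul_smul, Matrix.smul_mul]
    rw [Matrix.mul_sub, Matrix.sub_mul, h2, Matrix.mul_neg, Matrix.neg_mul, h3]
    have h4 : g * N0 g.adjugate * gᴴ = - N0 g := by
      rw [eq_neg_iff_add_eq_zero]; exact h1
    rw [h4]
    simp only [smul_neg, neg_neg, neg_smul]
    abel
  rw [e1, e2, e3, hg.mul_adj, act_id]

/-- a deck transformation as a permutation of the total space -/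
noncomputable def permU (k : ℤ) {g : Mat} (l : Mat) (m : ℂ) (hg : InG g) : Equiv.Perm U where
  toFun p := ⟨act k g l m p, act_mem hg p.2⟩
  invFun p := ⟨act (-k) g.adjugate (linv g l m) (-m) p, act_mem hg.adj p.2⟩
  left_inv p := Subtype.ext (act_inv_act hg p)
  right_inv p := Subtype.ext (act_act_inv hg p)

/-- the deck group -/
noncomputable def DG : Subgroup (Equiv.Perm U) where
  carrier := {σ | ∃ (k : ℤ) (g l : Mat) (m : ℂ), InG g ∧ InL l ∧ InZi m ∧
    ∀ p : U, ((σ p : U) : Mod) = act k g l m p}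
  mul_mem' := by
    rintro σ τ ⟨k, g, l, m, hg, hl, hm, h⟩ ⟨k', g', l', m', hg', hl', hm', h'⟩
    refine ⟨k + k', g * g', g * l' * gᴴ + m' • N0 g + l, m' + m, hg.mul hg',
      L.add_mem (L.add_mem (conj_mem_L hg hl') (smul_mem_L hm' (N0_mem_L0 hg))) hl,
      Zi.add_mem hm' hm, ?_⟩
    intro p
    rw [Equiv.Perm.mul_apply, h, h', act_act hg hg']
  one_mem' := ⟨0, 1, 0, 0, InG_one, L.zero_mem, Zi.zero_mem, fun p => by
    rw [act_id]; rfl⟩
  inv_mem' := by
    rintro σ ⟨k, g, l, m, hg, hl, hm, h⟩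
    refine ⟨-k, g.adjugate, linv g l m, -m, hg.adj, ?_, Zi.neg_mem hm, ?_⟩
    · exact L.sub_mem (L.neg_mem (smul_mem_L hm (N0_mem_L0 hg.adj))) (conj_mem_L hg.adj hl)
    · intro p
      have h1 := h (σ⁻¹ p)
      have h2 : σ (σ⁻¹ p) = p := σ.apply_symm_apply p
      rw [h2] at h1
      rw [h1, act_inv_act hg]

lemma permU_mem {k : ℤ} {g l : Mat} {m : ℂ} (hg : InG g) (hl : InL l) (hm : InZi m) :
    permU k l m hg ∈ DG := ⟨k, g, l, m, hg, hl, hm, fun _ => rfl⟩

lemma DG_spec (σ : DG) : ∃ (k : ℤ) (g l : Mat) (m : ℂ), InG g ∧ InL l ∧ InZi m ∧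
    ∀ p : U, ((σ • p : U) : Mod) = act k g l m p := σ.2

lemma continuous_act (k : ℤ) (g l : Mat) (m : ℂ) : Continuous (act k g l m) :=
  (actL k g).continuous.add continuous_const

instance : ContinuousConstSMul DG U where
  continuous_const_smul σ := by
    obtain ⟨k, g, l, m, hg, hl, hm, h⟩ := DG_spec σ
    rw [Topology.IsInducing.subtypeVal.continuous_iff]
    exact ((continuous_act k g l m).comp continuous_subtype_val).congr (fun p => (h p).symm)

lemma act_params {k k' : ℤ} {g g' l l' : Mat} {m m' : ℂ} (hg : InG g) (hg' : InG g') {p : Mod}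
    (hp : p ∈ U) (h : act k g l m p = act k' g' l' m' p) : k = k' ∧ g = g' ∧ l = l' ∧ m = m' := by
  have hy : (pY p).det ≠ 0 := hp
  have h1 := congrArg pY h
  have h2 := congrArg pX h
  have h3 := congrArg pS h
  rw [pY_act, pY_act] at h1
  rw [pX_act, pX_act] at h2
  rw [pS_act, pS_act] at h3
  have hdet := congrArg Matrix.det h1
  rw [det_smul2, det_smul2, Matrix.det_mul, Matrix.det_mul, hg.2, hg'.2, one_mul] at hdet
  have hd2 := mul_right_cancel₀ hy hdet
  have hk : k = k' := by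
    have h5 : ‖((2 : ℂ) ^ k) ^ 2‖ = ‖((2 : ℂ) ^ k') ^ 2‖ := by rw [hd2]
    rw [norm_pow, norm_pow, norm_zpow, norm_zpow] at h5
    have n2 : ‖(2 : ℂ)‖ = 2 := by simp
    rw [n2] at h5
    have h6 : ((2 : ℝ) ^ k) = (2 : ℝ) ^ k' := by
      rwa [pow_left_inj₀ (by positivity) (by positivity) two_ne_zero] at h5
    exact zpow_right_injective₀ (by norm_num) (by norm_num) h6
  subst hk
  have h7 : g * pY p = g' * pY p := smul_right_injective _ (two_zpow_ne k) h1
  have hgg : g = g' := by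
    have h8 : g * (pY p * (pY p).adjugate) = g' * (pY p * (pY p).adjugate) := by
      rw [← Matrix.mul_assoc, ← Matrix.mul_assoc]
      rw [h7]
    rw [Matrix.mul_adjugate, Matrix.mul_smul, Matrix.mul_smul, Matrix.mul_one, Matrix.mul_one] at h8
    exact smul_right_injective _ hy h8
  subst hgg
  exact ⟨rfl, rfl, add_left_cancel h2, add_left_cancel h3⟩

lemma DG_ext {σ τ : DG} {k : ℤ} {g l : Mat} {m : ℂ}
    (hσ : ∀ p : U, ((σ • p : U) : Mod) = act k g l m p)
    (hτ : ∀ p : U, ((τ • p : U) : Mod) = act k g l m p) : σ = τ := by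
  apply Subtype.ext
  ext1 p
  exact Subtype.ext ((hσ p).trans (hτ p).symm)

instance : IsCancelSMul DG U where
  left_cancel' σ p q h := by
    have := congrArg (fun z => σ⁻¹ • z) h
    simpa using this
  right_cancel' σ τ p h := by
    obtain ⟨k, g, l, m, hg, hl, hm, hσ⟩ := DG_spec σ
    obtain ⟨k', g', l', m', hg', hl', hm', hτ⟩ := DG_spec τ
    have h1 : ((σ • p : U) : Mod) = ((τ • p : U) : Mod) := by rw [h]
    rw [hσ, hτ] at h1
    obtain ⟨rfl, rfl, rfl, rfl⟩ := act_params hg hg' p.2 h1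
    exact DG_ext hσ hτ

end MP6194
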