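import Mathlib

/-!
Vector fields and metrics along a local diffeomorphism from an open subset of the model space.
-/

open Bundle Set Topology
open scoped Manifold ContDiff

namespace MP6194L

variable {E : Type} [NormedAddCommGroup E] [NormedSpace ℝ E]
  {M : Type} [TopologicalSpace M] [ChartedSpace E M] [IsManifold 𝓘(ℝ, E) ω M]
  {U : Set E} {P : E → M}

/-- the differential of a local diffeomorphism is bijective -/
theorem exists_equiv (hP : IsLocalDiffeomorphOn 𝓘(ℝ, E) 𝓘(ℝ, E) ω P U) {x : E} (hx : x ∈ U) :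
    ∃ e : E ≃L[ℝ] TangentSpace 𝓘(ℝ, E) (P x), ∀ v : E,
      (mfderiv 𝓘(ℝ, E) 𝓘(ℝ, E) P x) v = e v :=
  ⟨(hP ⟨x, hx⟩).mfderivToContinuousLinearEquiv (by simp), fun v => rfl⟩

/-- the tangent map of a smooth map on an open set, in the model space -/
theorem continuousOn_tangent {N : Type} [TopologicalSpace N] [ChartedSpace E N]
    [IsManifold 𝓘(ℝ, E) 1 N] {P : E → N} (hU : IsOpen U)
    (hP : ContMDiffOn 𝓘(ℝ, E) 𝓘(ℝ, E) ω P U) :
    ContinuousOn (fun p : E × E => (⟨P p.1, (mfderiv 𝓘(ℝ, E) 𝓘(ℝ, E) P p.1) p.2⟩ :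
      TangentBundle 𝓘(ℝ, E) N)) (U ×ˢ univ) := by
  have h1 := hP.continuousOn_tangentMapWithin (by simp) hU.uniqueMDiffOn
  have h2 : Continuous ((tangentBundleModelSpaceHomeomorph 𝓘(ℝ, E)).symm :
      ModelProd E E → TangentBundle 𝓘(ℝ, E) E) := Homeomorph.continuous _
  have h3 : ContinuousOn (fun p : E × E => tangentMapWithin 𝓘(ℝ, E) 𝓘(ℝ, E) P U
      ((tangentBundleModelSpaceHomeomorph 𝓘(ℝ, E)).symm p)) (U ×ˢ univ) :=
    h1.comp h2.continuousOn (fun p hp => hp.1)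
  refine h3.congr fun p hp => ?_
  have h4 := tangentMapWithin_eq_tangentMap (I := 𝓘(ℝ, E)) (I' := 𝓘(ℝ, E)) (f := P) (s := U)
    (p := ((tangentBundleModelSpaceHomeomorph 𝓘(ℝ, E)).symm p : TangentBundle 𝓘(ℝ, E) E))
    (hU.uniqueMDiffOn _ hp.1)
    (((hP _ hp.1).contMDiffAt (hU.mem_nhds hp.1)).mdifferentiableAt (by simp))
  exact h4.symm

/-- push forward of a continuous vector field -/
theorem contMDiff_pushforward (hU : IsOpen U)
    (hP : IsLocalDiffeomorphOn 𝓘(ℝ, E) 𝓘(ℝ, E) ω P U)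
    (hsurj : ∀ q : M, ∃ x ∈ U, P x = q) (V : E → E) (hV : ContinuousOn V U)
    (X : ∀ q : M, TangentSpace 𝓘(ℝ, E) q)
    (hX : ∀ x ∈ U, X (P x) = (mfderiv 𝓘(ℝ, E) 𝓘(ℝ, E) P x) (V x)) :
    ContMDiff 𝓘(ℝ, E) 𝓘(ℝ, E).tangent 0 (fun q => (⟨q, X q⟩ : TangentBundle 𝓘(ℝ, E) M)) := by
  rw [contMDiff_zero_iff, continuous_iff_continuousAt]
  intro q₀
  obtain ⟨x₀, hx₀, rfl⟩ := hsurj q₀
  have hd := hP ⟨x₀, hx₀⟩
  set σ := hd.localInverse with hσ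
  have hsrc : P x₀ ∈ σ.source := hd.localInverse_mem_source
  have hσx : σ (P x₀) = x₀ := hd.localInverse_left_inv hd.localInverse_mem_target
  have hσc : ContinuousAt σ (P x₀) := hd.localInverse_contMDiffAt.continuousAt
  have hσU : ∀ᶠ q in 𝓝 (P x₀), σ q ∈ U := hσc.eventually (by
    rw [hσx]; exact hU.mem_nhds hx₀)
  have hσs : ∀ᶠ q in 𝓝 (P x₀), q ∈ σ.source := σ.open_source.mem_nhds hsrc
  have : IsManifold 𝓘(ℝ, E) 1 M := IsManifold.of_le (n := ω) (by simp)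
  have hT := continuousOn_tangent hU hP.contMDiffOn
  have hT' : ContinuousAt (fun p : E × E => (⟨P p.1, (mfderiv 𝓘(ℝ, E) 𝓘(ℝ, E) P p.1) p.2⟩ :
      TangentBundle 𝓘(ℝ, E) M)) (σ (P x₀), V (σ (P x₀))) := by
    rw [hσx]
    exact hT.continuousAt ((hU.prod isOpen_univ).mem_nhds ⟨hx₀, trivial⟩)
  have hVc : ContinuousAt (fun q => V (σ q)) (P x₀) := by
    refine ContinuousAt.comp (g := V) ?_ hσc
    rw [hσx]
    exact hV.continuousAt (hU.mem_nhds hx₀)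
  have hcomp : ContinuousAt (fun q => (⟨P (σ q), (mfderiv 𝓘(ℝ, E) 𝓘(ℝ, E) P (σ q)) (V (σ q))⟩ :
      TangentBundle 𝓘(ℝ, E) M)) (P x₀) :=
    ContinuousAt.comp (f := fun q => ((σ q, V (σ q)) : E × E)) hT' (hσc.prodMk hVc)
  refine hcomp.congr ?_
  filter_upwards [hσU, hσs] with q hqU hqs
  rw [← hX _ hqU, hd.localInverse_right_inv hqs]

/-- pull back of a continuously differentiable vector field -/
theorem exists_pullback (hU : IsOpen U)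
    (hP : IsLocalDiffeomorphOn 𝓘(ℝ, E) 𝓘(ℝ, E) ω P U)
    (X : ∀ q : M, TangentSpace 𝓘(ℝ, E) q) {x₀ : E} (hx₀ : x₀ ∈ U) {s : Set M}
    (hs : s ∈ 𝓝 (P x₀))
    (hX : ContMDiffOn 𝓘(ℝ, E) 𝓘(ℝ, E).tangent 1
      (fun q => (⟨q, X q⟩ : TangentBundle 𝓘(ℝ, E) M)) s) :
    ∃ V : E → E, ContDiffAt ℝ 1 V x₀ ∧
      ∀ᶠ x in 𝓝 x₀, x ∈ U ∧ P x ∈ s ∧ (mfderiv 𝓘(ℝ, E) 𝓘(ℝ, E) P x) (V x) = X (P x) := by
  have : IsManifold 𝓘(ℝ, E) 1 M := IsManifold.of_le (n := ω) (by simp)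
  have hd := hP ⟨x₀, hx₀⟩
  set σ := hd.localInverse with hσ
  have hsrc : P x₀ ∈ σ.source := hd.localInverse_mem_source
  have hPc : ContinuousAt P x₀ := hd.contMDiffAt.continuousAt
  have e1 : ∀ᶠ x in 𝓝 x₀, P x ∈ σ.source := hPc (σ.open_source.mem_nhds hsrc)
  have e2 : ∀ᶠ x in 𝓝 x₀, P x ∈ s := hPc hs
  have e3 : ∀ᶠ x in 𝓝 x₀, x ∈ U := hU.mem_nhds hx₀
  have e4 : ∀ᶠ x in 𝓝 x₀, x ∈ σ.target :=
    σ.open_target.mem_nhds hd.localInverse_mem_target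
  have hinv : ∀ x ∈ σ.target, σ (P x) = x := fun x hx => hd.localInverse_left_inv hx
  let V : E → E := fun x => (mfderiv 𝓘(ℝ, E) 𝓘(ℝ, E) σ (P x)) (X (P x))
  refine ⟨V, ?_, ?_⟩
  · have h1 := σ.contMDiffOn.contMDiffOn_tangentMapWithin (m := 1) (by
      change (2 : WithTop ℕ∞) ≤ ω
      exact le_top) σ.open_source.uniqueMDiffOn
    have h2 : IsOpen (TotalSpace.proj ⁻¹' σ.source : Set (TangentBundle 𝓘(ℝ, E) M)) :=
      σ.open_source.preimage (FiberBundle.continuous_proj E (TangentSpace 𝓘(ℝ, E)))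
    have h3 := (h1 ⟨P x₀, X (P x₀)⟩ hsrc).contMDiffAt (h2.mem_nhds hsrc)
    have h4 : ContMDiffAt 𝓘(ℝ, E) 𝓘(ℝ, E).tangent 1
        (fun x => (⟨P x, X (P x)⟩ : TangentBundle 𝓘(ℝ, E) M)) x₀ :=
      ((hX _ (mem_of_mem_nhds hs)).contMDiffAt hs).comp x₀ (hd.contMDiffAt.of_le (by simp))
    have h5 := h3.comp x₀ h4
    refine (contMDiffAt_vectorSpace_iff_contDiffAt (V := V)).mp ?_
    refine h5.congr_of_eventuallyEq ?_
    filter_upwards [e1, e4] with x hx1 hx4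
    have h6 := tangentMapWithin_eq_tangentMap (I := 𝓘(ℝ, E)) (I' := 𝓘(ℝ, E)) (f := σ)
      (s := σ.source) (p := (⟨P x, X (P x)⟩ : TangentBundle 𝓘(ℝ, E) M))
      (σ.open_source.uniqueMDiffOn _ hx1) (σ.mdifferentiableAt (by simp) hx1)
    rw [Function.comp_apply, h6]
    let mk' : E → E → TangentBundle 𝓘(ℝ, E) E := fun a b => ⟨a, b⟩
    exact (congrArg (fun a => mk' a (V x)) (hinv x hx4)).symm
  · filter_upwards [e1, e2, e3, e4] with x hx1 hx2 hx3 hx4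
    refine ⟨hx3, hx2, ?_⟩
    have hxx := hinv x hx4
    have hPd : MDifferentiableAt 𝓘(ℝ, E) 𝓘(ℝ, E) P (σ (P x)) := by
      rw [hxx]
      exact (hP ⟨x, hx3⟩).mdifferentiableAt (by simp)
    have h1 := mfderiv_comp (P x) hPd (σ.mdifferentiableAt (by simp) hx1)
    have h2 : (P ∘ σ) =ᶠ[𝓝 (P x)] id := by
      filter_upwards [σ.open_source.mem_nhds hx1] with q hq
      exact hd.localInverse_right_inv hq
    have h3 : mfderiv 𝓘(ℝ, E) 𝓘(ℝ, E) (P ∘ σ) (P x) = mfderiv 𝓘(ℝ, E) 𝓘(ℝ, E) id (P x) :=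
      h2.mfderiv_eq
    have h4 : ∀ y, y = x → ∀ v : E, ((mfderiv 𝓘(ℝ, E) 𝓘(ℝ, E) P x : E →L[ℝ] E)) v =
        (mfderiv 𝓘(ℝ, E) 𝓘(ℝ, E) P y : E →L[ℝ] E) v := by
      rintro _ rfl v
      rfl
    have h5 := h4 _ hxx (V x)
    have h6 : (mfderiv 𝓘(ℝ, E) 𝓘(ℝ, E) (P ∘ σ) (P x) : E →L[ℝ] E) (X (P x)) = X (P x) := by
      rw [h3, mfderiv_id]
      rfl
    rw [h1] at h6
    exact h5.trans h6

/-- continuity of the pulled back metric -/
theorem continuousOn_metric (hU : IsOpen U)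
    (hP : IsLocalDiffeomorphOn 𝓘(ℝ, E) 𝓘(ℝ, E) ω P U)
    (g : ContinuousRiemannianMetric E (fun x : M => TangentSpace 𝓘(ℝ, E) x)) :
    ContinuousOn (fun p : E × E => g.inner (P p.1) ((mfderiv 𝓘(ℝ, E) 𝓘(ℝ, E) P p.1) p.2)
      ((mfderiv 𝓘(ℝ, E) 𝓘(ℝ, E) P p.1) p.2)) (U ×ˢ univ) := by
  have : IsManifold 𝓘(ℝ, E) 1 M := IsManifold.of_le (n := ω) (by simp)
  have hT := continuousOn_tangent hU hP.contMDiffOn
  have hPc : ContinuousOn (fun p : E × E => P p.1) (U ×ˢ univ) :=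
    hP.contMDiffOn.continuousOn.comp continuousOn_fst (fun p hp => hp.1)
  intro p hp
  have h := (g.continuous.continuousAt.comp_continuousWithinAt (hPc p hp)).clm_bundle_apply₂
    (F₁ := E) (F₂ := E) (hT p hp) (hT p hp)
  simp only [FiberBundle.continuousWithinAt_totalSpace] at h
  exact h.2

end MP6194L
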