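import Mathlib

/-!
Existence of smooth Riemannian metrics.
-/

open Bundle Set Topology
open scoped Manifold ContDiff

namespace MP6194M

/-- a fixed inner product on the model space -/
noncomputable def g0 (E : Type) [NormedAddCommGroup E] [NormedSpace ℝ E] [FiniteDimensional ℝ E] :
    E →L[ℝ] E →L[ℝ] ℝ :=
  (innerSL ℝ).bilinearComp (toEuclidean : E ≃L[ℝ] _).toContinuousLinearMap
    (toEuclidean : E ≃L[ℝ] _).toContinuousLinearMap

theorem g0_symm {E : Type} [NormedAddCommGroup E] [NormedSpace ℝ E] [FiniteDimensional ℝ E]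
    (v w : E) : g0 E v w = g0 E w v := by
  simp only [g0, ContinuousLinearMap.bilinearComp_apply, innerSL_apply_apply]
  exact real_inner_comm _ _

theorem g0_pos {E : Type} [NormedAddCommGroup E] [NormedSpace ℝ E] [FiniteDimensional ℝ E]
    (v : E) (hv : v ≠ 0) : 0 < g0 E v v := by
  simp only [g0, ContinuousLinearMap.bilinearComp_apply, innerSL_apply_apply]
  apply real_inner_self_pos.2
  intro h
  exact hv ((toEuclidean : E ≃L[ℝ] _).map_eq_zero_iff.1 h)

/-- the unit ball of a positive definite form is bounded -/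
theorem isVonNBounded_of_pos {E : Type} [NormedAddCommGroup E] [NormedSpace ℝ E]
    [FiniteDimensional ℝ E] (b : E →L[ℝ] E →L[ℝ] ℝ) (hb : ∀ v, v ≠ 0 → 0 < b v v) :
    Bornology.IsVonNBounded ℝ {v : E | b v v < 1} := by
  rw [NormedSpace.isVonNBounded_iff, isBounded_iff_forall_norm_le]
  by_cases hs : (Metric.sphere (0 : E) 1).Nonempty
  · have hc : ContinuousOn (fun v : E => b v v) (Metric.sphere (0 : E) 1) := by
      apply Continuous.continuousOn
      fun_prop
    obtain ⟨u, hu, hmin⟩ := (isCompact_sphere (0 : E) 1).exists_isMinOn hs hc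
    have hu0 : u ≠ 0 := by
      rintro rfl
      simp at hu
    have hpos := hb u hu0
    refine ⟨1 / b u u + 1, fun v hv => ?_⟩
    by_contra hlt
    push Not at hlt
    have hv0 : 0 < ‖v‖ := lt_trans (by positivity) hlt
    have hmem : ‖v‖⁻¹ • v ∈ Metric.sphere (0 : E) 1 := by
      rw [mem_sphere_zero_iff_norm, norm_smul, norm_inv, norm_norm, inv_mul_cancel₀ hv0.ne']
    have h1 : b u u ≤ b (‖v‖⁻¹ • v) (‖v‖⁻¹ • v) := hmin hmem
    simp only [map_smul, smul_apply, smul_eq_mul] at h1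
    have h2 : b v v < 1 := hv
    have h3 : 1 / b u u < ‖v‖ := by linarith
    have h4 : 1 < ‖v‖ := by
      have : 0 < 1 / b u u := by positivity
      linarith
    have h5 : b u u * (‖v‖ * ‖v‖) ≤ b v v := by
      have e : b v v = ‖v‖⁻¹ * (‖v‖⁻¹ * b v v) * (‖v‖ * ‖v‖) := by
        field_simp
      rw [e]
      exact mul_le_mul_of_nonneg_right h1 (by positivity)
    have h6 : 1 < b u u * ‖v‖ := by
      rw [div_lt_iff₀ hpos] at h3
      linarith
    nlinarith
  · refine ⟨0, fun v _ => ?_⟩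
    by_contra hlt
    push Not at hlt
    exact hs ⟨‖v‖⁻¹ • v, by
      rw [mem_sphere_zero_iff_norm, norm_smul, norm_inv, norm_norm, inv_mul_cancel₀ hlt.ne']⟩

variable {E : Type} [NormedAddCommGroup E] [NormedSpace ℝ E] [FiniteDimensional ℝ E]
    {M : Type} [TopologicalSpace M] [ChartedSpace E M]

/-- the bundle of bilinear forms on the tangent spaces -/
abbrev V (E : Type) [NormedAddCommGroup E] [NormedSpace ℝ E] (M : Type) [TopologicalSpace M]
    [ChartedSpace E M] (x : M) : Type :=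
  TangentSpace 𝓘(ℝ, E) x →L[ℝ] TangentSpace 𝓘(ℝ, E) x →L[ℝ] ℝ

/-- the pull back of `g0` in the trivialization at `x₀` -/
noncomputable def sloc (x₀ : M) [IsManifold 𝓘(ℝ, E) 1 M] (y : M) : V E M y :=
  (((trivializationAt E (TangentSpace 𝓘(ℝ, E)) x₀).continuousLinearMapAt ℝ y).precomp ℝ).comp
    ((g0 E).comp ((trivializationAt E (TangentSpace 𝓘(ℝ, E)) x₀).continuousLinearMapAt ℝ y))

theorem sloc_apply (x₀ : M) [IsManifold 𝓘(ℝ, E) 1 M] (y : M) (v w : TangentSpace 𝓘(ℝ, E) y) :
    sloc x₀ y v w =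
      g0 E ((trivializationAt E (TangentSpace 𝓘(ℝ, E)) x₀).continuousLinearMapAt ℝ y v)
        ((trivializationAt E (TangentSpace 𝓘(ℝ, E)) x₀).continuousLinearMapAt ℝ y w) := by
  rfl

theorem contMDiffOn_sloc [IsManifold 𝓘(ℝ, E) 1 M] [IsManifold 𝓘(ℝ, E) ∞ M] (x₀ : M) :
    ContMDiffOn 𝓘(ℝ, E) (𝓘(ℝ, E).prod 𝓘(ℝ, E →L[ℝ] E →L[ℝ] ℝ)) ∞
      (fun y => TotalSpace.mk' (E →L[ℝ] E →L[ℝ] ℝ) (E := V E M) y (sloc x₀ y))
      (trivializationAt E (TangentSpace 𝓘(ℝ, E)) x₀).baseSet := by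
  have hb : (trivializationAt E (TangentSpace 𝓘(ℝ, E)) x₀).baseSet ⊆
      (trivializationAt (E →L[ℝ] E →L[ℝ] ℝ) (V E M) x₀).baseSet := by
    intro y hy
    simp only [hom_trivializationAt_baseSet]
    refine ⟨hy, hy, ?_⟩
    simp
  rw [Trivialization.contMDiffOn_section_iff
    (trivializationAt (E →L[ℝ] E →L[ℝ] ℝ) (V E M) x₀)
    (trivializationAt E (TangentSpace 𝓘(ℝ, E)) x₀).open_baseSet hb]
  have hconst : ContMDiffOn 𝓘(ℝ, E) 𝓘(ℝ, E →L[ℝ] E →L[ℝ] ℝ) ∞ (fun _ : M => g0 E)
      (trivializationAt E (TangentSpace 𝓘(ℝ, E)) x₀).baseSet := contMDiffOn_const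
  refine hconst.congr fun y hy => ?_
  rw [hom_trivializationAt_apply]
  ext v w
  have h := inCoordinates_apply_eq₂ (F₁ := E) (E₁ := fun x : M => TangentSpace 𝓘(ℝ, E) x)
    (F₂ := E) (E₂ := fun x : M => TangentSpace 𝓘(ℝ, E) x) (F₃ := ℝ) (E₃ := fun _ : M => ℝ)
    (x₀ := x₀) (x := y) (ϕ := sloc x₀ y) (v := v) (w := w) hy hy (by simp)
  refine Eq.trans h ?_
  rw [sloc_apply]
  have h1 : ∀ u : E, (trivializationAt E (TangentSpace 𝓘(ℝ, E)) x₀).continuousLinearMapAt ℝ y
      ((trivializationAt E (fun x : M => TangentSpace 𝓘(ℝ, E) x) x₀).symm y u) = u := by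
    intro u
    have := (trivializationAt E (TangentSpace 𝓘(ℝ, E)) x₀).continuousLinearMapAt_symmL (R := ℝ) hy u
    rwa [Trivialization.symmL_apply _ hy] at this
  rw [h1, h1]
  simp

/-- A Hausdorff sigma-compact manifold modelled on a finite-dimensional real space carries a
smooth Riemannian metric. -/
theorem exists_metric {E : Type} [NormedAddCommGroup E] [NormedSpace ℝ E] [FiniteDimensional ℝ E]
    {M : Type} [TopologicalSpace M] [ChartedSpace E M] [IsManifold 𝓘(ℝ, E) ω M] [T2Space M]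
    [SigmaCompactSpace M] :
    Nonempty (ContMDiffRiemannianMetric 𝓘(ℝ, E) ∞ E (fun x : M => TangentSpace 𝓘(ℝ, E) x)) := by
  have i1 : IsManifold 𝓘(ℝ, E) 1 M := IsManifold.of_le (n := ω) le_top
  have i2 : IsManifold 𝓘(ℝ, E) (∞ + 1) M := IsManifold.of_le (n := ω) le_top
  have i3 : IsManifold 𝓘(ℝ, E) ∞ M := IsManifold.of_le (n := ω) le_top
  obtain ⟨s, hs⟩ := exists_contMDiffSection_forall_mem_convex_of_local (I := 𝓘(ℝ, E)) (n := (⊤ : ℕ∞))
    (F_fiber := E →L[ℝ] E →L[ℝ] ℝ) (V E M)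
    (fun x => {b : V E M x | (∀ v w, b v w = b w v) ∧ ∀ v, v ≠ 0 → 0 < b v v})
    (by
      intro x b hb c hc p q hp hq hpq
      refine ⟨fun v w => ?_, fun v hv => ?_⟩
      · simp only [add_apply, smul_apply]
        rw [hb.1 v w, hc.1 v w]
      · simp only [add_apply, smul_apply, smul_eq_mul]
        have h1 := hb.2 v hv
        have h2 := hc.2 v hv
        rcases hp.eq_or_lt with h | h
        · rw [← h] at hpq ⊢
          rw [zero_add] at hpq
          rw [hpq]
          linarith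
        · have := mul_pos h h1
          have := mul_nonneg hq h2.le
          linarith)
    (by
      intro x₀
      refine ⟨(trivializationAt E (TangentSpace 𝓘(ℝ, E)) x₀).baseSet,
        (trivializationAt E (TangentSpace 𝓘(ℝ, E)) x₀).open_baseSet.mem_nhds
          (mem_baseSet_trivializationAt _ _ _), sloc x₀, contMDiffOn_sloc x₀, fun y hy => ?_⟩
      refine ⟨fun v w => ?_, fun v hv => ?_⟩
      · rw [sloc_apply, sloc_apply, g0_symm]
      · rw [sloc_apply]
        apply g0_pos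
        intro h
        apply hv
        rw [← Trivialization.coe_continuousLinearEquivAt_eq _ hy] at h
        exact (ContinuousLinearEquiv.map_eq_zero_iff _).1 h)
  refine ⟨⟨fun x => s x, fun x v w => (hs x).1 v w, fun x v hv => (hs x).2 v hv, fun x => ?_,
    s.contMDiff⟩⟩
  exact isVonNBounded_of_pos (E := E) (s x) (hs x).2

end MP6194M
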