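import Pool.Agent.MP_6194a9_an.Split
import Pool.Agent.MP_6194a9_an.Metric

/-!
Invariance, domination and non-smoothness.
-/

open Matrix Filter Topology Bundle
open scoped Matrix.Norms.Elementwise Manifold ContDiff

namespace MP6194

lemma pS_Lp (p v : Mod) : pS (Lp p v) = pS v := by rw [Lp_apply, pS_mk]

/-- the subspaces are invariant in the frame -/
def InvSub (C : Submodule ℝ Mod) : Prop :=
  ∀ x ∈ U, ∀ u : Mod, Lp (ft x) (ft u) ∈ C ↔ Lp x u ∈ C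

lemma inv_Cu : InvSub Cu := by
  intro x hx u
  rw [Lp_ft hx]
  set w := Lp x u
  rw [conj_a2, T_a2, T_a2, mem_Cu, mem_Cu]
  simp only [pY_mk, pX_mk, pS_mk]
  constructor
  · rintro ⟨h1, h2, h3, h4, h5, h6, h7⟩
    rw [h7] at h4 h5 h6
    simp at h1 h2 h3 h4 h5 h6
    exact ⟨h1, h2, h3, h4, h5, h6, h7⟩
  · rintro ⟨h1, h2, h3, h4, h5, h6, h7⟩
    simp [h1, h2, h3, h4, h5, h6, h7]

lemma inv_Cs : InvSub Cs := by
  intro x hx u
  rw [Lp_ft hx]
  set w := Lp x u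
  rw [conj_a2, T_a2, T_a2, mem_Cs, mem_Cs]
  simp only [pY_mk, pX_mk, pS_mk]
  constructor
  · rintro ⟨h1, h2, h3, h4, h5, h6, h7⟩
    rw [h7] at h4 h5 h6
    simp at h1 h2 h3 h4 h5 h6
    exact ⟨h1, h2, h3, h4, h5, h6, h7⟩
  · rintro ⟨h1, h2, h3, h4, h5, h6, h7⟩
    simp [h1, h2, h3, h4, h5, h6, h7]

lemma inv_Cc : InvSub Cc := by
  intro x hx u
  rw [Lp_ft hx]
  set w := Lp x u
  have b0 := bt_00 hx
  have b1 := bt_11 hx
  rw [conj_a2, T_a2, T_a2, mem_Cc, mem_Cc]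
  simp only [pY_mk, pX_mk]
  constructor
  · rintro ⟨h1, h2, h3, h4⟩
    simp [b0, b1] at h1 h2 h3 h4
    exact ⟨h1, h2, h3, h4⟩
  · rintro ⟨h1, h2, h3, h4⟩
    simp [h1, h2, h3, h4, b0, b1]

lemma dfM {x : Mod} (hx : x ∈ U) (v : Mod) :
    (mfderiv 𝓘(ℝ, Mod) 𝓘(ℝ, Mod) fM (P x) (dP x v) : Mod) = (dP (ft x) (ft v) : Mod) :=
  dfM_iter hx 1 v

lemma mem_Dist_iff {C : Submodule ℝ Mod} {x : Mod} (hx : x ∈ U) (u : Mod) :
    dP x u ∈ Dist C (P x) ↔ Lp x u ∈ C := by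
  rw [mem_Dist_P hx]
  constructor
  · rintro ⟨u', h1, h2⟩
    obtain ⟨e, he⟩ := dP_equiv hx
    rw [he, he] at h2
    rw [← e.injective h2]; exact h1
  · intro h
    exact ⟨u, h, rfl⟩

lemma dP_surj {x : Mod} (hx : x ∈ U) (v : TangentSpace 𝓘(ℝ, Mod) (P x)) : ∃ u, dP x u = v := by
  obtain ⟨e, he⟩ := dP_equiv hx
  obtain ⟨u, hu⟩ := e.surjective v
  exact ⟨u, (he u).trans hu⟩

/-- membership in the distributions transported along equal base points -/
lemma mem_Dist_iff' {C : Submodule ℝ Mod} {x : Mod} (hx : x ∈ U) {q : MM} (hq : q = P x)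
    (v : TangentSpace 𝓘(ℝ, Mod) q) (u : Mod) (hv : (v : Mod) = (dP x u : Mod)) :
    v ∈ Dist C q ↔ Lp x u ∈ C := by
  subst hq
  have h : v = dP x u := hv
  rw [h]
  exact mem_Dist_iff hx u

lemma invariant_Dist {C : Submodule ℝ Mod} (hC : InvSub C) (q : MM) :
    (Dist C q).map (mfderiv 𝓘(ℝ, Mod) 𝓘(ℝ, Mod) fM q).toLinearMap = Dist C (fM q) := by
  obtain ⟨x, hx, rfl⟩ := P_surj q
  have hfq : fM (P x) = P (ft x) := fM_P hx
  ext v
  constructor
  · rintro ⟨v0, hv0, rfl⟩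
    obtain ⟨u, rfl⟩ := dP_surj hx v0
    have h1 : Lp x u ∈ C := (mem_Dist_iff hx u).mp hv0
    exact (mem_Dist_iff' (ft_mem hx) hfq _ (ft u) (dfM hx u)).mpr ((hC x hx u).mpr h1)
  · intro hv
    -- find the preimage
    obtain ⟨u', hu'⟩ : ∃ u' : Mod, (dP (ft x) u' : Mod) = (v : Mod) := by
      obtain ⟨e, he⟩ := dP_equiv (ft_mem hx)
      obtain ⟨u', hu'⟩ := e.surjective (show TangentSpace 𝓘(ℝ, Mod) (P (ft x)) from (v : Mod))
      exact ⟨u', (he u').trans hu'⟩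
    have h1 : Lp (ft x) u' ∈ C := (mem_Dist_iff' (ft_mem hx) hfq v u' hu'.symm).mp hv
    have h2 : ft (fti u') = u' := ft_fti u'
    rw [← h2] at h1
    refine ⟨dP x (fti u'), (mem_Dist_iff hx _).mpr ((hC x hx _).mp h1), ?_⟩
    have h3 := dfM hx (fti u')
    rw [h2] at h3
    exact h3.trans hu'

/-- comparison of the metric with the frame norm -/
lemma metric_bounds (g : ContinuousRiemannianMetric Mod (fun x : MM => TangentSpace 𝓘(ℝ, Mod) x)) :
    ∃ c C : ℝ, 0 < c ∧ c ≤ C ∧ ∀ (q : MM) (w : Mod),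
      c * ‖w‖ ≤ HolPH.len g q (Fr q w) ∧ HolPH.len g q (Fr q w) ≤ C * ‖w‖ := by
  obtain ⟨K, hK, hsurj⟩ := exists_fd
  have hK' : IsCompact (Subtype.val '' K : Set Mod) := hK.image continuous_subtype_val
  have hKU : (Subtype.val '' K : Set Mod) ⊆ U := by
    rintro _ ⟨x, _, rfl⟩; exact x.2
  have hS : IsCompact (Metric.sphere (0 : Mod) 1) := isCompact_sphere _ _
  have hne : (Metric.sphere (0 : Mod) 1).Nonempty := by
    have h0 : mk 0 0 1 ≠ (0 : Mod) := by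
      intro h
      have := congrArg pS h
      simp at this
    have : Nontrivial Mod := ⟨⟨_, _, h0⟩⟩
    exact NormedSpace.sphere_nonempty.mpr zero_le_one
  have hKne : (Subtype.val '' K : Set Mod).Nonempty := by
    obtain ⟨p⟩ : Nonempty U := inferInstance
    obtain ⟨σ, hσ⟩ := hsurj p
    exact ⟨_, ⟨_, hσ, rfl⟩⟩
  -- the function
  have hcont : ContinuousOn (fun p : Mod × Mod => g.inner (P p.1) (dP p.1 (Lq p.1 p.2))
      (dP p.1 (Lq p.1 p.2))) ((U : Set Mod) ×ˢ Set.univ) := by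
    have h1 := MP6194L.continuousOn_metric U.isOpen P_locR g
    exact h1.comp (f := fun p : Mod × Mod => (p.1, Lq p.1 p.2))
      (continuousOn_fst.prodMk continuousOn_Lq) (fun p hp => ⟨hp.1, Set.mem_univ _⟩)
  have hcont' := hcont.mono (Set.prod_mono hKU (Set.subset_univ (Metric.sphere (0 : Mod) 1)))
  have hcomp := hK'.prod hS
  obtain ⟨pmin, hpmin, hmin⟩ := hcomp.exists_isMinOn (hKne.prod hne) hcont'
  obtain ⟨pmax, hpmax, hmax⟩ := hcomp.exists_isMaxOn (hKne.prod hne) hcont'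
  set F : Mod × Mod → ℝ := fun p => g.inner (P p.1) (dP p.1 (Lq p.1 p.2))
      (dP p.1 (Lq p.1 p.2)) with hF
  have hFpos : ∀ x ∈ U, ∀ w : Mod, w ≠ 0 → 0 < F (x, w) := by
    intro x hx w hw
    apply g.pos
    intro h
    rw [← Fr_P hx] at h
    have h2 : Fr (P x) w = Fr (P x) 0 := by rw [h, map_zero]
    exact hw ((Fr_bij (P x)).1 h2)
  have hw1 : ∀ w ∈ Metric.sphere (0 : Mod) 1, w ≠ 0 := by
    intro w hw h
    rw [h, mem_sphere_zero_iff_norm, norm_zero] at hw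
    exact zero_ne_one hw
  have hminpos : 0 < F pmin := hFpos _ (hKU hpmin.1) _ (hw1 _ hpmin.2)
  -- value of the quadratic form
  have key : ∀ (q : MM) (w : Mod), F pmin * ‖w‖ ^ 2 ≤ g.inner q (Fr q w) (Fr q w) ∧
      g.inner q (Fr q w) (Fr q w) ≤ F pmax * ‖w‖ ^ 2 := by
    intro q w
    obtain ⟨x, hx, rfl⟩ : ∃ x ∈ (Subtype.val '' K : Set Mod), P x = q := by
      obtain ⟨y, hy, rfl⟩ := P_surj q
      obtain ⟨σ, hσ⟩ := hsurj ⟨y, hy⟩
      refine ⟨((σ • (⟨y, hy⟩ : U) : U) : Mod), ⟨_, hσ, rfl⟩, ?_⟩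
      obtain ⟨k, gg, l, m, hg, hl, hm, h4⟩ := DG_spec σ
      rw [h4]
      exact P_act hg hl hm hy
    have hxU : x ∈ U := hKU hx
    by_cases hw : w = 0
    · subst hw
      simp
    · have hwn : 0 < ‖w‖ := norm_pos_iff.mpr hw
      have hu : ‖w‖⁻¹ • w ∈ Metric.sphere (0 : Mod) 1 := by
        rw [mem_sphere_zero_iff_norm, norm_smul, norm_inv, norm_norm]
        exact inv_mul_cancel₀ hwn.ne'
      have e : g.inner (P x) (Fr (P x) w) (Fr (P x) w) = ‖w‖ ^ 2 * F (x, ‖w‖⁻¹ • w) := by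
        have h1 : Fr (P x) w = ‖w‖ • Fr (P x) (‖w‖⁻¹ • w) := by
          rw [← map_smul, smul_smul, mul_inv_cancel₀ hwn.ne', one_smul]
        have h2 : F (x, ‖w‖⁻¹ • w) = g.inner (P x) (Fr (P x) (‖w‖⁻¹ • w))
            (Fr (P x) (‖w‖⁻¹ • w)) := by
          rw [Fr_P hxU]
        rw [h2]
        generalize Fr (P x) (‖w‖⁻¹ • w) = z at *
        rw [h1]
        simp only [map_smul, _root_.smul_apply, smul_eq_mul]
        ring
      rw [e]
      have m1 : F pmin ≤ F (x, ‖w‖⁻¹ • w) := hmin (Set.mk_mem_prod hx hu)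
      have m2 : F (x, ‖w‖⁻¹ • w) ≤ F pmax := hmax (Set.mk_mem_prod hx hu)
      constructor
      · nlinarith [sq_nonneg ‖w‖]
      · nlinarith [sq_nonneg ‖w‖]
  have hle : F pmin ≤ F pmax := hmin hpmax
  refine ⟨Real.sqrt (F pmin), Real.sqrt (F pmax), Real.sqrt_pos.mpr hminpos,
    Real.sqrt_le_sqrt hle, ?_⟩
  intro q w
  obtain ⟨k1, k2⟩ := key q w
  unfold HolPH.len
  constructor
  · rw [← Real.sqrt_sq (norm_nonneg w), ← Real.sqrt_mul hminpos.le]
    exact Real.sqrt_le_sqrt k1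
  · rw [← Real.sqrt_sq (norm_nonneg w), ← Real.sqrt_mul (hminpos.le.trans hle)]
    exact Real.sqrt_le_sqrt k2

/-- length of the image of a vector under an iterate -/
lemma len_iter (g : ContinuousRiemannianMetric Mod (fun x : MM => TangentSpace 𝓘(ℝ, Mod) x))
    {c C : ℝ} (h : ∀ (q : MM) (w : Mod),
      c * ‖w‖ ≤ HolPH.len g q (Fr q w) ∧ HolPH.len g q (Fr q w) ≤ C * ‖w‖)
    {x : Mod} (hx : x ∈ U) (u : Mod) (n : ℕ) :
    c * ‖Lp (ft^[n] x) (ft^[n] u)‖ ≤ HolPH.len g (fM^[n] (P x))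
      (mfderiv 𝓘(ℝ, Mod) 𝓘(ℝ, Mod) fM^[n] (P x) (dP x u)) ∧
    HolPH.len g (fM^[n] (P x))
      (mfderiv 𝓘(ℝ, Mod) 𝓘(ℝ, Mod) fM^[n] (P x) (dP x u)) ≤
      C * ‖Lp (ft^[n] x) (ft^[n] u)‖ := by
  have hn := iter_mem hx n
  have h1 := h (P (ft^[n] x)) (Lp (ft^[n] x) (ft^[n] u))
  rw [Fr_P hn, Lq_Lp hn] at h1
  have h2 := dfM_iter hx n u
  have h3 := fM_iter hx n
  have h4 : ∀ (q : MM) (v : TangentSpace 𝓘(ℝ, Mod) q), q = P (ft^[n] x) →
      (v : Mod) = (dP (ft^[n] x) (ft^[n] u) : Mod) →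
      HolPH.len g q v = HolPH.len g (P (ft^[n] x)) (dP (ft^[n] x) (ft^[n] u)) := by
    intro q v hq hv
    subst hq
    have hv' : v = dP (ft^[n] x) (ft^[n] u) := hv
    rw [hv']
  rw [h4 _ _ h3 h2]
  exact h1

lemma exists_large (A B : ℝ) : ∃ N : ℕ, 1 ≤ N ∧ A * (1 + N * B) < 2 ^ N := by
  have h1 : Tendsto (fun n : ℕ => (n : ℝ) / 2 ^ n) atTop (𝓝 0) := by
    have := tendsto_pow_const_div_const_pow_of_one_lt 1 (one_lt_two : (1 : ℝ) < 2)
    simpa using this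
  have h2 : Tendsto (fun n : ℕ => A * (1 / 2 ^ n) + A * B * ((n : ℝ) / 2 ^ n)) atTop (𝓝 0) := by
    have h3 : Tendsto (fun n : ℕ => (1 : ℝ) / 2 ^ n) atTop (𝓝 0) := tendsto_div_two_pow 1
    have h4 := (h3.const_mul A).add (h1.const_mul (A * B))
    simpa using h4
  have h3 := (h2.eventually (gt_mem_nhds (zero_lt_one (α := ℝ)))).and (eventually_ge_atTop 1)
  obtain ⟨N, hN, hN1⟩ := h3.exists
  refine ⟨N, hN1, ?_⟩
  have hp : (0 : ℝ) < 2 ^ N := by positivity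
  have e : A * (1 / 2 ^ N) + A * B * ((N : ℝ) / 2 ^ N) = A * (1 + N * B) / 2 ^ N := by
    field_simp
  rw [e, div_lt_one hp] at hN
  exact hN

/-- the numerical inequalities used for domination -/
lemma numeric {r A t : ℝ} (hr1 : 1 ≤ r) (hA1 : 1 ≤ A) (ht : 0 < t) (h : r ^ 2 * A < t) :
    r / t < 1 ∧ r / t < 1 / (r * A) ∧ 1 < t / r ∧ r * A < t / r := by
  have hr0 : 0 < r := by linarith
  have hA0 : 0 < A := by linarith
  have h1 : r ≤ r ^ 2 * A := by nlinarith [mul_nonneg hr0.le (sub_nonneg.mpr hA1)]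
  refine ⟨?_, ?_, ?_, ?_⟩
  · rw [div_lt_one ht]; linarith
  · rw [div_lt_div_iff₀ ht (mul_pos hr0 hA0)]
    calc r * (r * A) = r ^ 2 * A := by ring
      _ < t := h
      _ = 1 * t := (one_mul t).symm
  · rw [lt_div_iff₀ hr0]; linarith
  · rw [lt_div_iff₀ hr0]
    calc r * A * r = r ^ 2 * A := by ring
      _ < t := h

/-- the domination estimates for every continuous metric -/
theorem domination
    (g : ContinuousRiemannianMetric Mod (fun x : MM => TangentSpace 𝓘(ℝ, Mod) x)) :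
    ∃ N : ℕ, 1 ≤ N ∧ ∀ x : MM, ∀ vs ∈ Dist Cs x, ∀ vc ∈ Dist Cc x, ∀ vu ∈ Dist Cu x,
    HolPH.len g x vs = 1 → HolPH.len g x vc = 1 → HolPH.len g x vu = 1 →
      HolPH.len g (fM^[N] x) (mfderiv 𝓘(ℝ, Mod) 𝓘(ℝ, Mod) fM^[N] x vs)
        < min 1 (HolPH.len g (fM^[N] x) (mfderiv 𝓘(ℝ, Mod) 𝓘(ℝ, Mod) fM^[N] x vc)) ∧
      max 1 (HolPH.len g (fM^[N] x) (mfderiv 𝓘(ℝ, Mod) 𝓘(ℝ, Mod) fM^[N] x vc))
        < HolPH.len g (fM^[N] x) (mfderiv 𝓘(ℝ, Mod) 𝓘(ℝ, Mod) fM^[N] x vu) := by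
  obtain ⟨c, C, hc, hcC, hm⟩ := metric_bounds g
  obtain ⟨B, hB0, hB⟩ := iter_c_bound
  have hC : 0 < C := hc.trans_le hcC
  obtain ⟨N, hN1, hN⟩ := exists_large ((C / c) ^ 2) B
  refine ⟨N, hN1, ?_⟩
  intro q vs hvs vc hvc vu hvu ls lc lu
  obtain ⟨x, hx, rfl⟩ := P_surj q
  obtain ⟨us, rfl⟩ := dP_surj hx vs
  obtain ⟨uc, rfl⟩ := dP_surj hx vc
  obtain ⟨uu, rfl⟩ := dP_surj hx vu
  have ws := (mem_Dist_iff hx us).mp hvs
  have wc := (mem_Dist_iff hx uc).mp hvc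
  have wu := (mem_Dist_iff hx uu).mp hvu
  -- initial norms
  have hinit : ∀ u : Mod, HolPH.len g (P x) (dP x u) = 1 → 1 ≤ C * ‖Lp x u‖ ∧ c * ‖Lp x u‖ ≤ 1 := by
    intro u hu
    have h1 := hm (P x) (Lp x u)
    rw [Fr_P hx, Lq_Lp hx, hu] at h1
    exact ⟨h1.2, h1.1⟩
  obtain ⟨s1, s2⟩ := hinit us ls
  obtain ⟨c1, c2⟩ := hinit uc lc
  obtain ⟨u1, u2⟩ := hinit uu lu
  obtain ⟨S1, S2⟩ := len_iter g hm hx us N
  obtain ⟨C1, C2⟩ := len_iter g hm hx uc N
  obtain ⟨U1, U2⟩ := len_iter g hm hx uu N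
  rw [iter_s hx ws N, norm_smul] at S1 S2
  rw [iter_u hx wu N, norm_smul] at U1 U2
  obtain ⟨B1, B2⟩ := hB x hx uc wc N
  have n2 : ‖(2 ^ N : ℝ)‖ = 2 ^ N := by rw [Real.norm_of_nonneg (by positivity)]
  have n3 : ‖((2⁻¹) ^ N : ℝ)‖ = ((2 : ℝ) ^ N)⁻¹ := by
    rw [Real.norm_of_nonneg (by positivity), inv_pow]
  rw [n3] at S1 S2
  rw [n2] at U1 U2
  have hp : (0 : ℝ) < 2 ^ N := by positivity
  set A : ℝ := 1 + N * B with hA
  have hA1 : 1 ≤ A := by
    rw [hA]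
    have : 0 ≤ (N : ℝ) * B := by positivity
    linarith
  set r : ℝ := C / c with hr
  have hr1 : 1 ≤ r := by rw [hr, le_div_iff₀ hc]; linarith
  have hCr : C = r * c := by rw [hr]; field_simp
  -- the four numbers
  have hs : HolPH.len g (fM^[N] (P x)) (mfderiv 𝓘(ℝ, Mod) 𝓘(ℝ, Mod) fM^[N] (P x) (dP x us))
      ≤ r / 2 ^ N := by
    refine S2.trans ?_
    rw [hCr, le_div_iff₀ hp]
    calc r * c * ((2 ^ N)⁻¹ * ‖Lp x us‖) * 2 ^ N = r * (c * ‖Lp x us‖) := by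
          field_simp
      _ ≤ r * 1 := mul_le_mul_of_nonneg_left s2 (by linarith)
      _ = r := mul_one r
  have hcl : 1 / (r * A) ≤
      HolPH.len g (fM^[N] (P x)) (mfderiv 𝓘(ℝ, Mod) 𝓘(ℝ, Mod) fM^[N] (P x) (dP x uc)) := by
    refine le_trans ?_ C1
    rw [div_le_iff₀ (by positivity)]
    calc (1 : ℝ) ≤ C * ‖Lp x uc‖ := c1
      _ ≤ C * (A * ‖Lp (ft^[N] x) (ft^[N] uc)‖) := mul_le_mul_of_nonneg_left B2 hC.le
      _ = c * ‖Lp (ft^[N] x) (ft^[N] uc)‖ * (r * A) := by rw [hCr]; ring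
  have hcu : HolPH.len g (fM^[N] (P x)) (mfderiv 𝓘(ℝ, Mod) 𝓘(ℝ, Mod) fM^[N] (P x) (dP x uc))
      ≤ r * A := by
    refine C2.trans ?_
    calc C * ‖Lp (ft^[N] x) (ft^[N] uc)‖ ≤ C * (A * ‖Lp x uc‖) :=
          mul_le_mul_of_nonneg_left B1 hC.le
      _ = r * A * (c * ‖Lp x uc‖) := by rw [hCr]; ring
      _ ≤ r * A * 1 := mul_le_mul_of_nonneg_left c2 (by positivity)
      _ = r * A := mul_one _
  have hu : 2 ^ N / r ≤
      HolPH.len g (fM^[N] (P x)) (mfderiv 𝓘(ℝ, Mod) 𝓘(ℝ, Mod) fM^[N] (P x) (dP x uu)) := by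
    refine le_trans ?_ U1
    rw [div_le_iff₀ (by positivity)]
    calc (2 : ℝ) ^ N = 2 ^ N * 1 := (mul_one _).symm
      _ ≤ 2 ^ N * (C * ‖Lp x uu‖) := mul_le_mul_of_nonneg_left u1 hp.le
      _ = c * (2 ^ N * ‖Lp x uu‖) * r := by rw [hCr]; ring
  have hN' : r ^ 2 * A < 2 ^ N := hN
  obtain ⟨q1, q2, q3, q4⟩ := numeric hr1 hA1 hp hN'
  constructor
  · exact lt_min (hs.trans_lt q1) ((hs.trans_lt q2).trans_le hcl)
  · exact max_lt (q3.trans_le hu) ((hcu.trans_lt q4).trans_le hu)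

/-- the center distribution is nowhere continuously differentiable -/
theorem not_C1 (p : MM) : ¬ HolPH.SpannedNear 1 (Dist Cc) p := by
  rintro ⟨s, hs, k, X, hX, hspan⟩
  obtain ⟨x0, hx0, rfl⟩ := P_surj p
  have hpull := fun i => MP6194L.exists_pullback U.isOpen P_locR (X i) hx0 hs (hX i)
  choose V hV1 hV2 using hpull
  -- one of the fields has nonzero last component at the base point
  obtain ⟨i, hi⟩ : ∃ i, pS (V i x0) ≠ 0 := by
    by_contra hcon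
    push Not at hcon
    have hmem : dP x0 (Lq x0 (mk 0 0 1)) ∈ Dist Cc (P x0) := by
      rw [mem_Dist_iff hx0, Lp_Lq hx0, mem_Cc]
      simp
    rw [hspan _ (mem_of_mem_nhds hs)] at hmem
    have hfun : (fun i => X i (P x0)) = fun i => dP x0 (V i x0) := by
      funext i
      exact ((hV2 i).self_of_nhds.2.2).symm
    rw [hfun] at hmem
    have h1 : Submodule.span ℝ (Set.range fun i => dP x0 (V i x0))
        = (Submodule.span ℝ (Set.range fun i => V i x0)).map (dP x0).toLinearMap := by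
      rw [Submodule.map_span, ← Set.range_comp]; rfl
    rw [h1] at hmem
    obtain ⟨z, hz, hz2⟩ := hmem
    obtain ⟨e, he⟩ := dP_equiv hx0
    have hz3 : z = Lq x0 (mk 0 0 1) := by
      apply e.injective
      rw [← he, ← he]; exact hz2
    have hker : Submodule.span ℝ (Set.range fun i => V i x0)
        ≤ LinearMap.ker (pS.restrictScalars ℝ : Mod →L[ℝ] ℂ).toLinearMap := by
      rw [Submodule.span_le]
      rintro _ ⟨i, rfl⟩
      exact hcon i
    have hz4 : pS z = 0 := hker hz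
    rw [hz3, Lq_apply, pS_mk, pS_mk] at hz4
    exact one_ne_zero hz4
  -- the equation satisfied near the base point
  have hev : ∀ᶠ x in 𝓝 x0, x ∈ U ∧ Q (pX (V i x)) (col0 (pY x)) = pS (V i x) * phi (col0 (pY x)) := by
    filter_upwards [hV2 i] with x hx
    obtain ⟨hxU, hxs, hdx⟩ := hx
    refine ⟨hxU, ?_⟩
    have h1 : dP x (V i x) ∈ Dist Cc (P x) := by
      rw [hspan _ hxs]
      apply Submodule.subset_span
      exact ⟨i, hdx.symm⟩
    rw [mem_Dist_iff hxU, mem_Cc] at h1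
    obtain ⟨-, -, -, h4⟩ := h1
    rw [Lp_apply, pX_mk, T_11] at h4
    have h5 : Q (pX (V i x) - pS (V i x) • Nm (pY x)) (col0 (pY x)) = 0 := by
      rcases mul_eq_zero.mp h4 with h6 | h6
      · exact absurd h6 (inv_ne_zero (norm_det_ne hxU))
      · exact h6
    rw [Q_sub_left, Q_smul_left, Q_Nm_col0 hxU] at h5
    linear_combination h5
  -- the path
  set y0 := pY x0 with hy0
  let path : ℂ → Mod := fun t => mk (y0 * !![1, 0; t, 1]) (pX x0) (pS x0)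
  have hpath0 : path 0 = x0 := by
    apply mod_ext
    · show y0 * !![1, 0; 0, 1] = y0
      rw [← Matrix.one_fin_two, Matrix.mul_one]
    · rfl
    · rfl
  have hpathd : DifferentiableAt ℝ path 0 := by
    have h1 : path = fun t => mk y0 (pX x0) (pS x0) + t • mk (y0 * !![0, 0; 1, 0]) 0 0 := by
      funext t
      rw [mk_smul, mk_add]
      simp only [smul_zero, add_zero, mul_zero]
      show mk (y0 * !![1, 0; t, 1]) (pX x0) (pS x0) = _
      congr 1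
      rw [← Matrix.mul_smul]
      nth_rewrite 2 [← Matrix.mul_one y0]
      rw [← Matrix.mul_add]
      congr 1
      ext a b
      fin_cases a <;> fin_cases b <;> simp
    rw [h1]
    apply DifferentiableAt.const_add
    exact differentiableAt_id.smul_const _
  have hcol : ∀ t, col0 (pY (path t)) = y0 *ᵥ ![1, t] := by
    intro t
    show col0 (y0 * !![1, 0; t, 1]) = _
    rw [col0_mul]
    congr 1
    ext a
    fin_cases a <;> simp [col0]
  -- differentiability of the quotient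
  have hVd : DifferentiableAt ℝ (fun t => V i (path t)) 0 := by
    have h1 : DifferentiableAt ℝ (V i) (path 0) := by
      rw [hpath0]; exact (hV1 i).differentiableAt (by norm_num)
    exact h1.comp 0 hpathd
  have hSd : DifferentiableAt ℝ (fun t => pS (V i (path t))) 0 :=
    ((pS.restrictScalars ℝ).differentiableAt).comp 0 hVd
  have hXd : ∀ a b, DifferentiableAt ℝ (fun t => pX (V i (path t)) a b) 0 := by
    intro a b
    have h1 : DifferentiableAt ℝ (fun t => pX (V i (path t))) 0 :=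
      ((pX.restrictScalars ℝ).differentiableAt).comp 0 hVd
    exact differentiableAt_pi.mp (differentiableAt_pi.mp h1 a) b
  have hwd : ∀ a, DifferentiableAt ℝ (fun t : ℂ => (y0 *ᵥ ![1, t]) a) 0 := by
    intro a
    have : (fun t : ℂ => (y0 *ᵥ ![1, t]) a) = fun t : ℂ => y0 a 0 + y0 a 1 * t := by
      funext t; simp [Matrix.mulVec, dotProduct, Fin.sum_univ_two]
    rw [this]
    fun_prop
  have hws : ∀ a, DifferentiableAt ℝ (fun t : ℂ => star ((y0 *ᵥ ![1, t]) a)) 0 := by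
    intro a
    exact (hwd a).star
  have hQd : DifferentiableAt ℝ (fun t => Q (pX (V i (path t))) (y0 *ᵥ ![1, t])) 0 := by
    unfold Q
    exact (((((hXd 0 0).mul (hwd 1)).mul (hws 1)).sub (((hXd 0 1).mul (hwd 1)).mul (hws 0))).sub
      (((hXd 1 0).mul (hwd 0)).mul (hws 1))).add (((hXd 1 1).mul (hwd 0)).mul (hws 0))
  have hne : pS (V i (path 0)) ≠ 0 := by rw [hpath0]; exact hi
  have hquot : DifferentiableAt ℝ
      (fun t => Q (pX (V i (path t))) (y0 *ᵥ ![1, t]) / pS (V i (path t))) 0 := by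
    simp only [div_eq_mul_inv]
    exact hQd.mul (hSd.inv hne)
  apply phi_not_differentiableAt (y := y0) hx0
  refine hquot.congr_of_eventuallyEq ?_
  have hcont : ContinuousAt path 0 := hpathd.continuousAt
  have hev' : ∀ᶠ t in 𝓝 (0 : ℂ), path t ∈ U ∧
      Q (pX (V i (path t))) (col0 (pY (path t))) = pS (V i (path t)) * phi (col0 (pY (path t))) := by
    have h9 : ∀ᶠ x in 𝓝 (path 0), x ∈ U ∧
        Q (pX (V i x)) (col0 (pY x)) = pS (V i x) * phi (col0 (pY x)) := by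
      rw [hpath0]; exact hev
    exact Filter.Tendsto.eventually (p := fun x => x ∈ U ∧
        Q (pX (V i x)) (col0 (pY x)) = pS (V i x) * phi (col0 (pY x))) hcont h9
  have hne' : ∀ᶠ t in 𝓝 (0 : ℂ), pS (V i (path t)) ≠ 0 := hSd.continuousAt.eventually_ne hne
  filter_upwards [hev', hne'] with t ht1 ht2
  obtain ⟨-, ht1⟩ := ht1
  rw [hcol] at ht1
  rw [eq_div_iff ht2, ht1]; ring

end MP6194
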