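import Pool.Agent.MP_6194a9_an.FrameMap
import Pool.Agent.MP_6194a9_an.LocDiff

/-!
The manifold, the map, and the frame of its tangent bundle.
-/

open Matrix Filter Topology Bundle
open scoped Matrix.Norms.Elementwise Manifold ContDiff

namespace MP6194

/-- the real structure used on the model space -/
lemma contDiff_act_C (k : ℤ) (g l : Mat) (m : ℂ) : ContDiff ℂ ω (act k g l m) :=
  (actL k g).contDiff.add contDiff_const

lemma contDiff_act_R (k : ℤ) (g l : Mat) (m : ℂ) : ContDiff ℝ ω (act k g l m) :=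
  ((actL k g).restrictScalars ℝ).contDiff.add contDiff_const

lemma deckC : ∀ σ : DG, ∃ F : Mod → Mod, ContDiffOn ℂ ω F U ∧
    ∀ x : U, F x = ((σ • x : U) : Mod) := by
  intro σ
  obtain ⟨k, g, l, m, hg, hl, hm, h⟩ := DG_spec σ
  exact ⟨act k g l m, (contDiff_act_C k g l m).contDiffOn, fun x => (h x).symm⟩

lemma deckR : ∀ σ : DG, ∃ F : Mod → Mod, ContDiffOn ℝ ω F U ∧
    ∀ x : U, F x = ((σ • x : U) : Mod) := by
  intro σ
  obtain ⟨k, g, l, m, hg, hl, hm, h⟩ := DG_spec σ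
  exact ⟨act k g l m, (contDiff_act_R k g l m).contDiffOn, fun x => (h x).symm⟩

instance isManifoldC : IsManifold 𝓘(ℂ, Mod) ω MM := QuotMan.isManifold U DG ℂ ω deckC

instance isManifoldR : IsManifold 𝓘(ℝ, Mod) ω MM := QuotMan.isManifold U DG ℝ ω deckR

/-- the projection to the example manifold -/
noncomputable def P : Mod → MM := QuotMan.proj U DG

lemma P_locC : IsLocalDiffeomorphOn 𝓘(ℂ, Mod) 𝓘(ℂ, Mod) ω P (U : Set Mod) :=
  QuotMan.isLocalDiffeomorphOn U DG ℂ ω deckC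

lemma P_locR : IsLocalDiffeomorphOn 𝓘(ℝ, Mod) 𝓘(ℝ, Mod) ω P (U : Set Mod) :=
  QuotMan.isLocalDiffeomorphOn U DG ℝ ω deckR

lemma P_coe (u : U) : P (u : Mod) = (Quotient.mk _ u : MM) := QuotMan.proj_coe U DG u

lemma P_surj (q : MM) : ∃ x ∈ (U : Set Mod), P x = q := by
  obtain ⟨u, rfl⟩ := Quotient.exists_rep q
  exact ⟨u, u.2, P_coe u⟩

lemma P_act {k : ℤ} {g l : Mat} {m : ℂ} (hg : InG g) (hl : InL l) (hm : InZi m) {x : Mod}
    (hx : x ∈ U) : P (act k g l m x) = P x := by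
  have h1 := P_coe ⟨x, hx⟩
  have h2 := P_coe ⟨act k g l m x, act_mem hg hx⟩
  simp only at h1 h2
  rw [h1, h2]
  exact Quotient.sound (MulAction.orbitRel_apply.mpr ⟨⟨permU k l m hg, permU_mem hg hl hm⟩, rfl⟩)

lemma P_eq {x y : Mod} (hx : x ∈ U) (hy : y ∈ U) (h : P x = P y) :
    ∃ (k : ℤ) (g l : Mat) (m : ℂ), InG g ∧ InL l ∧ InZi m ∧ x = act k g l m y := by
  have h1 := P_coe ⟨x, hx⟩
  have h2 := P_coe ⟨y, hy⟩
  simp only at h1 h2
  rw [h1, h2] at h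
  have h3 := Quotient.exact h
  obtain ⟨σ, hσ⟩ := MulAction.orbitRel_apply.mp h3
  obtain ⟨k, g, l, m, hg, hl, hm, h4⟩ := DG_spec σ
  refine ⟨k, g, l, m, hg, hl, hm, ?_⟩
  rw [← h4 ⟨y, hy⟩]
  simp only at hσ
  rw [hσ]

/-- smooth maps descend -/
lemma contMDiff_descend {𝕜 : Type*} [NontriviallyNormedField 𝕜] [NormedSpace 𝕜 Mod]
    (hP : IsLocalDiffeomorphOn 𝓘(𝕜, Mod) 𝓘(𝕜, Mod) ω P (U : Set Mod))
    {F : Mod → Mod} (hF : ContDiff 𝕜 ω F) (hFU : ∀ x ∈ U, F x ∈ U) {h : MM → MM}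
    (hh : ∀ x ∈ U, h (P x) = P (F x)) : ContMDiff 𝓘(𝕜, Mod) 𝓘(𝕜, Mod) ω h := by
  intro q
  obtain ⟨x, hx, rfl⟩ := P_surj q
  have hloc : IsLocalDiffeomorphAt 𝓘(𝕜, Mod) 𝓘(𝕜, Mod) ω P x := hP ⟨x, hx⟩
  have hs := hloc.localInverse_contMDiffAt
  have hsx : hloc.localInverse (P x) = x := hloc.localInverse_left_inv hloc.localInverse_mem_target
  have h1 : ContMDiffAt 𝓘(𝕜, Mod) 𝓘(𝕜, Mod) ω (fun q => P (F (hloc.localInverse q))) (P x) := by
    have hPF : ContMDiffAt 𝓘(𝕜, Mod) 𝓘(𝕜, Mod) ω P (F (hloc.localInverse (P x))) := by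
      rw [hsx]
      exact (hP ⟨F x, hFU x hx⟩).contMDiffAt
    have hFs : ContMDiffAt 𝓘(𝕜, Mod) 𝓘(𝕜, Mod) ω F (hloc.localInverse (P x)) :=
      hF.contMDiff.contMDiffAt
    have h2 : ContMDiffAt 𝓘(𝕜, Mod) 𝓘(𝕜, Mod) ω (fun q => F (hloc.localInverse q)) (P x) :=
      hFs.comp (P x) hs
    exact ContMDiffAt.comp (P x) (g := P) hPF h2
  refine h1.congr_of_eventuallyEq ?_
  have hcont : ContinuousAt (fun q => hloc.localInverse q) (P x) := hs.continuousAt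
  have hU : ∀ᶠ q in 𝓝 (P x), hloc.localInverse q ∈ (U : Set Mod) := by
    apply hcont.eventually_mem
    rw [hsx]
    exact U.isOpen.mem_nhds hx
  have hr := hloc.localInverse_eventuallyEq_right
  filter_upwards [hU, hr] with q hq1 hq2
  have h3 : P (hloc.localInverse q) = q := hq2
  conv_lhs => rw [← h3]
  exact hh _ hq1

/-- the map -/
noncomputable def fM : MM → MM :=
  Quotient.map (fun p : U => (⟨ft p, ft_mem p.2⟩ : U)) (by
    rintro p q ⟨σ, hσ⟩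
    refine ⟨σ, ?_⟩
    obtain ⟨k, g, l, m, hg, hl, hm, h4⟩ := DG_spec σ
    apply Subtype.ext
    simp only at hσ
    show ((σ • (⟨ft q, ft_mem q.2⟩ : U) : U) : Mod) = ft p
    rw [h4]
    show act k g l m (ft q) = ft p
    rw [← ft_act, ← h4 q, hσ])

noncomputable def fMi : MM → MM :=
  Quotient.map (fun p : U => (⟨fti p, fti_mem p.2⟩ : U)) (by
    rintro p q ⟨σ, hσ⟩
    refine ⟨σ, ?_⟩
    obtain ⟨k, g, l, m, hg, hl, hm, h4⟩ := DG_spec σ
    apply Subtype.ext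
    simp only at hσ
    show ((σ • (⟨fti q, fti_mem q.2⟩ : U) : U) : Mod) = fti p
    rw [h4]
    show act k g l m (fti q) = fti p
    rw [← fti_act, ← h4 q, hσ])

lemma fM_P {x : Mod} (hx : x ∈ U) : fM (P x) = P (ft x) := by
  have h1 := P_coe ⟨x, hx⟩
  have h2 := P_coe ⟨ft x, ft_mem hx⟩
  simp only at h1 h2
  rw [h1, h2]
  rfl

lemma fMi_P {x : Mod} (hx : x ∈ U) : fMi (P x) = P (fti x) := by
  have h1 := P_coe ⟨x, hx⟩
  have h2 := P_coe ⟨fti x, fti_mem hx⟩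
  simp only at h1 h2
  rw [h1, h2]
  rfl

lemma fM_iter {x : Mod} (hx : x ∈ U) (n : ℕ) : fM^[n] (P x) = P (ft^[n] x) := by
  induction n with
  | zero => rfl
  | succ n ih =>
    rw [Function.iterate_succ_apply', Function.iterate_succ_apply', ih, fM_P (iter_mem hx n)]

/-- the biholomorphism -/
noncomputable def fD : MM ≃ₘ^ω⟮𝓘(ℂ, Mod), 𝓘(ℂ, Mod)⟯ MM where
  toFun := fM
  invFun := fMi
  left_inv q := by
    obtain ⟨x, hx, rfl⟩ := P_surj q
    rw [fM_P hx, fMi_P (ft_mem hx), fti_ft]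
  right_inv q := by
    obtain ⟨x, hx, rfl⟩ := P_surj q
    rw [fMi_P hx, fM_P (fti_mem hx), ft_fti]
  contMDiff_toFun := contMDiff_descend P_locC ft.contDiff (fun _ hx => ft_mem hx)
    (fun _ hx => fM_P hx)
  contMDiff_invFun := contMDiff_descend P_locC fti.contDiff (fun _ hx => fti_mem hx)
    (fun _ hx => fMi_P hx)

lemma fM_smoothR : ContMDiff 𝓘(ℝ, Mod) 𝓘(ℝ, Mod) ω fM :=
  contMDiff_descend P_locR (F := ft) (ft.restrictScalars ℝ).contDiff (fun _ hx => ft_mem hx)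
    (fun _ hx => fM_P hx)

end MP6194
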