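import Pool.Agent.MP_6194a9_an.Defs

open Matrix Filter Topology
open scoped Matrix.Norms.Elementwise

namespace MP6194.ND

lemma Q_add (V V' : Mat) (w : Fin 2 → ℂ) : Q (V + V') w = Q V w + Q V' w := by
  simp only [Q, Matrix.add_apply]; ring

lemma Q_smul (c : ℂ) (V : Mat) (w : Fin 2 → ℂ) : Q (c • V) w = c * Q V w := by
  simp only [Q, Matrix.smul_apply, smul_eq_mul]; ring

lemma Q_smul_vec (V : Mat) (c : ℂ) (w : Fin 2 → ℂ) : Q V (c • w) = (‖c‖ ^ 2 : ℂ) * Q V w := by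
  have h : (‖c‖ ^ 2 : ℂ) = c * star c := by
    rw [Complex.star_def, Complex.mul_conj, Complex.normSq_eq_norm_sq]
    push_cast
    rfl
  rw [h]
  simp only [Q, Pi.smul_apply, smul_eq_mul, star_mul']
  ring

lemma Q_mulVec (V A : Mat) (w : Fin 2 → ℂ) :
    Q V (A *ᵥ w) = Q (A.adjugate * V * (A.adjugate)ᴴ) w := by
  simp only [Q, Matrix.mul_apply, Matrix.mulVec, dotProduct, Fin.sum_univ_two,
    Matrix.conjTranspose_apply, Matrix.adjugate_fin_two, Matrix.of_apply, Matrix.cons_val',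
    Matrix.cons_val_zero, Matrix.cons_val_one, Matrix.cons_val_fin_one, star_add, star_mul',
    star_neg]
  ring

lemma continuous_Q (V : Mat) : Continuous (Q V) := by
  unfold Q
  fun_prop

/-- the space of functions `t ↦ Q H (1, t)` -/
noncomputable def W : Submodule ℂ (ℂ → ℂ) :=
  LinearMap.range ({ toFun := fun H t => Q H ![1, t]
                     map_add' := fun H H' => funext fun _ => Q_add H H' _
                     map_smul' := fun c H => funext fun _ => Q_smul c H _ } : Mat →ₗ[ℂ] (ℂ → ℂ))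

lemma mem_W {h : ℂ → ℂ} : h ∈ W ↔ ∃ H : Mat, ∀ t, h t = Q H ![1, t] := by
  unfold W
  rw [LinearMap.mem_range]
  constructor
  · rintro ⟨H, rfl⟩
    exact ⟨H, fun t => rfl⟩
  · rintro ⟨H, hH⟩
    exact ⟨H, (funext hH).symm⟩

lemma isClosed_W : IsClosed (W : Set (ℂ → ℂ)) := by
  have : FiniteDimensional ℂ W := by
    unfold W
    infer_instance
  exact Submodule.closed_of_finiteDimensional W

lemma const_mem_W (c : ℂ) : (fun _ : ℂ => c) ∈ W := by
  rw [mem_W]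
  refine ⟨!![0, 0; 0, c], fun t => ?_⟩
  simp [Q]

lemma real_linear_mem_W (L : ℂ →L[ℝ] ℂ) : (fun t : ℂ => L t) ∈ W := by
  rw [mem_W]
  refine ⟨!![0, -((L 1 - Complex.I * L Complex.I) / 2); -((L 1 + Complex.I * L Complex.I) / 2), 0],
    fun t => ?_⟩
  have ht : L t = t.re * L 1 + t.im * L Complex.I := by
    have h0 : t = (t.re : ℝ) • (1 : ℂ) + (t.im : ℝ) • Complex.I := by
      rw [Complex.real_smul, Complex.real_smul, mul_one]
      exact (Complex.re_add_im t).symm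
    conv_lhs => rw [h0]
    rw [map_add, map_smul, map_smul, Complex.real_smul, Complex.real_smul]
  have h1 : (t.re : ℂ) = (t + star t) / 2 := by
    rw [Complex.star_def, Complex.add_conj]; push_cast; ring
  have h2 : (t.im : ℂ) = -Complex.I * (t - star t) / 2 := by
    rw [Complex.star_def, Complex.sub_conj]; push_cast
    linear_combination (t.im : ℂ) * Complex.I_sq
  rw [ht, h1, h2]
  simp [Q]
  ring

lemma form_mem_W (V A : Mat) : (fun t : ℂ => Q V (A *ᵥ ![1, t])) ∈ W := by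
  rw [mem_W]
  exact ⟨_, fun t => Q_mulVec V A _⟩

/-- the matrix `diag (2 ^ n, 1)` -/
noncomputable def dn (n : ℕ) : Mat := !![(2 : ℂ) ^ n, 0; 0, 1]

lemma det_dn (n : ℕ) : (dn n).det = 2 ^ n := by
  simp [dn, Matrix.det_fin_two]

lemma dn_mulVec (n : ℕ) (t : ℂ) : dn n *ᵥ ![1, t] = ((2 : ℂ) ^ n) • ![1, t / 2 ^ n] := by
  ext i
  fin_cases i
  · simp [dn, Matrix.mulVec, dotProduct, Fin.sum_univ_two]
  · simp [dn, Matrix.mulVec, dotProduct, Fin.sum_univ_two]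
    field_simp

lemma mulVec_ne_zero {A : Mat} (hA : A.det ≠ 0) {w : Fin 2 → ℂ} (hw : w ≠ 0) : A *ᵥ w ≠ 0 := by
  intro h
  exact hw (Matrix.eq_zero_of_mulVec_eq_zero hA h)

lemma one_vec_ne_zero (t : ℂ) : (![1, t] : Fin 2 → ℂ) ≠ 0 := by
  intro h
  have := congrFun h 0
  simp at this

/-- renormalisation: differentiability at one point forces the function to be a hermitian form -/
theorem eq_form_of_differentiableAt (φ : (Fin 2 → ℂ) → ℂ)
    (hcont : ContinuousOn φ {w | w ≠ 0})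
    (hhom : ∀ (c : ℂ) (w : Fin 2 → ℂ), c ≠ 0 → w ≠ 0 → φ (c • w) = (‖c‖ ^ 2 : ℂ) * φ w)
    (heq : ∀ g : Mat, InG g → ∀ w : Fin 2 → ℂ, w ≠ 0 → φ (g *ᵥ w) = φ w + Q (N0 g) (g *ᵥ w))
    (hcoc : ∃ C : ℝ, ∀ y : Mat, y.det ≠ 0 → ∃ (k : ℤ) (g : Mat), InG g ∧
      1 ≤ ‖((2 : ℂ) ^ k • (g * y)).det‖ ∧ ‖((2 : ℂ) ^ k • (g * y)).det‖ ≤ 4 ∧
      ‖(2 : ℂ) ^ k • (g * y)‖ ≤ C)
    (y : Mat) (hy : y.det ≠ 0)
    (hd : DifferentiableAt ℝ (fun t : ℂ => φ (y *ᵥ ![1, t])) 0) :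
    ∃ H : Mat, ∀ w : Fin 2 → ℂ, w ≠ 0 → φ w = Q H w := by
  obtain ⟨C, hC⟩ := hcoc
  have hyn : ∀ n, (y * dn n).det ≠ 0 := fun n => by
    rw [Matrix.det_mul, det_dn]
    exact mul_ne_zero hy (pow_ne_zero _ two_ne_zero)
  choose k g hg h1 h4 hbd using fun n => hC (y * dn n) (hyn n)
  set zn : ℕ → Mat := fun n => (2 : ℂ) ^ k n • (g n * (y * dn n)) with hzn
  have : ProperSpace Mat := FiniteDimensional.proper ℂ Mat
  obtain ⟨z, -, ν, hν, hlim⟩ := (isCompact_closedBall (0 : Mat) C).tendsto_subseq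
    (x := zn) (fun n => by rw [mem_closedBall_zero_iff]; exact hbd n)
  have hdetc : Continuous (fun A : Mat => A.det) := by
    fun_prop
  have hzdet : z.det ≠ 0 := by
    have hl : Tendsto (fun n => ‖(zn (ν n)).det‖) atTop (𝓝 ‖z.det‖) :=
      ((hdetc.norm).tendsto z).comp hlim
    have : 1 ≤ ‖z.det‖ := ge_of_tendsto' hl (fun n => h1 (ν n))
    intro h
    rw [h, norm_zero] at this
    norm_num at this
  have hopen : IsOpen {w : Fin 2 → ℂ | w ≠ 0} := isOpen_ne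
  have hφc : ∀ w : Fin 2 → ℂ, w ≠ 0 → ContinuousAt φ w := fun w hw =>
    hcont.continuousAt (hopen.mem_nhds hw)
  have hmv : ∀ (w : Fin 2 → ℂ), Tendsto (fun n => zn (ν n) *ᵥ w) atTop (𝓝 (z *ᵥ w)) := by
    intro w
    have hc : Continuous (fun A : Mat => A *ᵥ w) := by fun_prop
    exact (hc.tendsto z).comp hlim
  -- the derivative
  set L := fderiv ℝ (fun t : ℂ => φ (y *ᵥ ![1, t])) 0 with hL
  have hderiv := hd.hasFDerivAt
  set f : ℂ → ℂ := fun t => φ (y *ᵥ ![1, t]) with hf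
  set hh : ℕ → ℂ → ℂ := fun n t => (‖(2 : ℂ) ^ k n‖ ^ 2 : ℂ) * ((‖(2 : ℂ) ^ n‖ ^ 2 : ℂ) *
    (f 0 + (2 ^ n : ℂ)⁻¹ * L t) + Q (N0 (g n)) ((g n * (y * dn n)) *ᵥ ![1, t])) with hhh
  have hhW : ∀ n, hh n ∈ W := by
    intro n
    have e : hh n = (‖(2 : ℂ) ^ k n‖ ^ 2 : ℂ) • ((‖(2 : ℂ) ^ n‖ ^ 2 : ℂ) •
      ((fun _ => f 0) + (2 ^ n : ℂ)⁻¹ • (fun t => L t)) +
        fun t => Q (N0 (g n)) ((g n * (y * dn n)) *ᵥ ![1, t])) := by
      ext t
      simp only [hhh, Pi.smul_apply, Pi.add_apply, smul_eq_mul]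
    rw [e]
    exact W.smul_mem _ (W.add_mem (W.smul_mem _ (W.add_mem (const_mem_W _)
      (W.smul_mem _ (real_linear_mem_W L)))) (form_mem_W _ _))
  -- formula for φ (z_n ξ)
  have hform : ∀ n t, φ (zn n *ᵥ ![1, t]) = (‖(2 : ℂ) ^ k n‖ ^ 2 : ℂ) * ((‖(2 : ℂ) ^ n‖ ^ 2 : ℂ) *
    f (t / 2 ^ n) + Q (N0 (g n)) ((g n * (y * dn n)) *ᵥ ![1, t])) := by
    intro n t
    have hw1 : (y * dn n) *ᵥ ![1, t] ≠ 0 := mulVec_ne_zero (hyn n) (one_vec_ne_zero t)
    have hgdet : (g n).det ≠ 0 := by rw [(hg n).2]; exact one_ne_zero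
    have hw2 : (g n * (y * dn n)) *ᵥ ![1, t] ≠ 0 := by
      rw [← Matrix.mulVec_mulVec]
      exact mulVec_ne_zero hgdet hw1
    have hw3 : y *ᵥ ![1, t / 2 ^ n] ≠ 0 := mulVec_ne_zero hy (one_vec_ne_zero _)
    have e1 : zn n *ᵥ ![1, t] = ((2 : ℂ) ^ k n) • ((g n * (y * dn n)) *ᵥ ![1, t]) := by
      rw [hzn]
      simp only [Matrix.smul_mulVec]
    rw [e1, hhom _ _ (zpow_ne_zero _ two_ne_zero) hw2]
    congr 1
    rw [← Matrix.mulVec_mulVec, heq (g n) (hg n) _ hw1]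
    congr 1
    rw [← Matrix.mulVec_mulVec, dn_mulVec, Matrix.mulVec_smul,
      hhom _ _ (pow_ne_zero _ two_ne_zero) hw3]
  -- the error term
  have herr : ∀ t, Tendsto (fun n => φ (zn n *ᵥ ![1, t]) - hh n t) atTop (𝓝 0) := by
    intro t
    have e : ∀ n, φ (zn n *ᵥ ![1, t]) - hh n t = (‖(2 : ℂ) ^ k n‖ ^ 2 : ℂ) *
        (‖(2 : ℂ) ^ n‖ ^ 2 : ℂ) * (f (t / 2 ^ n) - f 0 - L (t / 2 ^ n)) := by
      intro n
      have hLt : L (t / 2 ^ n) = (2 ^ n : ℂ)⁻¹ * L t := by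
        have h0 : t / 2 ^ n = ((2 ^ n : ℝ)⁻¹) • t := by
          rw [Complex.real_smul]
          push_cast
          rw [div_eq_inv_mul]
        rw [h0, map_smul, Complex.real_smul]
        push_cast
        rfl
      rw [hform, hhh, hLt]
      ring
    have hlo : Tendsto (fun n : ℕ => t / 2 ^ n) atTop (𝓝 0) := by
      have : Tendsto (fun n : ℕ => t * (1 / 2 : ℂ) ^ n) atTop (𝓝 (t * 0)) := by
        apply Tendsto.const_mul
        apply tendsto_pow_atTop_nhds_zero_of_norm_lt_one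
        simp
        norm_num
      rw [mul_zero] at this
      refine this.congr fun n => ?_
      rw [one_div, inv_pow, div_eq_mul_inv]
    have hsmall := hderiv.isLittleO.comp_tendsto hlo
    rw [Metric.tendsto_atTop]
    intro ε hε
    set B : ℝ := 4 / ‖y.det‖ with hB
    have hBpos : 0 < B := div_pos (by norm_num) (norm_pos_iff.2 hy)
    have hc : 0 < ε / (2 * (B * (‖t‖ + 1))) := by positivity
    have hev := (hsmall.def hc)
    obtain ⟨n0, hn0⟩ := eventually_atTop.1 hev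
    refine ⟨n0, fun n hn => ?_⟩
    have hbound := hn0 n hn
    simp only [Function.comp_apply, sub_zero] at hbound
    rw [dist_zero_right, e n, norm_mul, norm_mul]
    have hk : ‖((‖(2 : ℂ) ^ k n‖ ^ 2 : ℂ))‖ * ‖((‖(2 : ℂ) ^ n‖ ^ 2 : ℂ))‖ ≤ B * 2 ^ n := by
      have hdet : ‖(zn n).det‖ = ‖(2 : ℂ) ^ k n‖ ^ 2 * (‖y.det‖ * 2 ^ n) := by
        rw [hzn]
        simp only [Matrix.det_smul, Matrix.det_mul, (hg n).2, det_dn, Fintype.card_fin, norm_mul,
          norm_pow, one_mul]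
        simp
      have hle := h4 n
      change ‖(zn n).det‖ ≤ 4 at hle
      rw [hdet] at hle
      have hypos : 0 < ‖y.det‖ := norm_pos_iff.2 hy
      have hle2 : ‖(2 : ℂ) ^ k n‖ ^ 2 * 2 ^ n ≤ B := by
        rw [hB, le_div_iff₀ hypos]
        linarith
      have e1 : ‖((‖(2 : ℂ) ^ k n‖ ^ 2 : ℂ))‖ = ‖(2 : ℂ) ^ k n‖ ^ 2 := by
        rw [norm_pow, Complex.norm_real, norm_norm]
      have e2 : ‖((‖(2 : ℂ) ^ n‖ ^ 2 : ℂ))‖ = 2 ^ n * 2 ^ n := by
        rw [norm_pow, Complex.norm_real, norm_norm, norm_pow, Complex.norm_ofNat, sq]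
      rw [e1, e2, ← mul_assoc]
      exact mul_le_mul_of_nonneg_right hle2 (by positivity)
    have ht : ‖t / 2 ^ n‖ = ‖t‖ / 2 ^ n := by
      rw [norm_div, norm_pow, Complex.norm_ofNat]
    rw [ht] at hbound
    have h2n : (0 : ℝ) < 2 ^ n := by positivity
    calc ‖((‖(2 : ℂ) ^ k n‖ ^ 2 : ℂ))‖ * ‖((‖(2 : ℂ) ^ n‖ ^ 2 : ℂ))‖ *
          ‖f (t / 2 ^ n) - f 0 - L (t / 2 ^ n)‖
        ≤ (B * 2 ^ n) * (ε / (2 * (B * (‖t‖ + 1))) * (‖t‖ / 2 ^ n)) :=
          mul_le_mul hk hbound (norm_nonneg _) (by positivity)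
      _ = ε / 2 * (‖t‖ / (‖t‖ + 1)) := by
          have : ‖t‖ + 1 ≠ 0 := by positivity
          field_simp
      _ ≤ ε / 2 * 1 := by
          apply mul_le_mul_of_nonneg_left _ (by positivity)
          rw [div_le_one (by positivity)]
          linarith
      _ < ε := by linarith
  -- the limit
  have hWlim : (fun t => φ (z *ᵥ ![1, t])) ∈ W := by
    have hten : Tendsto (fun n => hh (ν n)) atTop (𝓝 (fun t => φ (z *ᵥ ![1, t]))) := by
      rw [tendsto_pi_nhds]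
      intro t
      have ha : Tendsto (fun n => φ (zn (ν n) *ᵥ ![1, t])) atTop (𝓝 (φ (z *ᵥ ![1, t]))) :=
        (hφc _ (mulVec_ne_zero hzdet (one_vec_ne_zero t))).tendsto.comp (hmv _)
      have hb := (herr t).comp hν.tendsto_atTop
      have hc := ha.sub hb
      rw [sub_zero] at hc
      refine hc.congr fun n => ?_
      simp only [Function.comp_apply]
      ring
    exact isClosed_W.mem_of_tendsto hten (Eventually.of_forall fun n => hhW _)
  obtain ⟨H', hH'⟩ := mem_W.1 hWlim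
  have hall0 : ∀ ξ : Fin 2 → ℂ, ξ 0 ≠ 0 → φ (z *ᵥ ξ) = Q H' ξ := by
    intro ξ hξ
    have e : ξ = ξ 0 • ![1, ξ 1 / ξ 0] := by
      ext i
      fin_cases i
      · simp
      · simp
        field_simp
    rw [e, Matrix.mulVec_smul, hhom _ _ hξ (mulVec_ne_zero hzdet (one_vec_ne_zero _)),
      Q_smul_vec, hH']
  have hall : ∀ ξ : Fin 2 → ℂ, ξ ≠ 0 → φ (z *ᵥ ξ) = Q H' ξ := by
    intro ξ hξ
    by_cases h0 : ξ 0 = 0
    · have hseq : Tendsto (fun n : ℕ => (![1 / ((n : ℂ) + 1), ξ 1] : Fin 2 → ℂ)) atTop (𝓝 ξ) := by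
        rw [tendsto_pi_nhds]
        intro i
        fin_cases i
        · simp only [Fin.zero_eta, Matrix.cons_val_zero, h0]
          exact tendsto_one_div_add_atTop_nhds_zero_nat
        · simp only [Fin.mk_one, Matrix.cons_val_one, Matrix.cons_val_fin_one]
          exact tendsto_const_nhds
      have ha := (hφc _ (mulVec_ne_zero hzdet hξ)).tendsto.comp
        (((by fun_prop : Continuous fun w : Fin 2 → ℂ => z *ᵥ w).tendsto ξ).comp hseq)
      have hb := ((continuous_Q H').tendsto ξ).comp hseq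
      refine tendsto_nhds_unique ha (hb.congr fun n => ?_)
      simp only [Function.comp_apply]
      rw [hall0]
      simp only [Matrix.cons_val_zero]
      exact one_div_ne_zero (by exact_mod_cast Nat.succ_ne_zero n)
    · exact hall0 ξ h0
  refine ⟨(z⁻¹).adjugate * H' * ((z⁻¹).adjugate)ᴴ, fun w hw => ?_⟩
  have hunit : IsUnit z.det := isUnit_iff_ne_zero.2 hzdet
  have e : w = z *ᵥ (z⁻¹ *ᵥ w) := by
    rw [Matrix.mulVec_mulVec, Matrix.mul_nonsing_inv z hunit, Matrix.one_mulVec]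
  have hinv : (z⁻¹).det ≠ 0 := by
    rw [Matrix.det_nonsing_inv]
    simpa using hzdet
  rw [← Q_mulVec]
  conv_lhs => rw [e]
  exact hall _ (mulVec_ne_zero hinv hw)

end MP6194.ND
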