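import Pool.Agent.MP_6194a9_an.Phi
import Pool.Agent.MP_6194a9_an.NonDiff

/-!
The corrected equivariant map `Nm`.
-/

open Matrix Filter Topology
open scoped Matrix.Norms.Elementwise

namespace MP6194

/-- non-differentiability of `phi` along the lines through the columns -/
theorem phi_not_differentiableAt {y : Mat} (hy : y ∈ GInv) :
    ¬ DifferentiableAt ℝ (fun t : ℂ => phi (y *ᵥ ![1, t])) 0 := by
  intro hd
  obtain ⟨H, hH⟩ := ND.eq_form_of_differentiableAt phi continuousOn_phi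
    (fun c w hc hw => phi_smul hc hw) (fun g hg w hw => phi_group hg hw) base_cocompact y hy hd
  exact phi_ne_form H hH

/-- the diagonal correction -/
noncomputable def dg (y : Mat) : Mat :=
  !![(‖y.det‖ : ℂ)⁻¹ * (phi (col1 y) - Q (N0 y) (col1 y)), 0;
    0, (‖y.det‖ : ℂ)⁻¹ * (phi (col0 y) - Q (N0 y) (col0 y))]

/-- the corrected equivariant map -/
noncomputable def Nm (y : Mat) : Mat := N0 y + (‖y.det‖ : ℂ)⁻¹ • (y * dg y * yᴴ)

lemma T_Nm {y : Mat} (hy : y ∈ GInv) : T y (Nm y) = T y (N0 y) + dg y := by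
  unfold Nm
  rw [T_add, T_conj hy]

lemma Q_eq_T11 {y : Mat} (hy : y ∈ GInv) (V : Mat) : Q V (col0 y) = (‖y.det‖ : ℂ) * T y V 1 1 := by
  rw [T_11]
  have := norm_det_ne hy
  field_simp

lemma Q_eq_T00 {y : Mat} (hy : y ∈ GInv) (V : Mat) : Q V (col1 y) = (‖y.det‖ : ℂ) * T y V 0 0 := by
  rw [T_00]
  have := norm_det_ne hy
  field_simp

lemma Q_Nm_col0 {y : Mat} (hy : y ∈ GInv) : Q (Nm y) (col0 y) = phi (col0 y) := by
  rw [Q_eq_T11 hy, T_Nm hy, Matrix.add_apply, T_11]
  have := norm_det_ne hy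
  simp [dg]
  field_simp
  ring

lemma Q_Nm_col1 {y : Mat} (hy : y ∈ GInv) : Q (Nm y) (col1 y) = phi (col1 y) := by
  rw [Q_eq_T00 hy, T_Nm hy, Matrix.add_apply, T_00]
  have := norm_det_ne hy
  simp [dg]
  field_simp
  ring

lemma dg_act {g y : Mat} (k : ℤ) (hg : InG g) (hy : y ∈ GInv) :
    dg ((2 : ℂ) ^ k • (g * y)) = dg y := by
  have h2 := two_zpow_ne k
  have e0 : col0 ((2 : ℂ) ^ k • (g * y)) = (2 : ℂ) ^ k • (g *ᵥ col0 y) := by
    rw [← col0_mul]; ext i; simp [col0]
  have e1 : col1 ((2 : ℂ) ^ k • (g * y)) = (2 : ℂ) ^ k • (g *ᵥ col1 y) := by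
    rw [← col1_mul]; ext i; simp [col1]
  have hd : (‖((2 : ℂ) ^ k • (g * y)).det‖ : ℂ) = (‖(2 : ℂ) ^ k‖ : ℂ) ^ 2 * (‖y.det‖ : ℂ) := by
    rw [det_smul2, Matrix.det_mul, hg.2, one_mul, norm_mul, norm_pow]
    push_cast; ring
  have hQ : ∀ w : Fin 2 → ℂ, Q (g * N0 y * gᴴ) (g *ᵥ w) = Q (N0 y) w := by
    intro w
    rw [Q_mulVec]
    congr 1
    have h4 := T_group_conj hg (N0 y)
    rw [T_group hg] at h4
    exact h4
  have hn : (‖(2 : ℂ) ^ k‖ : ℂ) ≠ 0 := by
    exact_mod_cast norm_ne_zero_iff.mpr h2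
  have hyn := norm_det_ne hy
  have main : ∀ w : Fin 2 → ℂ, w ≠ 0 →
      (‖((2 : ℂ) ^ k • (g * y)).det‖ : ℂ)⁻¹ * (phi ((2 : ℂ) ^ k • (g *ᵥ w))
        - Q (N0 ((2 : ℂ) ^ k • (g * y))) ((2 : ℂ) ^ k • (g *ᵥ w)))
      = (‖y.det‖ : ℂ)⁻¹ * (phi w - Q (N0 y) w) := by
    intro w hw
    rw [hd, N0_act k hg hy, phi_smul h2 (mulVec_ne hg hw), Q_smul, phi_group hg hw, Q_add_left,
      hQ]
    field_simp
    ring
  unfold dg
  rw [e0, e1, main _ (col0_ne hy), main _ (col1_ne hy)]

lemma Nm_act {g y : Mat} (k : ℤ) (hg : InG g) (hy : y ∈ GInv) :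
    Nm ((2 : ℂ) ^ k • (g * y)) = g * Nm y * gᴴ + N0 g := by
  have hz := act_mem_GInv k hg hy
  apply T_injective hz
  rw [T_Nm hz, dg_act k hg hy, T_add, T_act y _ k hg, T_Nm hy, N0_act k hg hy, T_add,
    T_act y _ k hg]
  abel

lemma continuousOn_dg : ContinuousOn dg GInv := by
  have hinv : ContinuousOn (fun y : Mat => (‖y.det‖ : ℂ)⁻¹) GInv := by
    apply ContinuousOn.inv₀
    · exact (Complex.continuous_ofReal.comp (continuous_norm.comp
        (Continuous.matrix_det continuous_id))).continuousOn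
    · intro y hy
      exact norm_det_ne hy
  have hc0 : Continuous col0 := by unfold col0; fun_prop
  have hc1 : Continuous col1 := by unfold col1; fun_prop
  have hN : ∀ i j, ContinuousOn (fun y : Mat => N0 y i j) GInv := fun i j =>
    (continuous_apply_apply i j).comp_continuousOn continuousOn_N0
  have hQ : ∀ c : Mat → (Fin 2 → ℂ), Continuous c →
      ContinuousOn (fun y : Mat => Q (N0 y) (c y)) GInv := by
    intro c hc
    have h0 : Continuous fun y => c y 0 := (continuous_apply 0).comp hc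
    have h1 : Continuous fun y => c y 1 := (continuous_apply 1).comp hc
    unfold Q
    exact (((((hN 0 0).mul h1.continuousOn).mul h1.star.continuousOn).sub
      (((hN 0 1).mul h1.continuousOn).mul h0.star.continuousOn)).sub
      (((hN 1 0).mul h0.continuousOn).mul h1.star.continuousOn)).add
      (((hN 1 1).mul h0.continuousOn).mul h0.star.continuousOn)
  have hp0 : ContinuousOn (fun y : Mat => phi (col0 y)) GInv :=
    continuousOn_phi.comp hc0.continuousOn (fun y hy => col0_ne hy)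
  have hp1 : ContinuousOn (fun y : Mat => phi (col1 y)) GInv :=
    continuousOn_phi.comp hc1.continuousOn (fun y hy => col1_ne hy)
  rw [continuousOn_iff_continuous_domRestrict]
  refine continuous_matrix ?_
  intro i j
  have h00 := continuousOn_iff_continuous_domRestrict.mp (hinv.mul (hp1.sub (hQ col1 hc1)))
  have h11 := continuousOn_iff_continuous_domRestrict.mp (hinv.mul (hp0.sub (hQ col0 hc0)))
  fin_cases i <;> fin_cases j
  · exact h00
  · exact continuous_const
  · exact continuous_const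
  · exact h11

lemma continuousOn_Nm : ContinuousOn Nm GInv := by
  unfold Nm
  apply continuousOn_N0.add
  refine ContinuousOn.smul (f := fun y : Mat => (‖y.det‖ : ℂ)⁻¹)
    (g := fun y : Mat => y * dg y * yᴴ) ?_ ?_
  · apply ContinuousOn.inv₀
    · exact (Complex.continuous_ofReal.comp (continuous_norm.comp
        (Continuous.matrix_det continuous_id))).continuousOn
    · intro y hy
      exact norm_det_ne hy
  · exact (continuousOn_id.mul continuousOn_dg).mul
      (Continuous.matrix_conjTranspose continuous_id).continuousOn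

/-- the defect of invariance of `Nm` under `diag (2, 1)` in the frame -/
noncomputable def bt (y : Mat) : Mat := T y (Nm y - Nm (y * a2))

lemma col0_a2 (y : Mat) : col0 (y * a2) = (2 : ℂ) • col0 y := by
  ext i
  simp [col0, a2, Matrix.mul_apply, Fin.sum_univ_two, mul_comm]

lemma col1_a2 (y : Mat) : col1 (y * a2) = col1 y := by
  ext i
  simp [col1, a2, Matrix.mul_apply, Fin.sum_univ_two]

lemma bt_11 {y : Mat} (hy : y ∈ GInv) : bt y 1 1 = 0 := by
  have hya := mul_mem_GInv hy a2_mem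
  unfold bt
  rw [T_11, Q_sub_left, Q_Nm_col0 hy]
  have h1 := Q_Nm_col0 hya
  rw [col0_a2, Q_smul, phi_smul two_ne_zero (col0_ne hy)] at h1
  have h2 : ((‖(2 : ℂ)‖ : ℂ)) ^ 2 ≠ 0 := by simp
  have h3 := mul_left_cancel₀ h2 h1
  rw [h3]; ring

lemma bt_00 {y : Mat} (hy : y ∈ GInv) : bt y 0 0 = 0 := by
  have hya := mul_mem_GInv hy a2_mem
  unfold bt
  rw [T_00, Q_sub_left, Q_Nm_col1 hy]
  have h1 := Q_Nm_col1 hya
  rw [col1_a2] at h1
  rw [h1]; ring

lemma bt_act {g y : Mat} (k : ℤ) (hg : InG g) (hy : y ∈ GInv) :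
    bt ((2 : ℂ) ^ k • (g * y)) = bt y := by
  unfold bt
  have e1 : (2 : ℂ) ^ k • (g * y) * a2 = (2 : ℂ) ^ k • (g * (y * a2)) := by
    rw [Matrix.smul_mul, Matrix.mul_assoc]
  rw [e1, Nm_act k hg hy, Nm_act k hg (mul_mem_GInv hy a2_mem)]
  have e2 : g * Nm y * gᴴ + N0 g - (g * Nm (y * a2) * gᴴ + N0 g)
      = g * (Nm y - Nm (y * a2)) * gᴴ := by
    rw [Matrix.mul_sub, Matrix.sub_mul]; abel
  rw [e2, T_act y _ k hg]

lemma continuousOn_bt : ContinuousOn bt GInv := by
  unfold bt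
  apply continuousOn_T2.comp (f := fun y : Mat => (y, Nm y - Nm (y * a2)))
  · apply ContinuousOn.prodMk continuousOn_id
    apply ContinuousOn.sub
    · exact continuousOn_Nm
    · exact continuousOn_Nm.comp (continuous_id.mul continuous_const).continuousOn
        (fun p hp => mul_mem_GInv hp a2_mem)
  · intro p hp
    exact hp

lemma bt_bounded : ∃ B : ℝ, 0 ≤ B ∧ ∀ y ∈ GInv, ‖bt y‖ ≤ B := by
  have h1 : ContinuousOn (fun p : Mat × Unit => bt p.1) (GInv ×ˢ Set.univ) :=
    continuousOn_bt.comp continuousOn_fst (fun p hp => hp.1)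
  obtain ⟨B, hB0, hB⟩ := bounded_of_invariant (X := Unit) (H := Set.univ) isCompact_univ
    (fun y _ => bt y) h1 (fun k g y _ hg hy _ => bt_act k hg hy)
  exact ⟨B, hB0, fun y hy => hB y hy () (Set.mem_univ _)⟩

end MP6194
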