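import Pool.Agent.MP_6194a9_an.Elements
import Pool.Agent.MP_6194a9_an.Coc

/-!
The limit form `phi` and the corrected equivariant map `N`.
-/

open Matrix Filter Topology
open scoped Matrix.Norms.Elementwise

namespace MP6194

/-- invertible matrices -/
def GInv : Set Mat := {y : Mat | y.det ≠ 0}

lemma isOpen_GInv : IsOpen GInv :=
  isOpen_ne_fun (Continuous.matrix_det continuous_id) continuous_const

/-- the compact set of representatives -/
def KB (C : ℝ) : Set Mat := {y | 1 ≤ ‖y.det‖ ∧ ‖y.det‖ ≤ 4 ∧ ‖y‖ ≤ C}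

lemma isCompact_KB (C : ℝ) : IsCompact (KB C) := by
  have hc : Continuous fun y : Mat => ‖y.det‖ :=
    continuous_norm.comp (Continuous.matrix_det continuous_id)
  have h1 : IsClosed (KB C) := by
    apply IsClosed.inter (isClosed_le continuous_const hc)
    exact IsClosed.inter (isClosed_le hc continuous_const)
      (isClosed_le continuous_norm continuous_const)
  apply (isCompact_closedBall (0 : Mat) C).of_isClosed_subset h1
  intro y hy
  rw [mem_closedBall_zero_iff]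
  exact hy.2.2

lemma KB_subset (C : ℝ) : KB C ⊆ GInv := by
  intro y hy h0
  have := hy.1
  rw [h0, norm_zero] at this
  linarith

lemma continuousOn_T2 : ContinuousOn (fun p : Mat × Mat => T p.1 p.2) {p | p.1 ∈ GInv} := by
  unfold T
  refine ContinuousOn.smul (f := fun p : Mat × Mat => (‖p.1.det‖ : ℂ)⁻¹)
    (g := fun p : Mat × Mat => p.1.adjugate * p.2 * (p.1.adjugate)ᴴ) ?_ ?_
  · apply ContinuousOn.inv₀
    · exact (Complex.continuous_ofReal.comp (continuous_norm.comp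
        (Continuous.matrix_det continuous_fst))).continuousOn
    · intro y hy
      exact norm_det_ne hy
  · exact ((Continuous.matrix_adjugate continuous_fst).mul continuous_snd |>.mul
      (Continuous.matrix_conjTranspose (Continuous.matrix_adjugate continuous_fst))).continuousOn

lemma mul_mem_GInv {y h : Mat} (hy : y ∈ GInv) (hh : h ∈ GInv) : y * h ∈ GInv := by
  show (y * h).det ≠ 0
  rw [Matrix.det_mul]; exact mul_ne_zero hy hh

lemma act_mem_GInv {g y : Mat} (k : ℤ) (hg : InG g) (hy : y ∈ GInv) : (2 : ℂ) ^ k • (g * y) ∈ GInv := by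
  show ((2 : ℂ) ^ k • (g * y)).det ≠ 0
  rw [det_smul2, Matrix.det_mul, hg.2, one_mul]
  exact mul_ne_zero (pow_ne_zero _ (zpow_ne_zero _ two_ne_zero)) hy

lemma two_zpow_ne (k : ℤ) : (2 : ℂ) ^ k ≠ 0 := zpow_ne_zero _ two_ne_zero

lemma N0_act {g y : Mat} (k : ℤ) (hg : InG g) (hy : y ∈ GInv) :
    N0 ((2 : ℂ) ^ k • (g * y)) = g * N0 y * gᴴ + N0 g := by
  rw [N0_smul (two_zpow_ne k), N0_mul hg hy]

lemma T_act {g : Mat} (y V : Mat) (k : ℤ) (hg : InG g) :
    T ((2 : ℂ) ^ k • (g * y)) (g * V * gᴴ) = T y V := by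
  rw [T_smul_left (two_zpow_ne k), T_group_mul hg]

/-- an invariant function which is continuous is bounded -/
lemma bounded_of_invariant {X : Type*} [TopologicalSpace X] {H : Set X} (hH : IsCompact H)
    (F : Mat → X → Mat) (hF : ContinuousOn (fun p : Mat × X => F p.1 p.2) (GInv ×ˢ H))
    (hinv : ∀ (k : ℤ) (g y : Mat) (h : X), InG g → y ∈ GInv → h ∈ H →
      F ((2 : ℂ) ^ k • (g * y)) h = F y h) :
    ∃ B : ℝ, 0 ≤ B ∧ ∀ y ∈ GInv, ∀ h ∈ H, ‖F y h‖ ≤ B := by
  obtain ⟨C, hC⟩ := base_cocompact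
  have hcomp : IsCompact (KB C ×ˢ H) := (isCompact_KB C).prod hH
  obtain ⟨B, hB⟩ := hcomp.exists_bound_of_continuousOn
    (hF.mono (Set.prod_mono (KB_subset C) le_rfl))
  refine ⟨max B 0, le_max_right _ _, ?_⟩
  intro y hy h hh
  obtain ⟨k, g, hg, h1, h2, h3⟩ := hC y hy
  rw [← hinv k g y h hg hy hh]
  exact (hB (_, h) ⟨⟨h1, h2, h3⟩, hh⟩).trans (le_max_left _ _)

/-- the basic boundedness statement -/
lemma bounded_diff {H : Set Mat} (hH : IsCompact H) (hHG : H ⊆ GInv) :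
    ∃ B : ℝ, 0 ≤ B ∧ ∀ y ∈ GInv, ∀ h ∈ H, ‖T y (N0 y - N0 (y * h))‖ ≤ B := by
  apply bounded_of_invariant hH (fun y h => T y (N0 y - N0 (y * h)))
  · apply continuousOn_T2.comp (f := fun p : Mat × Mat => (p.1, N0 p.1 - N0 (p.1 * p.2)))
    · apply ContinuousOn.prodMk continuousOn_fst
      apply ContinuousOn.sub
      · exact continuousOn_N0.comp continuousOn_fst (fun p hp => hp.1)
      · exact continuousOn_N0.comp (continuous_fst.mul continuous_snd).continuousOn
          (fun p hp => mul_mem_GInv hp.1 (hHG hp.2))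
    · intro p hp
      exact hp.1
  · intro k g y h hg hy hh
    show T ((2 : ℂ) ^ k • (g * y)) (N0 ((2 : ℂ) ^ k • (g * y)) - N0 ((2 : ℂ) ^ k • (g * y) * h))
      = T y (N0 y - N0 (y * h))
    have e1 : (2 : ℂ) ^ k • (g * y) * h = (2 : ℂ) ^ k • (g * (y * h)) := by
      rw [Matrix.smul_mul, Matrix.mul_assoc]
    rw [e1, N0_act k hg hy, N0_act k hg (mul_mem_GInv hy (hHG hh))]
    have e2 : g * N0 y * gᴴ + N0 g - (g * N0 (y * h) * gᴴ + N0 g)
        = g * (N0 y - N0 (y * h)) * gᴴ := by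
      rw [Matrix.mul_sub, Matrix.sub_mul]; abel
    rw [e2, T_act y _ k hg]

/-- the matrix `diag (2 ^ n, 1)` -/
noncomputable def an (n : ℕ) : Mat := !![2 ^ n, 0; 0, 1]

lemma an_zero : an 0 = 1 := by
  ext i j
  fin_cases i <;> fin_cases j <;> simp [an]

lemma an_succ (n : ℕ) : an (n + 1) = an n * a2 := by
  ext i j
  fin_cases i <;> fin_cases j <;> simp [an, a2, pow_succ]

lemma an_det (n : ℕ) : (an n).det = 2 ^ n := by
  rw [Matrix.det_fin_two]; simp [an]

lemma an_mem (n : ℕ) : an n ∈ GInv := by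
  show (an n).det ≠ 0
  rw [an_det]; exact pow_ne_zero _ two_ne_zero

lemma a2_mem : a2 ∈ GInv := by
  show a2.det ≠ 0
  rw [a2_det]; exact two_ne_zero

lemma col0_mul (y h : Mat) : col0 (y * h) = y *ᵥ col0 h := by
  ext i; simp [col0, Matrix.mul_apply, Matrix.mulVec, dotProduct]

lemma col1_mul (y h : Mat) : col1 (y * h) = y *ᵥ col1 h := by
  ext i; simp [col1, Matrix.mul_apply, Matrix.mulVec, dotProduct]

lemma col0_an (y : Mat) (n : ℕ) : col0 (y * an n) = (2 : ℂ) ^ n • col0 y := by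
  ext i
  simp [col0, an, Matrix.mul_apply, Fin.sum_univ_two, mul_comm]

lemma T_an_11 (y V : Mat) (n : ℕ) : T (y * an n) V 1 1 = 2 ^ n * T y V 1 1 := by
  rw [T_11, T_11, col0_an, Q_smul, Matrix.det_mul, an_det, norm_mul, norm_pow]
  have h2 : ‖(2 : ℂ)‖ = 2 := by simp
  rw [h2]
  push_cast
  have : (2 : ℂ) ^ n ≠ 0 := pow_ne_zero _ two_ne_zero
  rw [mul_inv]
  field_simp

lemma entry_le (V : Mat) (i j : Fin 2) : ‖V i j‖ ≤ ‖V‖ :=
  Matrix.norm_entry_le_entrywise_sup_norm V

/-- the approximating sequence -/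
noncomputable def gn (n : ℕ) (y : Mat) : ℂ := T y (N0 (y * an n)) 1 1

lemma norm_diff_11 {B : ℝ} {H : Set Mat}
    (hB : ∀ y ∈ GInv, ∀ h ∈ H, ‖T y (N0 y - N0 (y * h))‖ ≤ B) {y h : Mat} (hy : y ∈ GInv)
    (hh : h ∈ H) (n : ℕ) :
    ‖T y (N0 (y * an n)) 1 1 - T y (N0 (y * an n * h)) 1 1‖ ≤ B / 2 ^ n := by
  have h1 := hB (y * an n) (mul_mem_GInv hy (an_mem n)) h hh
  have h2 := (entry_le _ 1 1).trans h1
  rw [T_an_11, T_sub, Matrix.sub_apply, norm_mul, norm_pow] at h2
  have h3 : ‖(2 : ℂ)‖ = 2 := by simp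
  rw [h3] at h2
  rw [le_div_iff₀ (by positivity), mul_comm]
  exact h2

lemma exists_limit : ∃ (B : ℝ) (g : Mat → ℂ), 0 ≤ B ∧
    ∀ y ∈ GInv, ∀ n, ‖gn n y - g y‖ ≤ B / 2 ^ n := by
  obtain ⟨B, hB0, hB⟩ := bounded_diff (H := {a2}) isCompact_singleton
    (by intro x hx; rw [Set.mem_singleton_iff.mp hx]; exact a2_mem)
  have hstep : ∀ y ∈ GInv, ∀ n, dist (gn n y) (gn (n + 1) y) ≤ (2 * B) / 2 / 2 ^ n := by
    intro y hy n
    have h1 := norm_diff_11 hB hy (Set.mem_singleton a2) n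
    rw [dist_eq_norm]
    unfold gn
    rw [an_succ, ← Matrix.mul_assoc]
    calc _ ≤ B / 2 ^ n := h1
      _ = _ := by ring
  have hcau : ∀ y ∈ GInv, CauchySeq (fun n => gn n y) := fun y hy =>
    cauchySeq_of_le_geometric_two (hstep y hy)
  refine ⟨2 * B, fun y => limUnder atTop (fun n => gn n y), by linarith, ?_⟩
  intro y hy n
  have ht := (hcau y hy).tendsto_limUnder
  have := dist_le_of_le_geometric_two_of_tendsto (hstep y hy) ht n
  rw [dist_eq_norm] at this
  exact this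

/-- the limit of the approximating sequence -/
noncomputable def gl : Mat → ℂ := exists_limit.choose_spec.choose

lemma gl_spec : ∃ B : ℝ, 0 ≤ B ∧ ∀ y ∈ GInv, ∀ n, ‖gn n y - gl y‖ ≤ B / 2 ^ n :=
  ⟨exists_limit.choose, exists_limit.choose_spec.choose_spec⟩

lemma tendsto_div_two_pow (B : ℝ) : Tendsto (fun n : ℕ => B / 2 ^ n) atTop (𝓝 0) := by
  have h : Tendsto (fun n : ℕ => B * (1 / 2 : ℝ) ^ n) atTop (𝓝 (B * 0)) :=
    (tendsto_pow_atTop_nhds_zero_of_lt_one (by norm_num) (by norm_num)).const_mul B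
  rw [mul_zero] at h
  refine h.congr ?_
  intro n
  simp [div_eq_mul_inv]

lemma gn_tendsto {y : Mat} (hy : y ∈ GInv) : Tendsto (fun n => gn n y) atTop (𝓝 (gl y)) := by
  obtain ⟨B, hB0, hB⟩ := gl_spec
  rw [tendsto_iff_norm_sub_tendsto_zero]
  exact squeeze_zero (fun n => norm_nonneg _) (hB y hy) (tendsto_div_two_pow B)

lemma continuousOn_gn (n : ℕ) : ContinuousOn (gn n) GInv := by
  unfold gn
  have h1 : ContinuousOn (fun y : Mat => T y (N0 (y * an n))) GInv := by
    apply continuousOn_T2.comp (f := fun y : Mat => (y, N0 (y * an n)))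
    · apply ContinuousOn.prodMk continuousOn_id
      exact continuousOn_N0.comp (continuous_id.mul continuous_const).continuousOn
        (fun p hp => mul_mem_GInv hp (an_mem n))
    · intro p hp
      exact hp
  exact (continuous_apply_apply (1 : Fin 2) (1 : Fin 2)).comp_continuousOn h1

lemma continuousOn_gl : ContinuousOn gl GInv := by
  obtain ⟨B, hB0, hB⟩ := gl_spec
  have hunif : TendstoUniformlyOn gn gl atTop GInv := by
    rw [Metric.tendstoUniformlyOn_iff]
    intro ε hε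
    have := (tendsto_div_two_pow B).eventually (gt_mem_nhds hε)
    filter_upwards [this] with n hn y hy
    rw [dist_comm, dist_eq_norm]
    exact (hB y hy n).trans_lt hn
  exact hunif.continuousOn (Eventually.frequently (Eventually.of_forall continuousOn_gn))

/-- the limit form as a function of the frame -/
noncomputable def Gf (y : Mat) : ℂ := (‖y.det‖ : ℂ) * gl y

lemma gn_eq (n : ℕ) (y : Mat) : gn n y = (‖y.det‖ : ℂ)⁻¹ * Q (N0 (y * an n)) (col0 y) := by
  unfold gn; rw [T_11]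

lemma Gf_tendsto {y : Mat} (hy : y ∈ GInv) :
    Tendsto (fun n => Q (N0 (y * an n)) (col0 y)) atTop (𝓝 (Gf y)) := by
  have h := (gn_tendsto hy).const_mul (‖y.det‖ : ℂ)
  refine h.congr ?_
  intro n
  rw [gn_eq]
  have := norm_det_ne hy
  field_simp

lemma continuousOn_Gf : ContinuousOn Gf GInv := by
  unfold Gf
  apply ContinuousOn.mul _ continuousOn_gl
  exact (Complex.continuous_ofReal.comp (continuous_norm.comp
    (Continuous.matrix_det continuous_id))).continuousOn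

lemma Gf_smul {c : ℂ} (hc : c ≠ 0) {y : Mat} (hy : y ∈ GInv) :
    Gf (c • y) = (‖c‖ : ℂ) ^ 2 * Gf y := by
  have hcy : c • y ∈ GInv := by
    show (c • y).det ≠ 0
    rw [det_smul2]; exact mul_ne_zero (pow_ne_zero _ hc) hy
  have h1 := Gf_tendsto hcy
  have h2 := (Gf_tendsto hy).const_mul ((‖c‖ : ℂ) ^ 2)
  refine tendsto_nhds_unique h1 (h2.congr ?_)
  intro n
  have e : col0 (c • y) = c • col0 y := by ext i; simp [col0]
  rw [e, Q_smul, Matrix.smul_mul, N0_smul hc]

lemma Gf_group {g : Mat} (hg : InG g) {y : Mat} (hy : y ∈ GInv) :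
    Gf (g * y) = Gf y + Q (N0 g) (g *ᵥ col0 y) := by
  have hgy : g * y ∈ GInv := by
    show (g * y).det ≠ 0
    rw [Matrix.det_mul, hg.2, one_mul]; exact hy
  have h1 := Gf_tendsto hgy
  have h2 := (Gf_tendsto hy).add_const (Q (N0 g) (g *ᵥ col0 y))
  refine tendsto_nhds_unique h1 (h2.congr ?_)
  intro n
  rw [col0_mul, Matrix.mul_assoc, N0_mul hg (mul_mem_GInv hy (an_mem n)), Q_add_left]
  congr 1
  have h3 := Q_mulVec (g * N0 (y * an n) * gᴴ) g (col0 y)
  rw [h3]
  congr 1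
  have h4 := T_group_conj hg (N0 (y * an n))
  rw [T_group hg] at h4
  exact h4.symm

/-- the upper triangular matrix fixing the first basis vector -/
noncomputable def ut (b d : ℂ) : Mat := !![1, b; 0, d]

lemma ut_det (b d : ℂ) : (ut b d).det = d := by
  rw [Matrix.det_fin_two]; simp [ut]

lemma ut_an (b d : ℂ) (n : ℕ) : ut b d * an n = an n * ut (b / 2 ^ n) d := by
  have : (2 : ℂ) ^ n ≠ 0 := pow_ne_zero _ two_ne_zero
  ext i j
  fin_cases i <;> fin_cases j <;> simp [ut, an, Matrix.mul_apply, Fin.sum_univ_two]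
  field_simp

lemma continuous_ut (d : ℂ) : Continuous fun b : ℂ => ut b d := by
  unfold ut
  refine continuous_matrix ?_
  intro i j
  fin_cases i <;> fin_cases j <;> simp <;> fun_prop

lemma Gf_ut {b d : ℂ} (hd : d ≠ 0) {y : Mat} (hy : y ∈ GInv) : Gf (y * ut b d) = Gf y := by
  have hut : ∀ b : ℂ, ut b d ∈ GInv := by
    intro b
    show (ut b d).det ≠ 0
    rw [ut_det]; exact hd
  have hcomp : IsCompact ((fun b : ℂ => ut b d) '' Metric.closedBall 0 ‖b‖) :=
    (isCompact_closedBall _ _).image (continuous_ut d)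
  obtain ⟨B, hB0, hB⟩ := bounded_diff hcomp (by
    rintro _ ⟨b', _, rfl⟩
    exact hut b')
  have h1 := Gf_tendsto (mul_mem_GInv hy (hut b))
  have h2 := Gf_tendsto hy
  refine tendsto_nhds_unique h1 ?_
  have h3 : Tendsto (fun n => Q (N0 (y * ut b d * an n)) (col0 (y * ut b d))
      - Q (N0 (y * an n)) (col0 y)) atTop (𝓝 0) := by
    rw [tendsto_zero_iff_norm_tendsto_zero]
    refine squeeze_zero (fun n => norm_nonneg _) (fun n => ?_)
      (tendsto_div_two_pow (‖y.det‖ * B))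
    have hcol : col0 (y * ut b d) = col0 y := by
      ext i; simp [col0, ut, Matrix.mul_apply, Fin.sum_univ_two]
    rw [hcol, Matrix.mul_assoc, ut_an, ← Matrix.mul_assoc]
    have hmem : ut (b / 2 ^ n) d ∈ (fun b : ℂ => ut b d) '' Metric.closedBall 0 ‖b‖ := by
      refine ⟨b / 2 ^ n, ?_, rfl⟩
      rw [mem_closedBall_zero_iff, norm_div, norm_pow]
      have h2 : ‖(2 : ℂ)‖ = 2 := by simp
      rw [h2]
      exact div_le_self (norm_nonneg _) (one_le_pow₀ (by norm_num))
    have h4 := norm_diff_11 hB hy hmem n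
    rw [T_11, T_11, ← mul_sub, norm_mul, norm_inv, Complex.norm_real, norm_norm] at h4
    have hpos : 0 < ‖y.det‖ := norm_pos_iff.mpr hy
    rw [inv_mul_le_iff₀ hpos] at h4
    rw [norm_sub_rev]
    calc _ ≤ ‖y.det‖ * (B / 2 ^ n) := h4
      _ = _ := by ring
  have h5 := h3.add h2
  simpa using h5

/-- the standard frame with given first vector -/
noncomputable def frame (w : Fin 2 → ℂ) : Mat := !![w 0, -star (w 1); w 1, star (w 0)]

lemma frame_det (w : Fin 2 → ℂ) : (frame w).det = ((‖w 0‖ ^ 2 + ‖w 1‖ ^ 2 : ℝ) : ℂ) := by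
  have hn : ∀ z : ℂ, z * star z = ((‖z‖ ^ 2 : ℝ) : ℂ) := by
    intro z
    have := Complex.mul_conj' z
    push_cast
    simpa using this
  rw [Matrix.det_fin_two]
  have e : frame w 0 0 * frame w 1 1 - frame w 0 1 * frame w 1 0
      = w 0 * star (w 0) + w 1 * star (w 1) := by
    simp [frame]; ring
  rw [e, hn, hn]
  push_cast; ring

lemma frame_mem {w : Fin 2 → ℂ} (hw : w ≠ 0) : frame w ∈ GInv := by
  show (frame w).det ≠ 0
  rw [frame_det]
  intro h
  apply hw
  have h1 : ‖w 0‖ ^ 2 + ‖w 1‖ ^ 2 = 0 := by exact_mod_cast h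
  have h2 : ‖w 0‖ ^ 2 = 0 := by nlinarith [sq_nonneg ‖w 0‖, sq_nonneg ‖w 1‖]
  have h3 : ‖w 1‖ ^ 2 = 0 := by nlinarith [sq_nonneg ‖w 0‖, sq_nonneg ‖w 1‖]
  ext i
  fin_cases i
  · simpa using h2
  · simpa using h3

lemma col0_frame (w : Fin 2 → ℂ) : col0 (frame w) = w := by
  ext i; fin_cases i <;> simp [col0, frame]

lemma continuous_frame : Continuous frame := by
  unfold frame
  refine continuous_matrix ?_
  intro i j
  fin_cases i <;> fin_cases j <;> simp <;> fun_prop

lemma col0_ne {y : Mat} (hy : y ∈ GInv) : col0 y ≠ 0 := by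
  intro h
  apply hy
  rw [Matrix.det_fin_two]
  have h0 : y 0 0 = 0 := congrFun h 0
  have h1 : y 1 0 = 0 := congrFun h 1
  rw [h0, h1]; ring

lemma col1_ne {y : Mat} (hy : y ∈ GInv) : col1 y ≠ 0 := by
  intro h
  apply hy
  rw [Matrix.det_fin_two]
  have h0 : y 0 1 = 0 := congrFun h 0
  have h1 : y 1 1 = 0 := congrFun h 1
  rw [h0, h1]; ring

/-- the limit form -/
noncomputable def phi (w : Fin 2 → ℂ) : ℂ := Gf (frame w)

/-- two frames with the same first column differ by an upper triangular matrix -/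
lemma exists_ut {y z : Mat} (hy : y ∈ GInv) (hz : z ∈ GInv) (h : col0 y = col0 z) :
    ∃ b d : ℂ, d ≠ 0 ∧ z = y * ut b d := by
  have hy' : y.det ≠ 0 := hy
  have hz' : z.det ≠ 0 := hz
  have h0 : y 0 0 = z 0 0 := congrFun h 0
  have h1 : y 1 0 = z 1 0 := congrFun h 1
  refine ⟨(y 1 1 * z 0 1 - y 0 1 * z 1 1) / y.det, z.det / y.det, div_ne_zero hz' hy', ?_⟩
  rw [Matrix.det_fin_two] at hy'
  ext i j
  fin_cases i <;> fin_cases j <;>
    simp [ut, Matrix.mul_apply, Fin.sum_univ_two, Matrix.det_fin_two, h0, h1]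
  · rw [h0, h1] at hy'
    field_simp
    ring
  · rw [h0, h1] at hy'
    rw [mul_div_assoc', mul_div_assoc', ← add_div, eq_div_iff hy']
    ring

lemma phi_col0 {y : Mat} (hy : y ∈ GInv) : phi (col0 y) = Gf y := by
  unfold phi
  have hf := frame_mem (col0_ne hy)
  obtain ⟨b, d, hd, he⟩ := exists_ut hf hy (col0_frame _)
  conv_rhs => rw [he]
  rw [Gf_ut hd hf]

lemma continuousOn_phi : ContinuousOn phi {w | w ≠ 0} := by
  unfold phi
  exact continuousOn_Gf.comp continuous_frame.continuousOn (fun w hw => frame_mem hw)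

lemma phi_smul {c : ℂ} {w : Fin 2 → ℂ} (hc : c ≠ 0) (hw : w ≠ 0) :
    phi (c • w) = (‖c‖ ^ 2 : ℂ) * phi w := by
  have hcy : c • frame w ∈ GInv := by
    show (c • frame w).det ≠ 0
    rw [det_smul2]; exact mul_ne_zero (pow_ne_zero _ hc) (frame_mem hw)
  have e : col0 (c • frame w) = c • w := by
    have : col0 (c • frame w) = c • col0 (frame w) := by ext i; simp [col0]
    rw [this, col0_frame]
  rw [← e, phi_col0 hcy, Gf_smul hc (frame_mem hw)]
  rfl

lemma mulVec_ne {g : Mat} (hg : InG g) {w : Fin 2 → ℂ} (hw : w ≠ 0) : g *ᵥ w ≠ 0 := by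
  intro h
  apply hw
  have : g.adjugate *ᵥ (g *ᵥ w) = 0 := by rw [h, Matrix.mulVec_zero]
  rw [Matrix.mulVec_mulVec, hg.adj_mul, Matrix.one_mulVec] at this
  exact this

lemma phi_group {g : Mat} (hg : InG g) {w : Fin 2 → ℂ} (hw : w ≠ 0) :
    phi (g *ᵥ w) = phi w + Q (N0 g) (g *ᵥ w) := by
  have hgy : g * frame w ∈ GInv := by
    show (g * frame w).det ≠ 0
    rw [Matrix.det_mul, hg.2, one_mul]; exact frame_mem hw
  have e : col0 (g * frame w) = g *ᵥ w := by rw [col0_mul, col0_frame]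
  rw [← e, phi_col0 hgy, Gf_group hg (frame_mem hw), col0_frame, ← e]
  rw [col0_mul, col0_frame]
  rfl

/-- the limit form is not a sesquilinear form -/
theorem phi_ne_form (H : Mat) (h : ∀ w : Fin 2 → ℂ, w ≠ 0 → phi w = Q H w) : False := by
  apply not_coboundary H
  intro g hg
  apply Q_ext
  intro w hw
  have hv : g.adjugate *ᵥ w ≠ 0 := mulVec_ne hg.adj hw
  have e : g *ᵥ (g.adjugate *ᵥ w) = w := by
    rw [Matrix.mulVec_mulVec, hg.mul_adj, Matrix.one_mulVec]
  have h1 := phi_group hg hv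
  rw [e, h w hw, h _ hv] at h1
  rw [Q_add_left, h1]
  congr 1
  have h3 := Q_mulVec H g.adjugate w
  rw [h3]
  congr 1
  have h4 : g.adjugate.adjugate = g := by
    rw [Matrix.adjugate_adjugate' g]
    simp
  rw [h4]

end MP6194
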