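import Pool.Agent.MP_6194a9_an.Group

/-!
The quotient is a compact connected Hausdorff space.
-/

open Matrix Filter Topology
open scoped Matrix.Norms.Elementwise

namespace MP6194

lemma norm_mul2_le (A B : Mat) : ‖A * B‖ ≤ 2 * ‖A‖ * ‖B‖ := by
  rw [Matrix.norm_le_iff (by positivity)]
  intro i j
  rw [Matrix.mul_apply, Fin.sum_univ_two]
  have h1 : ∀ k, ‖A i k * B k j‖ ≤ ‖A‖ * ‖B‖ := by
    intro k
    rw [norm_mul]
    exact mul_le_mul (entry_norm_le _ _ _) (entry_norm_le _ _ _) (norm_nonneg _) (norm_nonneg _)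
  calc ‖A i 0 * B 0 j + A i 1 * B 1 j‖ ≤ ‖A i 0 * B 0 j‖ + ‖A i 1 * B 1 j‖ := norm_add_le _ _
    _ ≤ ‖A‖ * ‖B‖ + ‖A‖ * ‖B‖ := add_le_add (h1 0) (h1 1)
    _ = 2 * ‖A‖ * ‖B‖ := by ring

lemma norm_adj_le (A : Mat) : ‖A.adjugate‖ ≤ ‖A‖ := by
  rw [Matrix.norm_le_iff (norm_nonneg _)]
  intro i j
  fin_cases i <;> fin_cases j
  · show ‖A.adjugate 0 0‖ ≤ _
    rw [adj00]; exact entry_norm_le _ _ _
  · show ‖A.adjugate 0 1‖ ≤ _
    rw [adj01, norm_neg]; exact entry_norm_le _ _ _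
  · show ‖A.adjugate 1 0‖ ≤ _
    rw [adj10, norm_neg]; exact entry_norm_le _ _ _
  · show ‖A.adjugate 1 1‖ ≤ _
    rw [adj11]; exact entry_norm_le _ _ _

lemma norm_ct (A : Mat) : ‖Aᴴ‖ = ‖A‖ := by
  apply le_antisymm
  · rw [Matrix.norm_le_iff (norm_nonneg _)]
    intro i j
    rw [Matrix.conjTranspose_apply, norm_star]; exact entry_norm_le _ _ _
  · rw [Matrix.norm_le_iff (norm_nonneg _)]
    intro i j
    have h := entry_norm_le (Aᴴ) j i
    rwa [Matrix.conjTranspose_apply, norm_star] at h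

/-- bounds on a compact subset of the total space -/
lemma compact_bounds {K : Set U} (hK : IsCompact K) : ∃ C : ℝ, 1 ≤ C ∧ ∀ p ∈ K,
    ‖pY (p : Mod)‖ ≤ C ∧ ‖pX (p : Mod)‖ ≤ C ∧ ‖pS (p : Mod)‖ ≤ C ∧
    ‖(pY (p : Mod)).det‖ ≤ C ∧ ‖(pY (p : Mod)).det‖⁻¹ ≤ C := by
  have hc : Continuous fun p : U => (p : Mod) := continuous_subtype_val
  have hdet : Continuous fun p : U => ‖(pY (p : Mod)).det‖ :=
    continuous_norm.comp (Continuous.matrix_det (pY.continuous.comp hc))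
  have hinv : Continuous fun p : U => ‖(pY (p : Mod)).det‖⁻¹ :=
    hdet.inv₀ (fun p => norm_ne_zero_iff.mpr p.2)
  obtain ⟨C1, h1⟩ := hK.exists_bound_of_continuousOn (pY.continuous.comp hc).continuousOn
  obtain ⟨C2, h2⟩ := hK.exists_bound_of_continuousOn (pX.continuous.comp hc).continuousOn
  obtain ⟨C3, h3⟩ := hK.exists_bound_of_continuousOn (pS.continuous.comp hc).continuousOn
  obtain ⟨C4, h4⟩ := hK.exists_bound_of_continuousOn hdet.continuousOn
  obtain ⟨C5, h5⟩ := hK.exists_bound_of_continuousOn hinv.continuousOn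
  refine ⟨max 1 (max C1 (max C2 (max C3 (max C4 C5)))), le_max_left _ _, ?_⟩
  intro p hp
  have e1 := h1 p hp
  have e2 := h2 p hp
  have e3 := h3 p hp
  have e4 := h4 p hp
  have e5 := h5 p hp
  simp only [Function.comp_apply] at e1 e2 e3
  rw [norm_norm] at e4
  rw [norm_inv, norm_norm] at e5
  simp only [le_max_iff]
  exact ⟨Or.inr (Or.inl e1), Or.inr (Or.inr (Or.inl e2)), Or.inr (Or.inr (Or.inr (Or.inl e3))),
    Or.inr (Or.inr (Or.inr (Or.inr (Or.inl e4)))), Or.inr (Or.inr (Or.inr (Or.inr (Or.inr e5))))⟩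

lemma zpow_bound {k : ℤ} {C : ℝ} {N : ℕ} (hN : C ≤ 2 ^ N) (h1 : (2 : ℝ) ^ k ≤ C)
    (h2 : (2 : ℝ) ^ (-k) ≤ C) : k ∈ Set.Icc (-(N : ℤ)) N := by
  have e : (2 : ℝ) ^ N = (2 : ℝ) ^ (N : ℤ) := (zpow_natCast 2 N).symm
  rw [e] at hN
  have h3 := h1.trans hN
  have h4 := h2.trans hN
  rw [zpow_le_zpow_iff_right₀ (by norm_num)] at h3 h4
  exact ⟨by omega, h3⟩

/-- parameters of a deck transformation, chosen once and for all -/
noncomputable def par (σ : DG) : ℤ × Mat × Mat × ℂ :=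
  ((DG_spec σ).choose, (DG_spec σ).choose_spec.choose, (DG_spec σ).choose_spec.choose_spec.choose,
    (DG_spec σ).choose_spec.choose_spec.choose_spec.choose)

lemma par_spec (σ : DG) : InG (par σ).2.1 ∧ InL (par σ).2.2.1 ∧ InZi (par σ).2.2.2 ∧
    ∀ p : U, ((σ • p : U) : Mod) = act (par σ).1 (par σ).2.1 (par σ).2.2.1 (par σ).2.2.2 p :=
  (DG_spec σ).choose_spec.choose_spec.choose_spec.choose_spec

lemma par_injective : Function.Injective par := by
  intro σ τ h
  have h1 := (par_spec σ).2.2.2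
  rw [h] at h1
  exact DG_ext h1 (par_spec τ).2.2.2

instance : ProperlyDiscontinuousSMul DG U where
  finite_disjoint_inter_image := by
    intro K K' hK hK'
    obtain ⟨C, hC1, hC⟩ := compact_bounds hK
    obtain ⟨C', hC1', hC'⟩ := compact_bounds hK'
    set D := max C C' with hD
    have hCD : C ≤ D := le_max_left _ _
    have hCD' : C' ≤ D := le_max_right _ _
    have hD1 : 1 ≤ D := hC1.trans hCD
    obtain ⟨N, hN⟩ : ∃ N : ℕ, D * D ≤ 2 ^ N := by
      obtain ⟨N, hN⟩ := pow_unbounded_of_one_lt (D * D) (one_lt_two)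
      exact ⟨N, hN.le⟩
    -- bound on the matrix part
    set Cg : ℝ := D * D * (2 * D * D * D) with hCg
    have hfing := finite_O Cg
    obtain ⟨CN, hCN⟩ : ∃ CN : ℝ, ∀ g ∈ {M : Mat | InO M ∧ ‖M‖ ≤ Cg}, ‖N0 g‖ ≤ CN := by
      obtain ⟨CN, hCN⟩ := (hfing.image (fun g => ‖N0 g‖)).bddAbove
      exact ⟨CN, fun g hg => hCN ⟨g, hg, rfl⟩⟩
    set Cl : ℝ := D + 2 * (2 * Cg * D) * Cg + D * |CN| with hCl
    have hfinl := finite_L Cl
    have hfinm := finite_Zi (D + D)
    have hfin : ((Set.Icc (-(N : ℤ)) N) ×ˢ {M : Mat | InO M ∧ ‖M‖ ≤ Cg} ×ˢ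
        {M : Mat | InL M ∧ ‖M‖ ≤ Cl} ×ˢ {z : ℂ | InZi z ∧ ‖z‖ ≤ D + D}).Finite :=
      (Set.finite_Icc _ _).prod (hfing.prod (hfinl.prod hfinm))
    apply Set.Finite.of_finite_image (f := par) _ par_injective.injOn
    apply hfin.subset
    rintro _ ⟨σ, hσ, rfl⟩
    have hσ' : ((fun x => σ • x) '' K ∩ K').Nonempty := hσ
    obtain ⟨_, ⟨p, hp, rfl⟩, hq⟩ := hσ'
    obtain ⟨hg, hl, hm, hact⟩ := par_spec σ
    obtain ⟨a1, a2, a3, a4, a5⟩ := hC p hp
    obtain ⟨b1, b2, b3, b4, b5⟩ := hC' _ hq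
    simp only at b1 b2 b3 b4 b5
    rw [hact p] at b1 b2 b3 b4 b5
    rw [pY_act] at b1 b4 b5
    rw [pX_act] at b2
    rw [pS_act] at b3
    generalize par σ = P at *
    obtain ⟨k, g, l, m⟩ := P
    simp only at hg hl hm b1 b2 b3 b4 b5 ⊢
    set y := pY (p : Mod) with hy
    set X := pX (p : Mod) with hX
    set s := pS (p : Mod) with hs
    have hy0 : y.det ≠ 0 := p.2
    have hdpos : 0 < ‖y.det‖ := norm_pos_iff.mpr hy0
    have hdet : ‖((2 : ℂ) ^ k • (g * y)).det‖ = (2 : ℝ) ^ k * (2 : ℝ) ^ k * ‖y.det‖ := by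
      rw [det_smul2, Matrix.det_mul, hg.2, one_mul, norm_mul, norm_pow, norm_zpow]
      have n2 : ‖(2 : ℂ)‖ = 2 := by simp
      rw [n2, sq]
    rw [hdet] at b4 b5
    have hk0 : (0 : ℝ) < (2 : ℝ) ^ k := by positivity
    have hkk : (2 : ℝ) ^ k * (2 : ℝ) ^ k ≤ D * D := by
      have h1 : (2 : ℝ) ^ k * (2 : ℝ) ^ k * ‖y.det‖ * ‖y.det‖⁻¹ ≤ C' * C :=
        mul_le_mul b4 a5 (by positivity) (by linarith)
      have h2 : (2 : ℝ) ^ k * (2 : ℝ) ^ k * ‖y.det‖ * ‖y.det‖⁻¹ = (2 : ℝ) ^ k * (2 : ℝ) ^ k := by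
        field_simp
      rw [h2] at h1
      calc _ ≤ C' * C := h1
        _ ≤ D * D := mul_le_mul hCD' hCD (by linarith) (by linarith)
    have hkinv : ((2 : ℝ) ^ k)⁻¹ * ((2 : ℝ) ^ k)⁻¹ ≤ D * D := by
      have h1 : ((2 : ℝ) ^ k * (2 : ℝ) ^ k * ‖y.det‖)⁻¹ * ‖y.det‖ ≤ C' * C :=
        mul_le_mul b5 a4 (by positivity) (by linarith)
      have h2 : ((2 : ℝ) ^ k * (2 : ℝ) ^ k * ‖y.det‖)⁻¹ * ‖y.det‖
          = ((2 : ℝ) ^ k)⁻¹ * ((2 : ℝ) ^ k)⁻¹ := by
        field_simp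
      rw [h2] at h1
      calc _ ≤ C' * C := h1
        _ ≤ D * D := mul_le_mul hCD' hCD (by linarith) (by linarith)
    have hDD : 1 ≤ D * D := by nlinarith
    have hk1 : (2 : ℝ) ^ k ≤ D * D := by
      by_contra hcon
      push Not at hcon
      nlinarith
    have hk2 : ((2 : ℝ) ^ k)⁻¹ ≤ D * D := by
      by_contra hcon
      push Not at hcon
      have : 0 < ((2 : ℝ) ^ k)⁻¹ := by positivity
      nlinarith
    have hkmem : k ∈ Set.Icc (-(N : ℤ)) N := by
      apply zpow_bound hN hk1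
      rw [_root_.zpow_neg]; exact hk2
    -- the matrix part
    have hgy : ‖g * y‖ ≤ D * D * D := by
      rw [norm_smul, norm_zpow] at b1
      have n2 : ‖(2 : ℂ)‖ = 2 := by simp
      rw [n2] at b1
      have h1 : ((2 : ℝ) ^ k)⁻¹ * ((2 : ℝ) ^ k * ‖g * y‖) ≤ D * D * C' :=
        mul_le_mul hk2 b1 (by positivity) (by positivity)
      have h2 : ((2 : ℝ) ^ k)⁻¹ * ((2 : ℝ) ^ k * ‖g * y‖) = ‖g * y‖ := by field_simp
      rw [h2] at h1
      calc _ ≤ D * D * C' := h1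
        _ ≤ D * D * D := mul_le_mul_of_nonneg_left hCD' (by positivity)
    have hgn : ‖g‖ ≤ Cg := by
      have h1 : g = (y.det)⁻¹ • (g * y * y.adjugate) := by
        rw [Matrix.mul_assoc, Matrix.mul_adjugate, Matrix.mul_smul, Matrix.mul_one, smul_smul,
          inv_mul_cancel₀ hy0, one_smul]
      rw [h1, norm_smul, norm_inv]
      have h2 : ‖g * y * y.adjugate‖ ≤ 2 * (D * D * D) * D := by
        calc ‖g * y * y.adjugate‖ ≤ 2 * ‖g * y‖ * ‖y.adjugate‖ := norm_mul2_le _ _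
          _ ≤ 2 * (D * D * D) * D := by
            apply mul_le_mul _ ((norm_adj_le _).trans (a1.trans hCD)) (norm_nonneg _)
              (by positivity)
            linarith
      calc ‖y.det‖⁻¹ * ‖g * y * y.adjugate‖ ≤ D * (2 * (D * D * D) * D) :=
            mul_le_mul (a5.trans hCD) h2 (norm_nonneg _) (by linarith)
        _ = Cg := by rw [hCg]; ring
    have hm' : ‖m‖ ≤ D + D := by
      have h1 : m = (s + m) - s := by ring
      rw [h1]
      calc ‖(s + m) - s‖ ≤ ‖s + m‖ + ‖s‖ := norm_sub_le _ _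
        _ ≤ D + D := add_le_add (b3.trans hCD') (a3.trans hCD)
    have hCg0 : 0 ≤ Cg := (norm_nonneg _).trans hgn
    have hl' : ‖l‖ ≤ Cl := by
      have h1 : l = (g * X * gᴴ + s • N0 g + l) - g * X * gᴴ - s • N0 g := by abel
      have h2 : ‖g * X * gᴴ‖ ≤ 2 * (2 * Cg * D) * Cg := by
        calc ‖g * X * gᴴ‖ ≤ 2 * ‖g * X‖ * ‖gᴴ‖ := norm_mul2_le _ _
          _ ≤ 2 * (2 * ‖g‖ * ‖X‖) * ‖gᴴ‖ := by
            apply mul_le_mul_of_nonneg_right _ (norm_nonneg _)
            linarith [norm_mul2_le g X]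
          _ ≤ 2 * (2 * Cg * D) * Cg := by
            rw [norm_ct]
            apply mul_le_mul _ hgn (norm_nonneg _) (by positivity)
            have : ‖g‖ * ‖X‖ ≤ Cg * D :=
              mul_le_mul hgn (a2.trans hCD) (norm_nonneg _) hCg0
            linarith
      have h3 : ‖s • N0 g‖ ≤ D * |CN| := by
        rw [norm_smul]
        exact mul_le_mul (a3.trans hCD) ((hCN g ⟨hg.1, hgn⟩).trans (le_abs_self _))
          (norm_nonneg _) (by linarith)
      rw [h1]
      calc ‖g * X * gᴴ + s • N0 g + l - g * X * gᴴ - s • N0 g‖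
          ≤ ‖g * X * gᴴ + s • N0 g + l - g * X * gᴴ‖ + ‖s • N0 g‖ := norm_sub_le _ _
        _ ≤ ‖g * X * gᴴ + s • N0 g + l‖ + ‖g * X * gᴴ‖ + ‖s • N0 g‖ :=
            add_le_add (norm_sub_le _ _) le_rfl
        _ ≤ Cl := by
            rw [hCl]
            have := b2.trans hCD'
            linarith
    exact ⟨hkmem, ⟨hg.1, hgn⟩, ⟨hl, hl'⟩, ⟨hm, hm'⟩⟩

instance : LocallyCompactSpace U := U.isOpen.locallyCompactSpace

/-- the example manifold -/
abbrev MM : Type := MulAction.orbitRel.Quotient DG U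

instance : Nonempty U := ⟨⟨mk 1 0 0, by rw [mem_U, pY_mk]; show (1 : Mat).det ≠ 0; simp⟩⟩

instance : T2Space MM := inferInstance

noncomputable instance : ChartedSpace Mod MM := inferInstance

/-- the fundamental compact set, in the model space -/
def fdset (C : ℝ) : Set Mod :=
  {q | pY q ∈ KB C ∧ ‖pX q‖ ≤ 6 ∧ ‖pS q‖ ≤ 1}

lemma isCompact_fdset (C : ℝ) : IsCompact (fdset C) := by
  have h1 : IsCompact ((KB C) ×ˢ (Metric.closedBall (0 : Mat) 6) ×ˢ
      (Metric.closedBall (0 : ℂ) 1)) :=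
    (isCompact_KB C).prod ((isCompact_closedBall _ _).prod (isCompact_closedBall _ _))
  have h2 : fdset C = (show Set Mod from ((KB C) ×ˢ (Metric.closedBall (0 : Mat) 6) ×ˢ
      (Metric.closedBall (0 : ℂ) 1))) := by
    ext q
    constructor
    · rintro ⟨h1, h2, h3⟩
      exact ⟨h1, mem_closedBall_zero_iff.mpr h2, mem_closedBall_zero_iff.mpr h3⟩
    · rintro ⟨h1, h2, h3⟩
      exact ⟨h1, mem_closedBall_zero_iff.mp h2, mem_closedBall_zero_iff.mp h3⟩
  rw [h2]
  exact h1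

lemma isCompact_fd (C : ℝ) : IsCompact {p : U | (p : Mod) ∈ fdset C} := by
  rw [Topology.IsInducing.subtypeVal.isCompact_iff]
  have h2 : Subtype.val '' {p : U | (p : Mod) ∈ fdset C} = fdset C := by
    ext q
    constructor
    · rintro ⟨p, h, rfl⟩
      exact h
    · intro h
      exact ⟨⟨q, KB_subset C h.1⟩, h, rfl⟩
  have h3 := isCompact_fdset C
  rw [← h2] at h3
  exact h3

/-- every orbit meets a fixed compact set -/
theorem exists_fd : ∃ K : Set U, IsCompact K ∧ ∀ p : U, ∃ σ : DG, σ • p ∈ K := by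
  obtain ⟨C, hC⟩ := base_cocompact
  refine ⟨_, isCompact_fd C, ?_⟩
  intro p
  obtain ⟨k, g, hg, h1, h2, h3⟩ := hC (pY (p : Mod)) p.2
  obtain ⟨m, hm, hm1⟩ := exists_Zi_near (pS (p : Mod))
  obtain ⟨l, hl, hl1⟩ := exists_L_near (g * pX (p : Mod) * gᴴ + pS (p : Mod) • N0 g)
  refine ⟨⟨permU k l m hg, permU_mem hg hl hm⟩, ?_⟩
  have e : (((⟨permU k l m hg, permU_mem hg hl hm⟩ : DG) • p : U) : Mod) = act k g l m p := rfl
  refine ⟨?_, ?_, ?_⟩
  · rw [e, pY_act]; exact ⟨h1, h2, h3⟩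
  · rw [e, pX_act]; exact hl1
  · rw [e, pS_act]; exact hm1

instance : CompactSpace MM := by
  obtain ⟨K, hK, hsurj⟩ := exists_fd
  have hcont : Continuous (QuotMan.pr U DG) := (QuotMan.pr_isLocalHomeomorph U DG).continuous
  refine ⟨?_⟩
  have h : (Set.univ : Set MM) = QuotMan.pr U DG '' K := by
    symm
    rw [Set.eq_univ_iff_forall]
    intro q
    obtain ⟨p, rfl⟩ := Quotient.exists_rep q
    obtain ⟨σ, hσ⟩ := hsurj p
    refine ⟨σ • p, hσ, ?_⟩
    exact Quotient.sound (MulAction.orbitRel_apply.mpr ⟨σ, rfl⟩)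
  rw [h]
  exact hK.image hcont

/-- the set of invertible matrices is connected -/
theorem isPreconnected_GInv : IsPreconnected GInv := by
  apply isPreconnected_of_forall (1 : Mat)
  intro y hy
  -- the complex line through `1` and `y`
  let f : ℂ → Mat := fun z => (1 - z) • (1 : Mat) + z • y
  have hf : Continuous f := by
    apply Continuous.add
    · exact (continuous_const.sub continuous_id).smul continuous_const
    · exact continuous_id.smul continuous_const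
  let P : Polynomial ℂ := ((1 - Polynomial.X) + Polynomial.X * Polynomial.C (y 0 0))
      * ((1 - Polynomial.X) + Polynomial.X * Polynomial.C (y 1 1))
      - (Polynomial.X * Polynomial.C (y 0 1)) * (Polynomial.X * Polynomial.C (y 1 0))
  have hP : ∀ z, P.eval z = (f z).det := by
    intro z
    rw [Matrix.det_fin_two]
    simp [P, f]
    ring
  have hP0 : P ≠ 0 := by
    intro h0
    have h1 := hP 0
    rw [h0] at h1
    simp [f] at h1
  have hfin : ((P.roots.toFinset : Finset ℂ) : Set ℂ).Countable := P.roots.toFinset.countable_toSet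
  have hconn := (hfin.isConnected_compl_of_one_lt_rank (by
    rw [Complex.rank_real_complex]; exact Nat.one_lt_ofNat)).isPreconnected
  have hmem : ∀ z, z ∈ (((P.roots.toFinset : Finset ℂ) : Set ℂ))ᶜ ↔ (f z).det ≠ 0 := by
    intro z
    rw [← hP z, Set.mem_compl_iff, Finset.mem_coe, Multiset.mem_toFinset, Polynomial.mem_roots hP0,
      Polynomial.IsRoot.def]
  refine ⟨f '' (((P.roots.toFinset : Finset ℂ) : Set ℂ))ᶜ, ?_, ?_, ?_, ?_⟩
  · rintro _ ⟨z, hz, rfl⟩
    exact (hmem z).mp hz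
  · exact ⟨0, (hmem 0).mpr (by simp [f]), by simp [f]⟩
  · refine ⟨1, (hmem 1).mpr ?_, by simp [f]⟩
    have : f 1 = y := by simp [f]
    rw [this]; exact hy
  · exact hconn.image f hf.continuousOn

instance : PreconnectedSpace U := by
  apply Subtype.preconnectedSpace
  have h1 : IsPreconnected (GInv ×ˢ (Set.univ : Set Mat) ×ˢ (Set.univ : Set ℂ)) :=
    isPreconnected_GInv.prod (isPreconnected_univ.prod isPreconnected_univ)
  have h2 : (U : Set Mod)
      = (show Set Mod from (GInv ×ˢ (Set.univ : Set Mat) ×ˢ (Set.univ : Set ℂ))) := by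
    ext q
    constructor
    · intro h
      exact ⟨h, Set.mem_univ _, Set.mem_univ _⟩
    · rintro ⟨h, -, -⟩
      exact h
  rw [h2]
  exact h1

instance : ConnectedSpace MM := by
  have hcont : Continuous (QuotMan.pr U DG) := (QuotMan.pr_isLocalHomeomorph U DG).continuous
  have : ConnectedSpace U := ⟨inferInstance⟩
  exact Function.Surjective.connectedSpace (f := QuotMan.pr U DG) Quotient.mk_surjective hcont

end MP6194
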