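import Mathlib

/-!
Definitions for the statement: partially hyperbolic splittings and regularity of distributions.
-/

open Bundle Topology
open scoped Manifold ContDiff

namespace HolPH

variable {E : Type} [NormedAddCommGroup E] [NormedSpace ℝ E]
  {M : Type} [TopologicalSpace M] [ChartedSpace E M] [IsManifold 𝓘(ℝ, E) 1 M]

/-- Near the point `p`, the field `D` of real subspaces of the tangent spaces is spanned by
finitely many vector fields of class `C^n` (`n = 0`: continuous, `n = ω`: real analytic). -/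
def SpannedNear (n : WithTop ℕ∞) (D : ∀ x : M, Submodule ℝ (TangentSpace 𝓘(ℝ, E) x))
    (p : M) : Prop :=
  ∃ s ∈ 𝓝 p, ∃ (k : ℕ) (X : Fin k → ∀ x : M, TangentSpace 𝓘(ℝ, E) x),
    (∀ i, ContMDiffOn 𝓘(ℝ, E) 𝓘(ℝ, E).tangent n
      (fun x => (⟨x, X i x⟩ : TangentBundle 𝓘(ℝ, E) M)) s) ∧
    ∀ x ∈ s, D x = Submodule.span ℝ (Set.range fun i => X i x)

/-- the length of a tangent vector for the Riemannian metric `g` -/
noncomputable def len
    (g : ContinuousRiemannianMetric E (fun x : M => TangentSpace 𝓘(ℝ, E) x))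
    (x : M) (v : TangentSpace 𝓘(ℝ, E) x) : ℝ :=
  Real.sqrt (g.inner x v v)

/-- `TM = Es + Ec + Eu` is a partially hyperbolic splitting of `f` with respect to the Riemannian
metric `g`. -/
structure IsPHSplitting
    (g : ContinuousRiemannianMetric E (fun x : M => TangentSpace 𝓘(ℝ, E) x))
    (f : M → M) (Es Ec Eu : ∀ x : M, Submodule ℝ (TangentSpace 𝓘(ℝ, E) x)) : Prop where
  /-- the three distributions are continuous -/
  continuous : ∀ p : M, SpannedNear 0 Es p ∧ SpannedNear 0 Ec p ∧ SpannedNear 0 Eu p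
  /-- the tangent space is the direct sum -/
  direct : ∀ x : M, DirectSum.IsInternal ![Es x, Ec x, Eu x]
  /-- all three are nonzero -/
  nonzero : ∀ x : M, Es x ≠ ⊥ ∧ Ec x ≠ ⊥ ∧ Eu x ≠ ⊥
  /-- the splitting is invariant under the derivative of `f` -/
  invariant : ∀ x : M,
    (Es x).map (mfderiv 𝓘(ℝ, E) 𝓘(ℝ, E) f x).toLinearMap = Es (f x) ∧
    (Ec x).map (mfderiv 𝓘(ℝ, E) 𝓘(ℝ, E) f x).toLinearMap = Ec (f x) ∧
    (Eu x).map (mfderiv 𝓘(ℝ, E) 𝓘(ℝ, E) f x).toLinearMap = Eu (f x)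
  /-- the domination inequalities hold for some iterate -/
  domination : ∃ N : ℕ, 1 ≤ N ∧ ∀ x : M, ∀ vs ∈ Es x, ∀ vc ∈ Ec x, ∀ vu ∈ Eu x,
    len g x vs = 1 → len g x vc = 1 → len g x vu = 1 →
      len g (f^[N] x) (mfderiv 𝓘(ℝ, E) 𝓘(ℝ, E) f^[N] x vs)
        < min 1 (len g (f^[N] x) (mfderiv 𝓘(ℝ, E) 𝓘(ℝ, E) f^[N] x vc)) ∧
      max 1 (len g (f^[N] x) (mfderiv 𝓘(ℝ, E) 𝓘(ℝ, E) f^[N] x vc))
        < len g (f^[N] x) (mfderiv 𝓘(ℝ, E) 𝓘(ℝ, E) f^[N] x vu)

end HolPH
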