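import Pool.Agent.MP_6194a9_an.Tangent
import Pool.Agent.MP_6194a9_an.Statement

/-!
The splitting is continuous, invariant, direct.
-/

open Matrix Filter Topology Bundle
open scoped Matrix.Norms.Elementwise Manifold ContDiff

namespace MP6194

/-- the distributions are continuous -/
lemma spanned_Dist (C : Submodule ℝ Mod) (p : MM) : HolPH.SpannedNear 0 (Dist C) p := by
  have hfg : C.FG := IsNoetherian.noetherian C
  obtain ⟨k, b, hb⟩ := Submodule.fg_iff_exists_fin_generating_family.mp hfg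
  refine ⟨Set.univ, Filter.univ_mem, k, fun i q => Fr q (b i), ?_, ?_⟩
  · intro i
    exact (contMDiff_Fr (b i)).contMDiffOn
  · intro x _
    have h1 : Dist C x = (Submodule.span ℝ (Set.range b)).map (FrE x).toLinearMap := by
      rw [hb]; rfl
    rw [h1, Submodule.map_span, ← Set.range_comp]
    rfl

/-- explicit decomposition of the model space -/
noncomputable def prs (w : Mod) : Mod := mk !![0, pY w 0 1; 0, 0] !![pX w 0 0, 0; 0, 0] 0
noncomputable def pru (w : Mod) : Mod := mk !![0, 0; pY w 1 0, 0] !![0, 0; 0, pX w 1 1] 0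
noncomputable def prc (w : Mod) : Mod :=
  mk !![pY w 0 0, 0; 0, pY w 1 1] !![0, pX w 0 1; pX w 1 0, 0] (pS w)

lemma prs_mem (w : Mod) : prs w ∈ Cs := (mk_entries _ _ _ _ _ _ _ _ _).2.1.mpr (by simp)
lemma pru_mem (w : Mod) : pru w ∈ Cu := (mk_entries _ _ _ _ _ _ _ _ _).1.mpr (by simp)
lemma prc_mem (w : Mod) : prc w ∈ Cc := (mk_entries _ _ _ _ _ _ _ _ _).2.2.mpr (by simp)

lemma decomp (w : Mod) : prs w + prc w + pru w = w := by
  unfold prs prc pru
  rw [mk_add, mk_add]
  apply mod_ext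
  · rw [pY_mk]
    ext i j
    fin_cases i <;> fin_cases j <;> simp
  · rw [pX_mk]
    ext i j
    fin_cases i <;> fin_cases j <;> simp
  · rw [pS_mk]; simp

lemma mod_zero_of {w : Mod} (h1 : ∀ i j, pY w i j = 0) (h2 : ∀ i j, pX w i j = 0)
    (h3 : pS w = 0) : w = 0 := by
  apply mod_ext
  · rw [map_zero]; ext i j; rw [h1 i j]; rfl
  · rw [map_zero]; ext i j; rw [h2 i j]; rfl
  · rw [map_zero, h3]

/-- complementary subspaces -/
noncomputable def Ksc : Submodule ℝ Mod := Cs ⊔ Cc

lemma disj_s_c : Disjoint Cs Cc := by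
  rw [Submodule.disjoint_def]
  intro w hs hc
  obtain ⟨a1, a2, a3, a4, a5, a6, a7⟩ := mem_Cs.mp hs
  obtain ⟨b1, b2, b3, b4⟩ := mem_Cc.mp hc
  apply mod_zero_of _ _ a7
  · intro i j; fin_cases i <;> fin_cases j <;> assumption
  · intro i j; fin_cases i <;> fin_cases j <;> assumption

lemma sup_le_aux {A B : Submodule ℝ Mod} {Z : Submodule ℝ Mod} (h1 : A ≤ Z) (h2 : B ≤ Z) :
    A ⊔ B ≤ Z := sup_le h1 h2

lemma internal_const : DirectSum.IsInternal ![Cs, Cc, Cu] := by
  rw [DirectSum.isInternal_submodule_iff_iSupIndep_and_iSup_eq_top]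
  constructor
  · rw [iSupIndep_def]
    intro i
    -- the three kernels
    let L0 : Mod →ₗ[ℝ] ℂ × ℂ :=
      { toFun := fun w => (pY w 0 1, pX w 0 0)
        map_add' := by intro v w; simp
        map_smul' := by
          intro c w
          have h : c • w = (c : ℂ) • w := (Complex.coe_smul c w).symm
          rw [h]; simp }
    let L2 : Mod →ₗ[ℝ] ℂ × ℂ :=
      { toFun := fun w => (pY w 1 0, pX w 1 1)
        map_add' := by intro v w; simp
        map_smul' := by
          intro c w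
          have h : c • w = (c : ℂ) • w := (Complex.coe_smul c w).symm
          rw [h]; simp }
    let L1 : Mod →ₗ[ℝ] ℂ × ℂ × ℂ × ℂ × ℂ :=
      { toFun := fun w => (pY w 0 0, pY w 1 1, pX w 0 1, pX w 1 0, pS w)
        map_add' := by intro v w; simp
        map_smul' := by
          intro c w
          have h : c • w = (c : ℂ) • w := (Complex.coe_smul c w).symm
          rw [h]; simp }
    have k0 : ∀ w, w ∈ LinearMap.ker L0 ↔ pY w 0 1 = 0 ∧ pX w 0 0 = 0 := by
      intro w; rw [LinearMap.mem_ker]; simp [L0]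
    have k2 : ∀ w, w ∈ LinearMap.ker L2 ↔ pY w 1 0 = 0 ∧ pX w 1 1 = 0 := by
      intro w; rw [LinearMap.mem_ker]; simp [L2]
    have k1 : ∀ w, w ∈ LinearMap.ker L1 ↔
        pY w 0 0 = 0 ∧ pY w 1 1 = 0 ∧ pX w 0 1 = 0 ∧ pX w 1 0 = 0 ∧ pS w = 0 := by
      intro w; rw [LinearMap.mem_ker]; simp [L1]
    fin_cases i
    · -- i = 0
      have hle : (⨆ j, ⨆ (_ : j ≠ (0 : Fin 3)), ![Cs, Cc, Cu] j) ≤ LinearMap.ker L0 := by
        refine iSup_le (fun j => iSup_le (fun hj => ?_))
        fin_cases j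
        · exact absurd rfl hj
        · intro w hw
          obtain ⟨b1, b2, b3, b4⟩ := mem_Cc.mp hw
          exact (k0 w).mpr ⟨b1, b3⟩
        · intro w hw
          obtain ⟨b1, b2, b3, b4, b5, b6, b7⟩ := mem_Cu.mp hw
          exact (k0 w).mpr ⟨b2, b4⟩
      refine Disjoint.mono_right hle ?_
      rw [Submodule.disjoint_def]
      intro w hs hc
      obtain ⟨a1, a2, a3, a4, a5, a6, a7⟩ := mem_Cs.mp hs
      obtain ⟨b1, b2⟩ := (k0 w).mp hc
      apply mod_zero_of _ _ a7
      · intro i j; fin_cases i <;> fin_cases j <;> assumption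
      · intro i j; fin_cases i <;> fin_cases j <;> assumption
    · -- i = 1
      have hle : (⨆ j, ⨆ (_ : j ≠ (1 : Fin 3)), ![Cs, Cc, Cu] j) ≤ LinearMap.ker L1 := by
        refine iSup_le (fun j => iSup_le (fun hj => ?_))
        fin_cases j
        · intro w hw
          obtain ⟨b1, b2, b3, b4, b5, b6, b7⟩ := mem_Cs.mp hw
          exact (k1 w).mpr ⟨b1, b3, b5, b6, b7⟩
        · exact absurd rfl hj
        · intro w hw
          obtain ⟨b1, b2, b3, b4, b5, b6, b7⟩ := mem_Cu.mp hw
          exact (k1 w).mpr ⟨b1, b3, b5, b6, b7⟩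
      refine Disjoint.mono_right hle ?_
      rw [Submodule.disjoint_def]
      intro w hs hc
      obtain ⟨a1, a2, a3, a4⟩ := mem_Cc.mp hs
      obtain ⟨b1, b2, b3, b4, b5⟩ := (k1 w).mp hc
      apply mod_zero_of _ _ b5
      · intro i j; fin_cases i <;> fin_cases j <;> assumption
      · intro i j; fin_cases i <;> fin_cases j <;> assumption
    · -- i = 2
      have hle : (⨆ j, ⨆ (_ : j ≠ (2 : Fin 3)), ![Cs, Cc, Cu] j) ≤ LinearMap.ker L2 := by
        refine iSup_le (fun j => iSup_le (fun hj => ?_))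
        fin_cases j
        · intro w hw
          obtain ⟨b1, b2, b3, b4, b5, b6, b7⟩ := mem_Cs.mp hw
          exact (k2 w).mpr ⟨b2, b4⟩
        · intro w hw
          obtain ⟨b1, b2, b3, b4⟩ := mem_Cc.mp hw
          exact (k2 w).mpr ⟨b2, b4⟩
        · exact absurd rfl hj
      refine Disjoint.mono_right hle ?_
      rw [Submodule.disjoint_def]
      intro w hs hc
      obtain ⟨a1, a2, a3, a4, a5, a6, a7⟩ := mem_Cu.mp hs
      obtain ⟨b1, b2⟩ := (k2 w).mp hc
      apply mod_zero_of _ _ a7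
      · intro i j; fin_cases i <;> fin_cases j <;> assumption
      · intro i j; fin_cases i <;> fin_cases j <;> assumption
  · rw [eq_top_iff]
    intro w _
    rw [← decomp w]
    refine Submodule.add_mem _ (Submodule.add_mem _ ?_ ?_) ?_
    · exact (le_iSup ![Cs, Cc, Cu] 0) (prs_mem w)
    · exact (le_iSup ![Cs, Cc, Cu] 1) (prc_mem w)
    · exact (le_iSup ![Cs, Cc, Cu] 2) (pru_mem w)

/-- transport of a direct sum decomposition -/
lemma internal_map {V W : Type} [AddCommGroup V] [Module ℝ V] [AddCommGroup W] [Module ℝ W]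
    (e : V ≃ₗ[ℝ] W) {A : Fin 3 → Submodule ℝ V} (h : DirectSum.IsInternal A) :
    DirectSum.IsInternal (fun i => (A i).map e.toLinearMap) := by
  rw [DirectSum.isInternal_submodule_iff_iSupIndep_and_iSup_eq_top] at h ⊢
  obtain ⟨h1, h2⟩ := h
  constructor
  · have := h1.map_orderIso (Submodule.orderIsoMapComap e)
    exact this
  · rw [← Submodule.map_iSup, h2, Submodule.map_top, LinearEquiv.range]

lemma internal_Dist (q : MM) : DirectSum.IsInternal ![Dist Cs q, Dist Cc q, Dist Cu q] := by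
  have h := internal_map (FrE q) internal_const
  have e : (fun i => (![Cs, Cc, Cu] i).map (FrE q).toLinearMap)
      = ![Dist Cs q, Dist Cc q, Dist Cu q] := by
    funext i
    fin_cases i <;> rfl
  rw [e] at h
  exact h

lemma Dist_ne_bot {C : Submodule ℝ Mod} (hC : C ≠ ⊥) (q : MM) : Dist C q ≠ ⊥ := by
  intro h
  apply hC
  unfold Dist at h
  rw [Submodule.map_eq_bot_iff] at h
  exact h

lemma Cs_ne : Cs ≠ ⊥ := by
  intro h
  have h1 := (mk_entries 0 1 0 0 0 0 0 0 0).2.1.mpr (by simp)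
  rw [h, Submodule.mem_bot] at h1
  have h2 := congrArg (fun w => pY w 0 1) h1
  simp at h2

lemma Cu_ne : Cu ≠ ⊥ := by
  intro h
  have h1 := (mk_entries 0 0 1 0 0 0 0 0 0).1.mpr (by simp)
  rw [h, Submodule.mem_bot] at h1
  have h2 := congrArg (fun w => pY w 1 0) h1
  simp at h2

lemma Cc_ne : Cc ≠ ⊥ := by
  intro h
  have h1 := (mk_entries 1 0 0 0 0 0 0 0 0).2.2.mpr (by simp)
  rw [h, Submodule.mem_bot] at h1
  have h2 := congrArg (fun w => pY w 0 0) h1
  simp at h2

end MP6194
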