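import Pool.Agent.MP_6194a9_an.Mfd

/-!
The frame of the tangent bundle of the manifold and the invariant distributions.
-/

open Matrix Filter Topology Bundle
open scoped Matrix.Norms.Elementwise Manifold ContDiff

namespace MP6194

/-- the differential of the projection -/
noncomputable def dP (x : Mod) : Mod →L[ℝ] TangentSpace 𝓘(ℝ, Mod) (P x) :=
  mfderiv 𝓘(ℝ, Mod) 𝓘(ℝ, Mod) P x

lemma dP_equiv {x : Mod} (hx : x ∈ U) :
    ∃ e : Mod ≃L[ℝ] TangentSpace 𝓘(ℝ, Mod) (P x), ∀ v : Mod, dP x v = e v :=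
  MP6194L.exists_equiv P_locR hx

lemma P_mdiff {x : Mod} (hx : x ∈ U) : MDifferentiableAt 𝓘(ℝ, Mod) 𝓘(ℝ, Mod) P x :=
  (P_locR ⟨x, hx⟩).mdifferentiableAt (by simp)

/-- differential of a composition with the projection -/
lemma dP_comp {F : Mod → Mod} {F' : Mod →L[ℝ] Mod} {x : Mod} (hF : HasFDerivAt F F' x)
    (hFx : F x ∈ U) (v : Mod) :
    mfderiv 𝓘(ℝ, Mod) 𝓘(ℝ, Mod) (P ∘ F) x v = dP (F x) (F' v) := by
  have h1 : HasMFDerivAt 𝓘(ℝ, Mod) 𝓘(ℝ, Mod) F x F' := hF.hasMFDerivAt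
  have h2 : HasMFDerivAt 𝓘(ℝ, Mod) 𝓘(ℝ, Mod) P (F x) (dP (F x)) := (P_mdiff hFx).hasMFDerivAt
  have h3 := h2.comp x h1
  rw [h3.mfderiv]
  rfl

lemma hasFDerivAt_act (k : ℤ) (g l : Mat) (m : ℂ) (x : Mod) :
    HasFDerivAt (act k g l m) ((actL k g).restrictScalars ℝ) x := by
  have := ((actL k g).restrictScalars ℝ).hasFDerivAt (x := x)
  exact this.add_const (mk 0 l m)

/-- two differentials with different base points are compared in the model space -/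
lemma dP_act {k : ℤ} {g l : Mat} {m : ℂ} (hg : InG g) (hl : InL l) (hm : InZi m) {x : Mod}
    (hx : x ∈ U) (v : Mod) :
    (dP (act k g l m x) (actL k g v) : Mod) = (dP x v : Mod) := by
  have h1 := dP_comp (hasFDerivAt_act k g l m x) (act_mem hg hx) v
  have h2 : P ∘ act k g l m =ᶠ[𝓝 x] P := by
    filter_upwards [U.isOpen.mem_nhds hx] with y hy
    exact P_act hg hl hm hy
  have h3 : (mfderiv 𝓘(ℝ, Mod) 𝓘(ℝ, Mod) (P ∘ act k g l m) x : Mod →L[ℝ] Mod)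
      = mfderiv 𝓘(ℝ, Mod) 𝓘(ℝ, Mod) P x := h2.mfderiv_eq
  have h4 : (mfderiv 𝓘(ℝ, Mod) 𝓘(ℝ, Mod) (P ∘ act k g l m) x : Mod →L[ℝ] Mod) v
      = (mfderiv 𝓘(ℝ, Mod) 𝓘(ℝ, Mod) P x : Mod →L[ℝ] Mod) v :=
    congrArg (fun L : Mod →L[ℝ] Mod => L v) h3
  exact h1.symm.trans h4

/-- a lift of a point of the manifold -/
noncomputable def lift (q : MM) : Mod := (P_surj q).choose

lemma lift_mem (q : MM) : lift q ∈ U := (P_surj q).choose_spec.1

lemma P_lift (q : MM) : P (lift q) = q := (P_surj q).choose_spec.2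

/-- the frame of the tangent space -/
noncomputable def Fr (q : MM) : Mod →L[ℝ] TangentSpace 𝓘(ℝ, Mod) q :=
  (show Mod →L[ℝ] Mod from dP (lift q)).comp ((Lq (lift q)).restrictScalars ℝ)

lemma Fr_P {x : Mod} (hx : x ∈ U) (w : Mod) : Fr (P x) w = dP x (Lq x w) := by
  obtain ⟨k, g, l, m, hg, hl, hm, h⟩ := P_eq (lift_mem (P x)) hx (P_lift (P x))
  show (dP (lift (P x)) (Lq (lift (P x)) w) : Mod) = (dP x (Lq x w) : Mod)
  rw [h, Lq_act hg hx]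
  exact dP_act hg hl hm hx _

lemma Fr_bij (q : MM) : Function.Bijective (Fr q) := by
  obtain ⟨x, hx, rfl⟩ := P_surj q
  obtain ⟨e, he⟩ := dP_equiv hx
  constructor
  · intro v w h
    rw [Fr_P hx, Fr_P hx, he, he] at h
    have h1 := e.injective h
    rw [← Lp_Lq hx v, ← Lp_Lq hx w, h1]
  · intro v
    obtain ⟨u, hu⟩ := e.surjective v
    refine ⟨Lp x u, ?_⟩
    rw [Fr_P hx, Lq_Lp hx, he, hu]

/-- the frame as a linear equivalence -/
noncomputable def FrE (q : MM) : Mod ≃ₗ[ℝ] TangentSpace 𝓘(ℝ, Mod) q :=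
  LinearEquiv.ofBijective (Fr q).toLinearMap (Fr_bij q)

lemma FrE_apply (q : MM) (w : Mod) : FrE q w = Fr q w := rfl

/-- the distribution attached to a constant subspace -/
noncomputable def Dist (C : Submodule ℝ Mod) (q : MM) : Submodule ℝ (TangentSpace 𝓘(ℝ, Mod) q) :=
  C.map (FrE q).toLinearMap

lemma mem_Dist_P {C : Submodule ℝ Mod} {x : Mod} (hx : x ∈ U)
    {v : TangentSpace 𝓘(ℝ, Mod) (P x)} : v ∈ Dist C (P x) ↔ ∃ u : Mod, Lp x u ∈ C ∧ dP x u = v := by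
  constructor
  · rintro ⟨w, hw, rfl⟩
    refine ⟨Lq x w, ?_, ?_⟩
    · rw [Lp_Lq hx]; exact hw
    · exact (Fr_P hx w).symm
  · rintro ⟨u, hu, rfl⟩
    refine ⟨Lp x u, hu, ?_⟩
    show Fr (P x) (Lp x u) = dP x u
    rw [Fr_P hx, Lq_Lp hx]

/-- the frame fields are continuous -/
lemma contMDiff_Fr (w : Mod) : ContMDiff 𝓘(ℝ, Mod) 𝓘(ℝ, Mod).tangent 0
    (fun q => (⟨q, Fr q w⟩ : TangentBundle 𝓘(ℝ, Mod) MM)) := by
  apply MP6194L.contMDiff_pushforward U.isOpen P_locR P_surj (fun x => Lq x w)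
  · exact continuousOn_Lq.comp (f := fun x : Mod => (x, w))
      (continuous_id.prodMk continuous_const).continuousOn (fun x hx => ⟨hx, Set.mem_univ _⟩)
  · intro x hx
    exact Fr_P hx w

lemma pow_apply_iter (A : Mod →L[ℝ] Mod) (n : ℕ) (v : Mod) : (A ^ n) v = A^[n] v := by
  induction n with
  | zero => rfl
  | succ n ih => rw [Function.iterate_succ_apply', pow_succ', ← ih]; rfl

/-- the derivative of the iterates of the map -/
lemma dfM_iter {x : Mod} (hx : x ∈ U) (n : ℕ) (v : Mod) :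
    (mfderiv 𝓘(ℝ, Mod) 𝓘(ℝ, Mod) (fM^[n]) (P x) (dP x v) : Mod)
      = (dP (ft^[n] x) (ft^[n] v) : Mod) := by
  have hsm : ContMDiff 𝓘(ℝ, Mod) 𝓘(ℝ, Mod) ω (fM^[n]) := by
    induction n with
    | zero => exact contMDiff_id
    | succ n ih =>
      rw [Function.iterate_succ']
      exact fM_smoothR.comp ih
  have hmd : MDifferentiableAt 𝓘(ℝ, Mod) 𝓘(ℝ, Mod) (fM^[n]) (P x) :=
    (hsm (P x)).mdifferentiableAt (by simp)
  have hder : HasFDerivAt (ft^[n]) (((ft.restrictScalars ℝ) ^ n : Mod →L[ℝ] Mod)) x := by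
    have h := ((ft.restrictScalars ℝ) ^ n : Mod →L[ℝ] Mod).hasFDerivAt (x := x)
    have e : ⇑((ft.restrictScalars ℝ) ^ n : Mod →L[ℝ] Mod) = ft^[n] := by
      funext u; exact pow_apply_iter _ n u
    rw [e] at h
    exact h
  have h1 := dP_comp hder (iter_mem hx n) v
  have e2 : ((ft.restrictScalars ℝ) ^ n : Mod →L[ℝ] Mod) v = ft^[n] v := pow_apply_iter _ n v
  rw [e2] at h1
  have h2 : fM^[n] ∘ P =ᶠ[𝓝 x] P ∘ ft^[n] := by
    filter_upwards [U.isOpen.mem_nhds hx] with y hy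
    exact fM_iter hy n
  have h3 : (mfderiv 𝓘(ℝ, Mod) 𝓘(ℝ, Mod) (fM^[n] ∘ P) x : Mod →L[ℝ] Mod)
      = mfderiv 𝓘(ℝ, Mod) 𝓘(ℝ, Mod) (P ∘ ft^[n]) x := h2.mfderiv_eq
  have h4 : HasMFDerivAt 𝓘(ℝ, Mod) 𝓘(ℝ, Mod) (fM^[n] ∘ P) x
      ((mfderiv 𝓘(ℝ, Mod) 𝓘(ℝ, Mod) (fM^[n]) (P x)).comp (dP x)) :=
    hmd.hasMFDerivAt.comp x (P_mdiff hx).hasMFDerivAt
  have h5 : (mfderiv 𝓘(ℝ, Mod) 𝓘(ℝ, Mod) (fM^[n] ∘ P) x : Mod →L[ℝ] Mod) v
      = (mfderiv 𝓘(ℝ, Mod) 𝓘(ℝ, Mod) (fM^[n]) (P x) (dP x v) : Mod) := by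
    rw [h4.mfderiv]; rfl
  rw [← h5, h3]
  exact h1

end MP6194
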